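import Mathlib

/-!
# Countably dense families of functions

`OD I S Y` says that there is a family of functions `S → Y` indexed by `I` such that every function
on a countable subset of `S` is the restriction of a member of the family.
-/

open Cardinal Set Filter

universe u v w x

namespace Pool.Agent.Lib.MP_dbf3d5_gt

/-- There is an `ω`-dense family of functions `S → Y` indexed by `I`. -/
def OD (I : Type u) (S : Type v) (Y : Type w) : Prop :=
  ∃ F : I → S → Y, ∀ A : Set S, A.Countable → ∀ g : S → Y, ∃ i, ∀ a ∈ A, F i a = g a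

section basic

variable {I : Type u} {S : Type v} {Y : Type w}

lemma OD.nonempty [Nonempty Y] (h : OD I S Y) : Nonempty I := by
  obtain ⟨F, hF⟩ := h
  obtain ⟨i, _⟩ := hF ∅ countable_empty (fun _ => Classical.arbitrary Y)
  exact ⟨i⟩

lemma OD.comp_surj {I' : Type x} (h : OD I S Y) (f : I' → I) (hf : Function.Surjective f) :
    OD I' S Y := by
  obtain ⟨F, hF⟩ := h
  refine ⟨fun i => F (f i), fun A hA g => ?_⟩
  obtain ⟨i, hi⟩ := hF A hA g
  obtain ⟨i', rfl⟩ := hf i
  exact ⟨i', hi⟩

lemma OD.mono_left {I' : Type x} [Nonempty Y] (h : OD I S Y)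
    (hc : lift.{x} #I ≤ lift.{u} #I') : OD I' S Y := by
  have := h.nonempty
  obtain ⟨f⟩ := lift_mk_le'.mp hc
  exact h.comp_surj (Function.invFun f) (Function.invFun_surjective f.injective)

lemma OD.comp_inj {S' : Type x} [Nonempty Y] (h : OD I S Y) (f : S' → S)
    (hf : Function.Injective f) : OD I S' Y := by
  classical
  obtain ⟨F, hF⟩ := h
  refine ⟨fun i s => F i (f s), fun A hA g => ?_⟩
  obtain ⟨i, hi⟩ := hF (f '' A) (hA.image f)
    (fun s => if h : ∃ s', f s' = s then g h.choose else Classical.arbitrary Y)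
  refine ⟨i, fun a ha => ?_⟩
  beta_reduce
  rw [hi (f a) (mem_image_of_mem f ha)]
  have h1 : ∃ s', f s' = f a := ⟨a, rfl⟩
  rw [dif_pos h1]
  exact congrArg g (hf h1.choose_spec)

lemma OD.mono_right {S' : Type x} [Nonempty Y] (h : OD I S Y)
    (hc : lift.{v} #S' ≤ lift.{x} #S) : OD I S' Y := by
  obtain ⟨f⟩ := lift_mk_le'.mp hc
  exact h.comp_inj f f.injective

lemma OD.comp_val {Y' : Type x} (h : OD I S Y) (f : Y → Y') (hf : Function.Surjective f) :
    OD I S Y' := by
  obtain ⟨F, hF⟩ := h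
  refine ⟨fun i s => f (F i s), fun A hA g => ?_⟩
  obtain ⟨i, hi⟩ := hF A hA (fun s => Function.surjInv hf (g s))
  refine ⟨i, fun a ha => ?_⟩
  beta_reduce
  rw [hi a ha]
  exact Function.surjInv_eq hf _

lemma OD.curry (h : OD I (S × ℕ) Y) : OD I S (ℕ → Y) := by
  obtain ⟨F, hF⟩ := h
  refine ⟨fun i s n => F i (s, n), fun A hA g => ?_⟩
  obtain ⟨i, hi⟩ := hF (A ×ˢ (univ : Set ℕ)) (hA.prod (countable_univ))
    (fun p => g p.1 p.2)
  refine ⟨i, fun a ha => ?_⟩
  funext n
  exact hi (a, n) ⟨ha, mem_univ _⟩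

/-- If `S` is infinite we may replace `Bool` by any nonempty set of size at most continuum. -/
lemma OD.val_le_continuum [Infinite S] (h : OD I S Bool) (Y : Type w) [Nonempty Y]
    (hY : #Y ≤ 𝔠) : OD I S Y := by
  have h1 : OD I (S × ℕ) Bool := by
    apply h.mono_right
    rw [lift_id, lift_id, mk_prod, lift_uzero, mk_nat, lift_aleph0,
      mul_aleph0_eq (aleph0_le_mk S)]
  have h2 := h1.curry
  have h3 : lift.{0} #Y ≤ lift.{w} #(ℕ → Bool) := by
    rw [lift_uzero]
    simpa using hY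
  obtain ⟨f⟩ := lift_mk_le'.mp h3
  exact h2.comp_val (Function.invFun f) (Function.invFun_surjective f.injective)

end basic

section tree

variable {I : Type u} {S : Type v}

/-- restriction of a sequence to a list -/
def res (x : ℕ → S) (k : ℕ) : List S := List.ofFn (fun i : Fin k => x i)

lemma res_length (x : ℕ → S) (k : ℕ) : (res x k).length = k := List.length_ofFn

lemma res_ne {x y : ℕ → S} (h : x ≠ y) : ∃ k₀, ∀ k ≥ k₀, res x k ≠ res y k := by
  obtain ⟨n, hn⟩ := Function.ne_iff.mp h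
  refine ⟨n + 1, fun k hk he => hn ?_⟩
  have := List.ofFn_injective he
  exact congrFun this ⟨n, by omega⟩

open Classical in
/-- **Key fact.** `m(σ) = m(σ^ω)`. -/
theorem OD.seq [Infinite S] (h : OD I S Bool) : OD I (ℕ → S) Bool := by
  have h1 : OD I (List S) Bool := by
    apply h.mono_right
    rw [mk_list_eq_mk]
  obtain ⟨F, hF⟩ := h1
  refine ⟨fun i x => decide (∀ᶠ k in atTop, F i (res x k) = true), fun A hA g => ?_⟩
  rcases A.eq_empty_or_nonempty with rfl | hne
  · obtain ⟨i, _⟩ := hF ∅ countable_empty (fun _ => true)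
    exact ⟨i, fun a ha => absurd ha (notMem_empty a)⟩
  obtain ⟨a, rfl⟩ := hA.exists_eq_range hne
  set G : List S → Bool := fun l =>
    if h : ∃ n, res (a n) l.length = l then g (a (Nat.find h)) else false with hG
  have hG1 : ∀ (l : List S) (h3 : ∃ n, res (a n) l.length = l), G l = g (a (Nat.find h3)) := by
    intro l h3
    rw [hG]
    exact dif_pos h3
  have key : ∀ n, ∀ᶠ k in atTop, G (res (a n) k) = g (a n) := by
    intro n
    have h2 : ∀ m, ∃ k₀, ∀ k ≥ k₀, a m ≠ a n → res (a m) k ≠ res (a n) k := by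
      intro m
      by_cases hmn : a m = a n
      · exact ⟨0, fun k _ h => absurd hmn h⟩
      · obtain ⟨k₀, hk₀⟩ := res_ne hmn
        exact ⟨k₀, fun k hk _ => hk₀ k hk⟩
    choose k₀ hk₀ using h2
    filter_upwards [eventually_ge_atTop ((Finset.range (n + 1)).sup k₀)] with k hk
    have h3 : ∃ m, res (a m) (res (a n) k).length = res (a n) k := ⟨n, by rw [res_length]⟩
    rw [hG1 _ h3]
    have h4 : res (a (Nat.find h3)) k = res (a n) k := by
      have h4' := Nat.find_spec h3
      have h4'' : ∀ j, j = k → res (a (Nat.find h3)) j = res (a n) k →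
        res (a (Nat.find h3)) k = res (a n) k := by
        rintro j rfl h
        exact h
      exact h4'' _ (res_length (a n) k) h4'
    have h5 : Nat.find h3 ≤ n := Nat.find_min' h3 (by rw [res_length])
    by_contra hne
    have h6 : a (Nat.find h3) ≠ a n := fun he => hne (by rw [he])
    refine hk₀ (Nat.find h3) k (le_trans ?_ hk) h6 h4
    exact Finset.le_sup (f := k₀) (Finset.mem_range.mpr (by omega))
  obtain ⟨i, hi⟩ := hF (range (fun p : ℕ × ℕ => res (a p.1) p.2)) (countable_range _) G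
  refine ⟨i, ?_⟩
  rintro _ ⟨n, rfl⟩
  have h7 : ∀ k, F i (res (a n) k) = G (res (a n) k) := fun k => hi _ ⟨(n, k), rfl⟩
  by_cases hg : g (a n) = true
  · rw [hg, decide_eq_true_iff]
    filter_upwards [key n] with k hk
    rw [h7, hk, hg]
  · have hg' : g (a n) = false := by simpa using hg
    rw [hg', decide_eq_false_iff_not]
    intro hcon
    obtain ⟨k, hk1, hk2⟩ := ((key n).and hcon).exists
    rw [h7, hk1, hg'] at hk2
    exact absurd hk2 (by simp)

end tree

section power

variable (S : Type v)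

open Classical in
theorem OD_idx [Nonempty S] :
    OD ((ℕ → S) × (ℕ → Set ℕ) × (ℕ → Bool)) (Set S) Bool := by
  refine ⟨fun i X => if h : ∃ n, {k | i.1 k ∈ X} = i.2.1 n then i.2.2 (Nat.find h) else false,
    fun A hA g => ?_⟩
  rcases A.eq_empty_or_nonempty with rfl | hne
  · exact ⟨⟨fun _ => Classical.arbitrary S, fun _ => ∅, fun _ => true⟩,
      fun a ha => absurd ha (notMem_empty a)⟩
  obtain ⟨b, rfl⟩ := hA.exists_eq_range hne
  have h1 : ∀ p : ℕ × ℕ, ∃ s : S, b p.1 ≠ b p.2 → ¬ (s ∈ b p.1 ↔ s ∈ b p.2) := by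
    intro p
    by_cases hp : b p.1 = b p.2
    · exact ⟨Classical.arbitrary S, fun h => absurd hp h⟩
    · by_contra hcon
      push Not at hcon
      exact hp (Set.ext (fun s => (hcon s).2))
  choose s hs using h1
  refine ⟨⟨fun k => s (Nat.unpair k), fun n => {k | s (Nat.unpair k) ∈ b n}, fun n => g (b n)⟩, ?_⟩
  rintro _ ⟨n, rfl⟩
  have h2 : ∃ m, {k | s (Nat.unpair k) ∈ b n} = {k | s (Nat.unpair k) ∈ b m} := ⟨n, rfl⟩
  simp only
  rw [dif_pos h2]
  have h3 := Nat.find_spec h2
  have h4 : b n = b (Nat.find h2) := by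
    by_contra hne
    have h5 := hs (n, Nat.find h2) hne
    apply h5
    have h6 := Set.ext_iff.mp h3 (Nat.pair n (Nat.find h2))
    simp only [mem_ofPred_eq, Nat.unpair_pair] at h6
    exact h6
  rw [← h4]

lemma mk_idx_le [Infinite S] (hS : #S ^ ℵ₀ = #S) :
    #((ℕ → S) × (ℕ → Set ℕ) × (ℕ → Bool)) ≤ #S := by
  have h0 : ℵ₀ ≤ #S := aleph0_le_mk S
  have hc : 𝔠 ≤ #S := by
    rw [← two_power_aleph0, ← hS]
    exact power_le_power_right (le_trans (natCast_le_aleph0 (n := 2)) h0)
  have h1 : #(ℕ → S) = #S := by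
    rw [mk_pi, prod_const, mk_nat, lift_uzero, lift_aleph0, hS]
  have h2 : #(ℕ → Set ℕ) = 𝔠 := by
    rw [mk_pi, prod_const, mk_set, mk_nat, two_power_aleph0, lift_id, lift_id,
      continuum_power_aleph0]
  have h3 : #(ℕ → Bool) = 𝔠 := by
    rw [mk_pi, prod_const, mk_bool, mk_nat, lift_id, lift_id, two_power_aleph0]
  rw [mk_prod, mk_prod, h1, h2, h3, lift_id, continuum_mul_self, lift_continuum, lift_uzero]
  exact (mul_le_max_of_aleph0_le_left h0).trans (max_le le_rfl hc)

theorem OD_powerset [Infinite S] (hS : #S ^ ℵ₀ = #S) : OD S (Set S) Bool := by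
  apply (OD_idx S).mono_left
  rw [lift_id, lift_id]
  exact mk_idx_le S hS

end power

/-- `m(σ) ≥ c` -/
lemma OD.continuum_le {I : Type u} {S : Type v} [Infinite S] (h : OD I S Bool) : 𝔠 ≤ #I := by
  have h1 : OD I ℕ Bool := by
    apply h.mono_right
    rw [mk_nat, lift_aleph0]
    exact aleph0_le_lift.mpr (aleph0_le_mk S)
  obtain ⟨F, hF⟩ := h1
  have h2 : Function.Surjective F := by
    intro g
    obtain ⟨i, hi⟩ := hF univ countable_univ g
    exact ⟨i, funext (fun a => hi a (mem_univ a))⟩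
  have h3 := mk_le_of_surjective (α := I) (β := ULift.{u} (ℕ → Bool)) (f := fun i => ⟨F i⟩) ?_
  · simpa using h3
  · rintro ⟨g⟩
    obtain ⟨i, rfl⟩ := h2 g
    exact ⟨i, rfl⟩

end Pool.Agent.Lib.MP_dbf3d5_gt
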