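import Mathlib
import Pool.Agent.Lib.MP_dbf3d5_gt.Dense

section

/-!
# Admissible subgroups of compact groups
-/

open Set Filter Topology Cardinal

universe u v w

namespace Pool.Agent.Lib.MP_dbf3d5_gt

variable {K : Type u} [AddCommGroup K] [TopologicalSpace K]

/-- A subgroup is admissible if it is the intersection of a sequence `U n` of neighbourhoods of
zero with `U (n + 1) - U (n + 1) ⊆ U n`. -/
def Adm (N : AddSubgroup K) : Prop :=
  ∃ U : ℕ → Set K, (∀ n, U n ∈ 𝓝 (0 : K)) ∧ (∀ n, ∀ x ∈ U (n + 1), ∀ y ∈ U (n + 1), x - y ∈ U n) ∧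
    (N : Set K) = ⋂ n, U n

lemma adm_top : Adm (⊤ : AddSubgroup K) :=
  ⟨fun _ => univ, fun _ => univ_mem, fun _ _ _ _ _ => mem_univ _, by simp⟩

lemma exists_adm [IsTopologicalAddGroup K] {V : Set K} (hV : V ∈ 𝓝 (0 : K)) :
    ∃ N : AddSubgroup K, Adm N ∧ (N : Set K) ⊆ V := by
  have hstep : ∀ W : {W : Set K // W ∈ 𝓝 (0 : K)}, ∃ W' : {W : Set K // W ∈ 𝓝 (0 : K)},
      ∀ x ∈ W'.1, ∀ y ∈ W'.1, x - y ∈ W.1 := by
    rintro ⟨W, hW⟩
    have h1 : Tendsto (fun p : K × K => p.1 - p.2) (𝓝 (0, 0)) (𝓝 0) := by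
      exact (continuous_fst.sub continuous_snd).tendsto' (0, 0) 0 (sub_self 0)
    have h2 := h1 hW
    rw [nhds_prod_eq, Filter.mem_map, Filter.mem_prod_iff] at h2
    obtain ⟨A, hA, B, hB, hAB⟩ := h2
    exact ⟨⟨A ∩ B, inter_mem hA hB⟩, fun x hx y hy => hAB (mk_mem_prod hx.1 hy.2)⟩
  choose f hf using hstep
  let U : ℕ → {W : Set K // W ∈ 𝓝 (0 : K)} := fun n => Nat.rec ⟨V, hV⟩ (fun _ W => f W) n
  have hU : ∀ n, ∀ x ∈ (U (n + 1)).1, ∀ y ∈ (U (n + 1)).1, x - y ∈ (U n).1 := fun n => hf (U n)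
  have h0 : ∀ n, (0 : K) ∈ (U n).1 := fun n => mem_of_mem_nhds (U n).2
  let N : AddSubgroup K :=
    { carrier := ⋂ n, (U n).1
      zero_mem' := mem_iInter.mpr h0
      neg_mem' := by
        intro x hx
        rw [mem_iInter] at hx ⊢
        intro n
        have := hU n 0 (h0 (n + 1)) x (hx (n + 1))
        rwa [zero_sub] at this
      add_mem' := by
        intro x y hx hy
        rw [mem_iInter] at hx hy ⊢
        intro n
        have h1 := hU (n + 1) 0 (h0 (n + 1 + 1)) y (hy (n + 1 + 1))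
        rw [zero_sub] at h1
        have h2 := hU n x (hx (n + 1)) (-y) h1
        rwa [sub_neg_eq_add] at h2 }
  exact ⟨N, ⟨fun n => (U n).1, fun n => (U n).2, hU, rfl⟩, iInter_subset _ 0⟩

lemma exists_adm_notMem [IsTopologicalAddGroup K] [T1Space K] {x : K} (hx : x ≠ 0) :
    ∃ N : AddSubgroup K, Adm N ∧ x ∉ N := by
  obtain ⟨N, hN, hsub⟩ := exists_adm (K := K) (V := {x}ᶜ)
    (isOpen_compl_singleton.mem_nhds (by simpa using hx.symm))
  exact ⟨N, hN, fun h => hsub h rfl⟩

lemma Adm.isClosed [IsTopologicalAddGroup K] {N : AddSubgroup K} (hN : Adm N) :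
    IsClosed (N : Set K) := by
  obtain ⟨U, hU, hsub, hNU⟩ := hN
  apply isClosed_of_closure_subset
  intro x hx
  rw [hNU, mem_iInter]
  intro n
  have h1 : {y : K | y - x ∈ U (n + 1)} ∈ 𝓝 x := by
    have h2 : Tendsto (fun y : K => y - x) (𝓝 x) (𝓝 0) := by
      exact (continuous_id.sub continuous_const).tendsto' x 0 (sub_self x)
    exact h2 (hU (n + 1))
  obtain ⟨y, hy1, hy2⟩ := mem_closure_iff_nhds.mp hx _ h1
  rw [hNU, mem_iInter] at hy2
  have h3 := hsub n y (hy2 (n + 1)) (y - x) hy1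
  rwa [sub_sub_cancel] at h3

lemma Adm.iInf {N : ℕ → AddSubgroup K} (hN : ∀ i, Adm (N i)) : Adm (⨅ i, N i) := by
  choose U hU hsub hNU using hN
  have hdec : ∀ i n, U i (n + 1) ⊆ U i n := by
    intro i n x hx
    have := hsub i n x hx 0 (mem_of_mem_nhds (hU i _))
    rwa [sub_zero] at this
  refine ⟨fun n => ⋂ i ∈ Finset.range (n + 1), U i n, fun n => ?_, fun n x hx y hy => ?_, ?_⟩
  · exact (Filter.biInter_finset_mem _).mpr (fun i _ => hU i n)
  · rw [mem_iInter₂] at hx hy ⊢
    intro i hi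
    have hi' : i ∈ Finset.range (n + 1 + 1) := by
      rw [Finset.mem_range] at hi ⊢
      omega
    exact hsub i n x (hx i hi') y (hy i hi')
  · ext x
    simp only [AddSubgroup.coe_iInf, mem_iInter, hNU]
    constructor
    · intro h n i _
      exact h i n
    · intro h i n
      have h1 : ∀ m, x ∈ U i (n + m) → x ∈ U i n := by
        intro m
        induction m with
        | zero => exact id
        | succ m ih => exact fun h => ih (hdec i _ h)
      exact h1 i (h (n + i) i (Finset.mem_range.mpr (by omega)))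

lemma Adm.sInf {s : Set (AddSubgroup K)} (hs : s.Countable) (hN : ∀ N ∈ s, Adm N) :
    Adm (sInf s) := by
  rcases s.eq_empty_or_nonempty with rfl | hne
  · rw [_root_.sInf_empty]; exact adm_top
  · obtain ⟨N, rfl⟩ := hs.exists_eq_range hne
    rw [sInf_range]
    exact Adm.iInf (fun i => hN _ (mem_range_self i))

/-- The quotient by an admissible subgroup of a compact group has size at most continuum. -/
lemma Adm.exists_code [CompactSpace K] [IsTopologicalAddGroup K] {N : AddSubgroup K}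
    (hN : Adm N) : ∃ f : K → (ℕ → ℕ), ∀ x y, f x = f y → x - y ∈ N := by
  classical
  obtain ⟨U, hU, hsub, hNU⟩ := hN
  have h1 : ∀ n, ∃ F : Finset K, ∀ x : K, ∃ a ∈ F, x - a ∈ U (n + 1) := by
    intro n
    have h2 : ∀ a : K, {x : K | x - a ∈ U (n + 1)} ∈ 𝓝 a := by
      intro a
      have h3 : Tendsto (fun y : K => y - a) (𝓝 a) (𝓝 0) := by
        exact (continuous_id.sub continuous_const).tendsto' a 0 (sub_self a)
      exact h3 (hU (n + 1))
    obtain ⟨F, _, hF⟩ := isCompact_univ.elim_nhds_subcover _ (fun a _ => h2 a)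
    refine ⟨F, fun x => ?_⟩
    have := hF (mem_univ x)
    rw [mem_iUnion₂] at this
    obtain ⟨a, ha, hxa⟩ := this
    exact ⟨a, ha, hxa⟩
  choose F hF using h1
  choose a ha hxa using hF
  have h4 : ∀ n, ∃ c : K → ℕ, Set.InjOn c (F n : Set K) := by
    intro n
    exact Set.countable_iff_exists_injOn.mp (F n).countable_toSet
  choose c hc using h4
  refine ⟨fun x n => c n (a n x), fun x y hxy => ?_⟩
  change x - y ∈ (N : Set K)
  rw [hNU, mem_iInter]
  intro n
  have h5 : a n x = a n y := hc n (ha n x) (ha n y) (congrFun hxy n)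
  have h6 := hsub n _ (hxa n x) _ (hxa n y)
  rw [h5, sub_sub_sub_cancel_right] at h6
  exact h6

end Pool.Agent.Lib.MP_dbf3d5_gt
end

section

/-!
A Cantor scheme modulo an increasing union of nowhere dense closed subgroups of a compact group.
-/

universe u

namespace Pool.Agent.Lib.MP_dbf3d5_gt

open Set Topology Filter

section

variable {K : Type u} [AddCommGroup K] [TopologicalSpace K] [IsTopologicalAddGroup K]
  [CompactSpace K] [T2Space K]

/-- Points in prescribed open sets whose differences avoid a nowhere dense closed subgroup. -/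
theorem exists_points (H : AddSubgroup K) (hcl : IsClosed (H : Set K))
    (hint : interior (H : Set K) = ∅) {J : Type} [Fintype J] (U : J → Set K)
    (ho : ∀ j, IsOpen (U j)) (hne : ∀ j, (U j).Nonempty) :
    ∃ y : J → K, (∀ j, y j ∈ U j) ∧ ∀ i j, i ≠ j → y i - y j ∉ H := by
  classical
  have key : ∀ s : Finset J, ∃ y : J → K, (∀ j, y j ∈ U j) ∧
      ∀ i ∈ s, ∀ j ∈ s, i ≠ j → y i - y j ∉ H := by
    intro s
    induction s using Finset.induction_on with
    | empty =>
      choose y hy using hne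
      exact ⟨y, hy, by simp⟩
    | insert a s ha ih =>
      obtain ⟨y, hy, hs⟩ := ih
      have hd : Dense (⋂ j ∈ (s : Set J), {x : K | x - y j ∉ H}) := by
        apply dense_biInter_of_isOpen
        · intro j _
          exact (hcl.preimage (Homeomorph.subRight (y j)).continuous).isOpen_compl
        · exact s.countable_toSet
        · intro j _
          have h1 : Dense ((H : Set K)ᶜ) := interior_eq_empty_iff_dense_compl.1 hint
          exact h1.preimage (Homeomorph.subRight (y j)).isOpenMap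
      obtain ⟨x, hxU, hx⟩ := hd.inter_open_nonempty (U a) (ho a) (hne a)
      have hx' : ∀ j ∈ s, x - y j ∉ H := by
        intro j hj
        have := mem_iInter₂.1 hx j hj
        exact this
      refine ⟨Function.update y a x, ?_, ?_⟩
      · intro j
        by_cases hj : j = a
        · subst hj; simpa using hxU
        · simpa [Function.update_of_ne hj] using hy j
      · intro i hi j hj hij
        rw [Finset.mem_insert] at hi hj
        rcases hi with rfl | hi
        · rcases hj with rfl | hj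
          · exact absurd rfl hij
          · have hji : j ≠ i := fun h => hij h.symm
            rw [Function.update_self, Function.update_of_ne hji]
            exact hx' j hj
        · have hia : i ≠ a := fun h => ha (h ▸ hi)
          rcases hj with rfl | hj
          · rw [Function.update_self, Function.update_of_ne hia]
            intro hmem
            apply hx' i hi
            have := H.neg_mem hmem
            rwa [neg_sub] at this
          · have hja : j ≠ a := fun h => ha (h ▸ hj)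
            rw [Function.update_of_ne hia, Function.update_of_ne hja]
            exact hs i hi j hj hij
  obtain ⟨y, hy, h⟩ := key Finset.univ
  exact ⟨y, hy, fun i j hij => h i (Finset.mem_univ _) j (Finset.mem_univ _) hij⟩

/-- One step of the scheme. -/
theorem exists_shrink (H : AddSubgroup K) (hcl : IsClosed (H : Set K))
    (hint : interior (H : Set K) = ∅) {J : Type} [Fintype J] (U : J → Set K)
    (ho : ∀ j, IsOpen (U j)) (hne : ∀ j, (U j).Nonempty) :
    ∃ V : J → Set K, (∀ j, IsOpen (V j)) ∧ (∀ j, (V j).Nonempty) ∧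
      (∀ j, closure (V j) ⊆ U j) ∧
      ∀ i j, i ≠ j → ∀ x ∈ closure (V i), ∀ y ∈ closure (V j), x - y ∉ H := by
  classical
  obtain ⟨y, hyU, hyH⟩ := exists_points H hcl hint U ho hne
  have hopen : IsOpen {p : K × K | p.1 - p.2 ∉ H} :=
    (hcl.preimage (continuous_fst.sub continuous_snd)).isOpen_compl
  have h1 : ∀ i j : J, ∃ A B : Set K, IsOpen A ∧ IsOpen B ∧ y i ∈ A ∧ y j ∈ B ∧
      (i ≠ j → ∀ a ∈ A, ∀ b ∈ B, a - b ∉ H) := by
    intro i j
    by_cases hij : i = j
    · exact ⟨univ, univ, isOpen_univ, isOpen_univ, trivial, trivial, fun h => absurd hij h⟩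
    · obtain ⟨A, B, hA, hB, hiA, hjB, hAB⟩ := isOpen_prod_iff.1 hopen (y i) (y j) (hyH i j hij)
      exact ⟨A, B, hA, hB, hiA, hjB, fun _ a ha b hb => hAB (mk_mem_prod ha hb)⟩
  choose A B hA hB hiA hjB hAB using h1
  let T : J → Set K := fun j => U j ∩ ⋂ i, (A j i ∩ B i j)
  have hT : ∀ j, T j ∈ 𝓝 (y j) := by
    intro j
    apply IsOpen.mem_nhds
    · apply (ho j).inter
      exact isOpen_iInter_of_finite fun i => (hA j i).inter (hB i j)
    · refine ⟨hyU j, mem_iInter.2 fun i => ⟨hiA j i, hjB i j⟩⟩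
  have h2 : ∀ j, ∃ C : Set K, C ∈ 𝓝 (y j) ∧ IsClosed C ∧ C ⊆ T j := by
    intro j
    obtain ⟨C, ⟨hC1, hC2⟩, hC3⟩ := (closed_nhds_basis (y j)).mem_iff.1 (hT j)
    exact ⟨C, hC1, hC2, hC3⟩
  choose C hC1 hC2 hC3 using h2
  have hcl' : ∀ j, closure (interior (C j)) ⊆ T j := fun j =>
    (closure_minimal interior_subset (hC2 j)).trans (hC3 j)
  refine ⟨fun j => interior (C j), fun j => isOpen_interior,
    fun j => ⟨y j, mem_interior_iff_mem_nhds.2 (hC1 j)⟩,
    fun j => (hcl' j).trans inter_subset_left, ?_⟩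
  intro i j hij a ha b hb
  have ha' := mem_iInter.1 (hcl' i ha).2 j
  have hb' := mem_iInter.1 (hcl' j hb).2 i
  exact hAB i j hij a ha'.1 b hb'.2

/-- Level `n` of the scheme: a family of nonempty open sets indexed by words of length `n`. -/
structure Level (K : Type u) [TopologicalSpace K] (n : ℕ) where
  /-- the open sets -/
  O : (Fin n → Bool) → Set K
  isOpen : ∀ s, IsOpen (O s)
  nonempty : ∀ s, (O s).Nonempty

theorem exists_next (N : ℕ → AddSubgroup K) (hcl : ∀ k, IsClosed (N k : Set K))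
    (hint : ∀ k, interior (N k : Set K) = ∅) (n : ℕ) (L : Level K n) :
    ∃ L' : Level K (n + 1), (∀ s, closure (L'.O s) ⊆ L.O (Fin.init s)) ∧
      ∀ s t, s ≠ t → ∀ x ∈ closure (L'.O s), ∀ y ∈ closure (L'.O t), x - y ∉ N (n + 1) := by
  obtain ⟨V, h1, h2, h3, h4⟩ := exists_shrink (N (n + 1)) (hcl _) (hint _)
    (fun s : Fin (n + 1) → Bool => L.O (Fin.init s)) (fun s => L.isOpen _) (fun s => L.nonempty _)
  exact ⟨⟨V, h1, h2⟩, h3, h4⟩

end

/-- **Cantor scheme** modulo an increasing union of nowhere dense closed subgroups. -/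
theorem exists_cantor {K : Type u} [AddCommGroup K] [TopologicalSpace K] [IsTopologicalAddGroup K]
    [CompactSpace K] [T2Space K] (N : ℕ → AddSubgroup K) (hmono : Monotone N)
    (hcl : ∀ k, IsClosed (N k : Set K)) (hint : ∀ k, interior (N k : Set K) = ∅) :
    ∃ f : (ℕ → Bool) → K, ∀ a b, a ≠ b → ∀ k, f a - f b ∉ N k := by
  classical
  choose next hnext1 hnext2 using fun (n : ℕ) (L : Level K n) => exists_next N hcl hint n L
  let L0 : Level K 0 := ⟨fun _ => univ, fun _ => isOpen_univ, fun _ => ⟨0, trivial⟩⟩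
  let L : (n : ℕ) → Level K n := fun n => Nat.rec L0 (fun n L => next n L) n
  have hL : ∀ n, L (n + 1) = next n (L n) := fun n => rfl
  let res : (ℕ → Bool) → (n : ℕ) → Fin n → Bool := fun a n i => a i
  have hres : ∀ a n, Fin.init (res a (n + 1)) = res a n := by
    intro a n; rfl
  have hdec : ∀ a n, closure ((L (n + 1)).O (res a (n + 1))) ⊆ closure ((L n).O (res a n)) := by
    intro a n
    rw [hL]
    have := hnext1 n (L n) (res a (n + 1))
    rw [hres] at this
    exact this.trans subset_closure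
  have hne : ∀ a, (⋂ n, closure ((L n).O (res a n))).Nonempty := by
    intro a
    apply IsCompact.nonempty_iInter_of_sequence_nonempty_isCompact_isClosed
    · exact hdec a
    · intro n; exact ((L n).nonempty _).closure
    · exact isClosed_closure.isCompact
    · intro n; exact isClosed_closure
  choose f hf using hne
  refine ⟨f, ?_⟩
  intro a b hab k
  obtain ⟨i, hi⟩ := Function.ne_iff.1 hab
  set n := max i k with hn
  have hne' : res a (n + 1) ≠ res b (n + 1) := by
    intro h
    have := congrFun h ⟨i, by omega⟩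
    exact hi this
  have h1 := mem_iInter.1 (hf a) (n + 1)
  have h2 := mem_iInter.1 (hf b) (n + 1)
  rw [hL] at h1 h2
  have h3 := hnext2 n (L n) _ _ hne' _ h1 _ h2
  intro h4
  exact h3 (hmono (by omega : k ≤ n + 1) h4)

end Pool.Agent.Lib.MP_dbf3d5_gt
end

section

/-!
# The chain lemma
-/

open Set Filter Topology

universe u v w

namespace Pool.Agent.Lib.MP_dbf3d5_gt

section split

variable {K : Type u} [AddCommGroup K]

open Classical in
lemma exists_split {L P : AddSubgroup K} (h : ¬ L ≤ P) :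
    ∃ f : K → Bool, (∀ x y, x - y ∈ P → f x = f y) ∧ ∀ x b, ∃ y, y - x ∈ L ∧ f y = b := by
  obtain ⟨l₀, hl₀, hl₀P⟩ := SetLike.not_le_iff_exists.mp h
  let r : K → K := fun x => Quotient.out (QuotientAddGroup.mk x : K ⧸ (L ⊔ P))
  have hr1 : ∀ x, r x - x ∈ L ⊔ P := by
    intro x
    have h1 : (QuotientAddGroup.mk (r x) : K ⧸ (L ⊔ P)) = QuotientAddGroup.mk x :=
      QuotientAddGroup.out_eq' _
    rw [← QuotientAddGroup.eq_zero_iff, QuotientAddGroup.mk_sub, h1, sub_self]
  have hr2 : ∀ x y, x - y ∈ L ⊔ P → r x = r y := by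
    intro x y hxy
    have h1 : (QuotientAddGroup.mk x : K ⧸ (L ⊔ P)) = QuotientAddGroup.mk y := by
      rw [← sub_eq_zero, ← QuotientAddGroup.mk_sub, QuotientAddGroup.eq_zero_iff]
      exact hxy
    change Quotient.out (QuotientAddGroup.mk x : K ⧸ (L ⊔ P)) = _
    rw [h1]
  refine ⟨fun x => decide (x - r x ∈ P), fun x y hxy => ?_, fun x b => ?_⟩
  · have h1 : r x = r y := hr2 x y (AddSubgroup.mem_sup_right hxy)
    have h2 : x - r x ∈ P ↔ y - r y ∈ P := by
      rw [h1]
      constructor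
      · intro h
        have := P.sub_mem h hxy
        have e : x - r y - (x - y) = y - r y := by abel
        rwa [e] at this
      · intro h
        have := P.add_mem h hxy
        have e : y - r y + (x - y) = x - r y := by abel
        rwa [e] at this
    simp only [h2]
  · obtain ⟨l, hl, p, hp, hlp⟩ := AddSubgroup.mem_sup.mp (hr1 x)
    cases b with
    | true =>
      refine ⟨x + l, by rwa [add_sub_cancel_left], ?_⟩
      have h1 : r (x + l) = r x := hr2 _ _ (by
        rw [add_sub_cancel_left]; exact AddSubgroup.mem_sup_left hl)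
      beta_reduce
      rw [h1, decide_eq_true_iff]
      have e : x + l - r x = -p := by
        have : r x = l + p + x := by rw [hlp]; abel
        rw [this]; abel
      rw [e]
      exact P.neg_mem hp
    | false =>
      refine ⟨x + (l + l₀), by rw [add_sub_cancel_left]; exact L.add_mem hl hl₀, ?_⟩
      have h1 : r (x + (l + l₀)) = r x := hr2 _ _ (by
        rw [add_sub_cancel_left]; exact AddSubgroup.mem_sup_left (L.add_mem hl hl₀))
      beta_reduce
      rw [h1, decide_eq_false_iff_not]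
      have e : x + (l + l₀) - r x = l₀ - p := by
        have : r x = l + p + x := by rw [hlp]; abel
        rw [this]; abel
      rw [e]
      intro hcon
      apply hl₀P
      have := P.add_mem hcon hp
      rwa [sub_add_cancel] at this

end split

section chain

variable {K : Type u} [AddCommGroup K] [TopologicalSpace K] [CompactSpace K]
  [IsTopologicalAddGroup K] {Λ : Type v} [LinearOrder Λ]

lemma exists_thread (N : Λ → AddSubgroup K) (hcl : ∀ ξ, IsClosed (N ξ : Set K)) (x : Λ → K)
    (A : Set Λ) (hx : ∀ ξ ∈ A, ∀ η ∈ A, η < ξ → x ξ - x η ∈ N η) :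
    ∃ z, ∀ η ∈ A, z - x η ∈ N η := by
  classical
  have hc : ∀ η : A, IsClosed {z : K | z - x η ∈ N η} := fun η =>
    (hcl η).preimage (continuous_id.sub continuous_const)
  have hfin : ∀ s : Finset A, (univ ∩ ⋂ η ∈ s, {z : K | z - x η ∈ N η}).Nonempty := by
    intro s
    rcases s.eq_empty_or_nonempty with rfl | hne
    · exact ⟨0, by simp⟩
    · refine ⟨x (s.max' hne), mem_univ _, ?_⟩
      rw [mem_iInter₂]
      intro η hη
      change x (s.max' hne) - x η ∈ N η
      rcases (Finset.le_max' s η hη).lt_or_eq with h | h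
      · exact hx _ (s.max' hne).2 _ η.2 h
      · rw [← h, sub_self]
        exact (N _).zero_mem
  obtain ⟨z, _, hz⟩ := isCompact_univ.inter_iInter_nonempty _ hc hfin
  rw [mem_iInter] at hz
  exact ⟨z, fun η hη => hz ⟨η, hη⟩⟩

open Classical in
theorem chain_surjective [WellFoundedLT Λ] (N P : Λ → AddSubgroup K)
    (hcl : ∀ ξ, IsClosed (N ξ : Set K)) (hNP : ∀ ξ, N ξ ≤ P ξ)
    (hL : ∀ ξ, ¬ sInf (N '' Set.Iio ξ) ≤ P ξ) :
    ∃ F : K → Λ → Bool, (∀ ξ x y, x - y ∈ P ξ → F x ξ = F y ξ) ∧
      ∀ g : Λ → Bool, ∃ x, ∀ ξ, F x ξ = g ξ := by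
  have h1 := fun ξ => exists_split (hL ξ)
  choose f hf1 hf2 using h1
  refine ⟨fun x ξ => f ξ x, hf1, fun g => ?_⟩
  let body : (ξ : Λ) → ((η : Λ) → η < ξ → K) → K := fun ξ prev =>
    if h : ∃ y, (∀ η (hη : η < ξ), y - prev η hη ∈ N η) ∧ f ξ y = g ξ then h.choose else 0
  let x : Λ → K := WellFounded.fix (r := fun a b : Λ => a < b) wellFounded_lt body
  have hxe : ∀ ξ, x ξ = body ξ (fun η _ => x η) := fun ξ => WellFounded.fix_eq _ _ ξ
  have key : ∀ ξ, (∀ η < ξ, x ξ - x η ∈ N η) ∧ f ξ (x ξ) = g ξ := by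
    intro ξ
    induction ξ using WellFoundedLT.induction with
    | ind ξ ih =>
      have hex : ∃ y, (∀ η (_ : η < ξ), y - x η ∈ N η) ∧ f ξ y = g ξ := by
        obtain ⟨z, hz⟩ := exists_thread N hcl x (Set.Iio ξ)
          (fun a ha b _ hba => (ih a ha).1 b hba)
        obtain ⟨y, hy, hfy⟩ := hf2 ξ z (g ξ)
        refine ⟨y, fun η hη => ?_, hfy⟩
        have h2 : y - z ∈ N η := by
          rw [AddSubgroup.mem_sInf] at hy
          exact hy _ ⟨η, hη, rfl⟩
        have h3 := (N η).add_mem h2 (hz η hη)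
        rwa [sub_add_sub_cancel] at h3
      have h4 : x ξ = hex.choose := by
        rw [hxe]
        exact dif_pos hex
      rw [h4]
      exact hex.choose_spec
  obtain ⟨z, hz⟩ := exists_thread N hcl x univ (fun a _ b _ hba => (key a).1 b hba)
  refine ⟨z, fun ξ => ?_⟩
  rw [← (key ξ).2]
  exact hf1 ξ _ _ (hNP ξ (hz ξ (mem_univ ξ)))

end chain

end Pool.Agent.Lib.MP_dbf3d5_gt
end

section

/-!
# Chains of admissible subgroups of minimal length
-/

open Set Filter Topology Cardinal

universe u v w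

namespace Pool.Agent.Lib.MP_dbf3d5_gt

section

variable {K : Type u} [AddCommGroup K] [TopologicalSpace K]

open Classical in
/-- a step of the recursion -/
noncomputable def stepN (star : AddSubgroup K → AddSubgroup K) (t : Set (AddSubgroup K)) :
    AddSubgroup K :=
  if h : ∃ N, Adm N ∧ ¬ sInf t ≤ star N then h.choose else ⊤

lemma adm_stepN (star : AddSubgroup K → AddSubgroup K) (t : Set (AddSubgroup K)) :
    Adm (stepN star t) := by
  unfold stepN
  split_ifs with h
  · exact h.choose_spec.1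
  · exact adm_top

lemma stepN_spec {star : AddSubgroup K → AddSubgroup K} {t : Set (AddSubgroup K)}
    (h : ∃ N, Adm N ∧ ¬ sInf t ≤ star N) : ¬ sInf t ≤ star (stepN star t) := by
  have h1 : stepN star t = h.choose := dif_pos h
  rw [h1]
  exact h.choose_spec.2

theorem exists_chain (star : AddSubgroup K → AddSubgroup K) (small : AddSubgroup K → Prop)
    (hsmall : ∃ s : Set (AddSubgroup K), (∀ N ∈ s, Adm N) ∧ small (sInf s))
    (hS : ∀ s : Set (AddSubgroup K), (∀ N ∈ s, Adm N) → ¬ small (sInf s) →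
      ∃ N, Adm N ∧ ¬ sInf s ≤ star N) :
    ∃ s : Set (AddSubgroup K), (∀ N ∈ s, Adm N) ∧ small (sInf s) ∧
      ∃ (Λ : Type u) (_ : LinearOrder Λ) (_ : WellFoundedLT Λ) (N : Λ → AddSubgroup K),
        #Λ = #s ∧ (∀ ξ, Adm (N ξ)) ∧ ∀ ξ, ¬ sInf (N '' Set.Iio ξ) ≤ star (N ξ) := by
  set C : Set Cardinal.{u} := {c | ∃ s : Set (AddSubgroup K), (∀ N ∈ s, Adm N) ∧
    small (sInf s) ∧ #s = c} with hC
  have hCne : C.Nonempty := by
    obtain ⟨s, h1, h2⟩ := hsmall
    exact ⟨#s, s, h1, h2, rfl⟩
  obtain ⟨s, hs1, hs2, hs3⟩ := csInf_mem hCne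
  refine ⟨s, hs1, hs2, (#s).ord.ToType, inferInstance, inferInstance, ?_⟩
  let body : (ξ : (#s).ord.ToType) → ((η : (#s).ord.ToType) → η < ξ → AddSubgroup K) →
      AddSubgroup K := fun ξ prev => stepN star {M | ∃ η, ∃ hη : η < ξ, prev η hη = M}
  let N : (#s).ord.ToType → AddSubgroup K :=
    WellFounded.fix (r := fun a b : (#s).ord.ToType => a < b) wellFounded_lt body
  have hNe : ∀ ξ, N ξ = stepN star (N '' Set.Iio ξ) := by
    intro ξ
    have h1 : N ξ = body ξ (fun η _ => N η) := WellFounded.fix_eq _ _ ξ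
    rw [h1]
    change stepN star {M | ∃ η, ∃ hη : η < ξ, N η = M} = _
    congr 1
    ext M
    constructor
    · rintro ⟨η, hη, rfl⟩
      exact ⟨η, hη, rfl⟩
    · rintro ⟨η, hη, rfl⟩
      exact ⟨η, hη, rfl⟩
  have hNa : ∀ ξ, Adm (N ξ) := fun ξ => by rw [hNe]; exact adm_stepN _ _
  refine ⟨N, ?_, hNa, fun ξ => ?_⟩
  · rw [Cardinal.mk_toType, card_ord]
  · have h1 : #(N '' Set.Iio ξ) < #s := by
      refine mk_image_le.trans_lt ?_
      simpa using mk_Iio_lt ξ
    have h2 : ¬ small (sInf (N '' Set.Iio ξ)) := by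
      intro hcon
      have h3 : #(N '' Set.Iio ξ) ∈ C := by
        refine ⟨N '' Set.Iio ξ, ?_, hcon, rfl⟩
        rintro _ ⟨η, _, rfl⟩
        exact hNa η
      have h4 := csInf_le' h3
      rw [← hs3] at h4
      exact absurd h1 (not_lt.mpr h4)
    have h5 := hS _ (by rintro _ ⟨η, _, rfl⟩; exact hNa η) h2
    have h6 := stepN_spec h5
    rwa [← hNe ξ] at h6

end

section dense

variable {K : Type u} [AddCommGroup K] [TopologicalSpace K] [CompactSpace K]
  [IsTopologicalAddGroup K] {G : Type u} [AddCommGroup G] (j : G →+ K)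

/-- every coset of an admissible subgroup meets the image of `G` -/
def AdmDense : Prop := ∀ N : AddSubgroup K, Adm N → ∀ x : K, ∃ g : G, j g - x ∈ N

theorem AdmDense.exists_family {j : G →+ K} (hj : AdmDense j) {Λ : Type u} [LinearOrder Λ]
    [WellFoundedLT Λ] (N : Λ → AddSubgroup K) (star : AddSubgroup K → AddSubgroup K)
    (hstar : ∀ M, M ≤ star M) (hN : ∀ ξ, Adm (N ξ))
    (hL : ∀ ξ, ¬ sInf (N '' Set.Iio ξ) ≤ star (N ξ)) :
    ∃ F : G → Λ → Bool, (∀ ξ g g', j (g - g') ∈ star (N ξ) → F g ξ = F g' ξ) ∧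
      ∀ A : Set Λ, A.Countable → ∀ g : Λ → Bool, ∃ x, ∀ ξ ∈ A, F x ξ = g ξ := by
  obtain ⟨F, hF1, hF2⟩ := chain_surjective N (fun ξ => star (N ξ)) (fun ξ => (hN ξ).isClosed)
    (fun ξ => hstar _) hL
  refine ⟨fun g => F (j g), fun ξ g g' h => hF1 ξ _ _ (by rwa [← map_sub]), fun A hA g => ?_⟩
  obtain ⟨x, hx⟩ := hF2 g
  obtain ⟨y, hy⟩ := hj (sInf (N '' A)) (Adm.sInf (hA.image N)
    (by rintro _ ⟨ξ, _, rfl⟩; exact hN ξ)) x
  refine ⟨y, fun ξ hξ => ?_⟩
  rw [← hx ξ]
  apply hF1
  apply hstar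
  rw [AddSubgroup.mem_sInf] at hy
  exact hy _ ⟨ξ, hξ, rfl⟩

/-- a code for the cosets of an intersection of admissible subgroups -/
lemma exists_code_sInf {s : Set (AddSubgroup K)} (hs : ∀ N ∈ s, Adm N) :
    ∃ f : K → (s → ℕ → ℕ), ∀ x y, f x = f y → x - y ∈ sInf s := by
  have h1 : ∀ N : s, ∃ f : K → (ℕ → ℕ), ∀ x y, f x = f y → x - y ∈ (N : AddSubgroup K) :=
    fun N => (hs N N.2).exists_code
  choose f hf using h1
  refine ⟨fun x N => f N x, fun x y hxy => ?_⟩
  rw [AddSubgroup.mem_sInf]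
  intro N hN
  exact hf ⟨N, hN⟩ x y (congrFun hxy ⟨N, hN⟩)

lemma mk_code_le {s : Type u} [Infinite s] : #(s → ℕ → ℕ) ≤ #(Set s) := by
  have h0 : ℵ₀ ≤ #s := aleph0_le_mk s
  rw [mk_set, mk_pi, prod_const, mk_pi, prod_const]
  simp only [mk_nat, lift_id, lift_uzero, lift_power, lift_aleph0]
  have h1 : (ℵ₀ ^ ℵ₀ : Cardinal.{u}) = 2 ^ (ℵ₀ : Cardinal.{u}) := by
    exact power_self_eq le_rfl
  rw [h1, ← power_mul, aleph0_mul_eq h0]

lemma mk_code_le' {s : Type u} [Countable s] : #(s → ℕ → ℕ) ≤ 𝔠 := by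
  have h0 : #s ≤ ℵ₀ := mk_le_aleph0
  rw [mk_pi, prod_const, mk_pi, prod_const]
  simp only [mk_nat, lift_id, lift_uzero, lift_power, lift_aleph0]
  have h1 : (ℵ₀ ^ ℵ₀ : Cardinal.{u}) = 2 ^ (ℵ₀ : Cardinal.{u}) := by
    exact power_self_eq le_rfl
  rw [h1]
  calc ((2 : Cardinal.{u}) ^ (ℵ₀ : Cardinal.{u})) ^ #s ≤ (2 ^ ℵ₀) ^ ℵ₀ :=
        power_le_power_left (power_ne_zero _ two_ne_zero) h0
    _ = 𝔠 := by
        rw [← power_mul, aleph0_mul_aleph0, two_power_aleph0]

end dense

end Pool.Agent.Lib.MP_dbf3d5_gt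
end

section

/-!
# Cardinal consequences
-/

open Set Filter Topology Cardinal

universe u v w

namespace Pool.Agent.Lib.MP_dbf3d5_gt

/-- countable case: a set of size at least continuum indexes all functions on a countable set -/
lemma OD_of_continuum_le {I : Type u} (h : 𝔠 ≤ #I) : OD I (ULift.{u} ℕ) Bool := by
  have h1 : OD (ULift.{u} ℕ → Bool) (ULift.{u} ℕ) Bool :=
    ⟨fun f => f, fun A _ g => ⟨g, fun _ _ => rfl⟩⟩
  apply h1.mono_left
  simpa using h

lemma continuum_le_mk_set_seq {S : Type u} [Infinite S] : 𝔠 ≤ #(Set (ℕ → S)) := by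
  rw [mk_set, ← two_power_aleph0]
  apply power_le_power_left two_ne_zero
  exact aleph0_le_mk _

lemma mk_set_le_mk_set_seq {S : Type u} : #(Set S) ≤ #(Set (ℕ → S)) := by
  rw [mk_set, mk_set]
  apply power_le_power_left two_ne_zero
  exact mk_le_of_injective (f := fun s : S => fun _ : ℕ => s) (fun a b h => congrFun h 0)

section

variable {K : Type u} [AddCommGroup K] [TopologicalSpace K] [CompactSpace K] [T2Space K]
  [IsTopologicalAddGroup K] {G : Type u} [AddCommGroup G] (j : G →+ K)

theorem caseA [Infinite G] {j : G →+ K} (hinj : Function.Injective j) (hj : AdmDense j) :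
    ∃ (S : Type u) (_ : Infinite S), OD G S Bool ∧ #G ≤ #(Set (ℕ → S)) := by
  have hall : sInf {N : AddSubgroup K | Adm N} = ⊥ := by
    rw [eq_bot_iff]
    intro x hx
    rw [AddSubgroup.mem_bot]
    by_contra hne
    obtain ⟨N, hN, hxN⟩ := exists_adm_notMem hne
    rw [AddSubgroup.mem_sInf] at hx
    exact hxN (hx N hN)
  obtain ⟨s, hs1, hs2, Λ, _, _, N, hN1, hN2, hN3⟩ := exists_chain (K := K) (fun N => N)
    (fun L => L = ⊥) ⟨_, fun N hN => hN, hall⟩ (by
      intro s _ hs
      rw [AddSubgroup.eq_bot_iff_forall] at hs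
      push Not at hs
      obtain ⟨x, hx1, hx2⟩ := hs
      obtain ⟨N, hN, hxN⟩ := exists_adm_notMem hx2
      exact ⟨N, hN, fun hcon => hxN (hcon hx1)⟩)
  obtain ⟨f, hf⟩ := exists_code_sInf hs1
  rw [hs2] at hf
  have hfinj : Function.Injective (fun g : G => f (j g)) := by
    intro g g' h
    have := hf _ _ h
    rw [AddSubgroup.mem_bot, sub_eq_zero] at this
    exact hinj this
  have hle := mk_le_of_injective hfinj
  by_cases hcount : Countable s
  · -- countable case
    have hadm : Adm (⊥ : AddSubgroup K) := by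
      rw [← hs2]
      exact Adm.sInf hcount hs1
    have hsurj : Function.Surjective j := by
      intro x
      obtain ⟨g, hg⟩ := hj ⊥ hadm x
      rw [AddSubgroup.mem_bot, sub_eq_zero] at hg
      exact ⟨g, hg⟩
    have hKinf : Infinite K := Infinite.of_injective j hinj
    have hint : interior ((⊥ : AddSubgroup K) : Set K) = ∅ := by
      by_contra hne
      rw [← ne_eq, ← nonempty_iff_ne_empty] at hne
      obtain ⟨x, hx⟩ := hne
      have hx0 : x = 0 := by
        have := interior_subset hx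
        simpa using this
      subst hx0
      have h1 : IsOpen ({0} : Set K) := by
        have h2 : interior ((⊥ : AddSubgroup K) : Set K) = {0} := by
          apply Subset.antisymm
          · intro y hy
            have := interior_subset hy
            simpa using this
          · rintro _ rfl
            exact hx
        rw [← h2]
        exact isOpen_interior
      have h3 : DiscreteTopology K := discreteTopology_of_isOpen_singleton_zero h1
      have h4 : Finite K := finite_of_compact_of_discrete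
      exact not_finite K
    obtain ⟨f', hf'⟩ := exists_cantor (K := K) (fun _ => ⊥) (fun _ _ _ => le_rfl)
      (fun _ => hadm.isClosed) (fun _ => hint)
    have hf'inj : Function.Injective f' := by
      intro a b hab
      by_contra hne
      exact hf' a b hne 0 (by rw [hab, sub_self]; exact zero_mem _)
    have hcG : 𝔠 ≤ #G := by
      have h5 : Function.Injective (fun a => Function.surjInv hsurj (f' a)) :=
        (Function.injective_surjInv hsurj).comp hf'inj
      have h6 := mk_le_of_injective (α := ULift.{u} (ℕ → Bool)) (β := G)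
        (f := fun a => Function.surjInv hsurj (f' a.down))
        (fun a b h => ULift.down_injective (h5 h))
      simpa using h6
    exact ⟨ULift.{u} ℕ, inferInstance, OD_of_continuum_le hcG,
      (hle.trans mk_code_le').trans continuum_le_mk_set_seq⟩
  · have hsinf : Infinite s := by
      by_contra hfin
      rw [not_infinite_iff_finite] at hfin
      exact hcount inferInstance
    have hΛinf : Infinite Λ := by
      rw [infinite_iff, hN1]
      exact aleph0_le_mk s
    obtain ⟨F, hF1, hF2⟩ := hj.exists_family N (fun N => N) (fun _ => le_rfl) hN2 hN3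
    refine ⟨Λ, hΛinf, ⟨F, hF2⟩, ?_⟩
    calc #G ≤ #(s → ℕ → ℕ) := hle
      _ ≤ #(Set s) := mk_code_le
      _ = #(Set Λ) := by rw [mk_set, mk_set, hN1]
      _ ≤ _ := mk_set_le_mk_set_seq

end

section rad

variable {K : Type u} [AddCommGroup K]

/-- the isolator of a subgroup -/
def rad (N : AddSubgroup K) : AddSubgroup K where
  carrier := {x | ∃ k : ℕ, k ≠ 0 ∧ k • x ∈ N}
  zero_mem' := ⟨1, one_ne_zero, by rw [smul_zero]; exact zero_mem _⟩
  neg_mem' := by
    rintro x ⟨k, hk, hx⟩
    exact ⟨k, hk, by rw [smul_neg]; exact neg_mem hx⟩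
  add_mem' := by
    rintro x y ⟨k, hk, hx⟩ ⟨l, hl, hy⟩
    refine ⟨k * l, mul_ne_zero hk hl, ?_⟩
    rw [smul_add]
    refine add_mem ?_ ?_
    · rw [mul_comm, mul_smul]
      exact nsmul_mem hx l
    · rw [mul_smul]
      exact nsmul_mem hy k

lemma mem_rad {N : AddSubgroup K} {x : K} : x ∈ rad N ↔ ∃ k : ℕ, k ≠ 0 ∧ k • x ∈ N := Iff.rfl

lemma le_rad (N : AddSubgroup K) : N ≤ rad N := fun x hx => ⟨1, one_ne_zero, by rwa [one_smul]⟩

variable [TopologicalSpace K] [IsTopologicalAddGroup K] [CompactSpace K]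

lemma exists_nsmul_mem_of_interior (M : AddSubgroup K) (h : (interior (M : Set K)).Nonempty) :
    ∃ m : ℕ, m ≠ 0 ∧ ∀ x : K, m • x ∈ M := by
  obtain ⟨x, hx⟩ := h
  have h1 : IsOpen (M : Set K) := AddSubgroup.isOpen_of_mem_nhds M (mem_interior_iff_mem_nhds.mp hx)
  have h2 : Finite (K ⧸ M) := AddSubgroup.quotient_finite_of_isOpen M h1
  refine ⟨Nat.card (K ⧸ M), Nat.card_pos.ne', fun y => ?_⟩
  have h3 : Nat.card (K ⧸ M) • (QuotientAddGroup.mk y : K ⧸ M) = 0 := by
    exact card_nsmul_eq_zero'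
  rw [← QuotientAddGroup.mk_nsmul, QuotientAddGroup.eq_zero_iff] at h3
  exact h3

lemma small_of_forall [T2Space K] {L : AddSubgroup K} (hL : IsClosed (L : Set K))
    (h : ∀ N, Adm N → L ≤ rad N) : ∃ k : ℕ, k ≠ 0 ∧ ∀ x ∈ L, k • x = 0 := by
  by_contra hcon
  push Not at hcon
  have h1 : ∀ k : ℕ, ∃ N : AddSubgroup K, Adm N ∧ ∃ x ∈ L, (k + 1) • x ∉ N := by
    intro k
    obtain ⟨x, hx1, hx2⟩ := hcon (k + 1) (by omega)
    obtain ⟨N, hN, hxN⟩ := exists_adm_notMem hx2
    exact ⟨N, hN, x, hx1, hxN⟩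
  choose N hN x hx1 hx2 using h1
  have hadm : Adm (⨅ k, N k) := Adm.iInf hN
  have hLN := h _ hadm
  have hcomp : CompactSpace L := isCompact_iff_compactSpace.mp hL.isCompact
  let M : ℕ → AddSubgroup L := fun k =>
    ((⨅ k, N k).comap (nsmulAddMonoidHom (k + 1))).comap L.subtype
  have hMcl : ∀ k, IsClosed (M k : Set L) := by
    intro k
    have hc : Continuous (fun y : L => (k + 1) • (y : K)) := by fun_prop
    exact hadm.isClosed.preimage hc
  have hMU : ⋃ k, (M k : Set L) = Set.univ := by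
    rw [eq_univ_iff_forall]
    intro y
    obtain ⟨k, hk, hky⟩ := hLN y.2
    rw [mem_iUnion]
    obtain ⟨k, rfl⟩ := Nat.exists_eq_succ_of_ne_zero hk
    exact ⟨k, hky⟩
  obtain ⟨k, hk⟩ := nonempty_interior_of_iUnion_of_closed hMcl hMU
  obtain ⟨m, hm, hmM⟩ := exists_nsmul_mem_of_interior (M k) hk
  obtain ⟨l, hl⟩ := Nat.exists_eq_succ_of_ne_zero (mul_ne_zero (Nat.succ_ne_zero k) hm)
  have h2 : (k + 1) • (m • x l) ∈ ⨅ k, N k := hmM ⟨x l, hx1 l⟩
  rw [← mul_smul] at h2
  change (k + 1) * m = l + 1 at hl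
  rw [hl] at h2
  exact hx2 l ((iInf_le N l) h2)

end rad

section

variable {K : Type u} [AddCommGroup K] [TopologicalSpace K] [CompactSpace K] [T2Space K]
  [IsTopologicalAddGroup K] {G : Type u} [AddCommGroup G]

theorem caseB {j : G →+ K} (hinj : Function.Injective j) (hj : AdmDense j) :
    (∃ m : ℕ, m ≠ 0 ∧ ∀ g : G, m • g = 0) ∨
    (∃ m : ℕ, m ≠ 0 ∧ ∃ (S : Type u) (_ : Infinite S) (F : G → S → Bool),
      (∀ g g', g - g' ∈ rad (⊥ : AddSubgroup G) → F g = F g') ∧
      (∀ A : Set S, A.Countable → ∀ h : S → Bool, ∃ g, ∀ ξ ∈ A, F g ξ = h ξ) ∧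
      #((nsmulAddMonoidHom m : G →+ G).range) ≤ #(Set (ℕ → S))) := by
  have hall : sInf {N : AddSubgroup K | Adm N} = ⊥ := by
    rw [eq_bot_iff]
    intro x hx
    rw [AddSubgroup.mem_bot]
    by_contra hne
    obtain ⟨N, hN, hxN⟩ := exists_adm_notMem hne
    rw [AddSubgroup.mem_sInf] at hx
    exact hxN (hx N hN)
  obtain ⟨s, hs1, ⟨m, hm, hs2⟩, Λ, _, _, N, hN1, hN2, hN3⟩ := exists_chain (K := K) rad
    (fun L => ∃ k : ℕ, k ≠ 0 ∧ ∀ x ∈ L, k • x = 0)
    ⟨{N : AddSubgroup K | Adm N}, fun N hN => hN, 1, one_ne_zero, fun x hx => by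
      rw [hall, AddSubgroup.mem_bot] at hx
      rw [hx, smul_zero]⟩ (by
      intro s hs1 hs
      by_contra hcon
      push Not at hcon
      apply hs
      refine small_of_forall ?_ hcon
      rw [AddSubgroup.coe_sInf]
      exact isClosed_biInter (fun N hN => (hs1 N hN).isClosed))
  obtain ⟨f, hf⟩ := exists_code_sInf hs1
  have hle : #((nsmulAddMonoidHom m : G →+ G).range) ≤ #(s → ℕ → ℕ) := by
    have h1 : ∀ y : (nsmulAddMonoidHom m : G →+ G).range, ∃ g : G, m • g = y := by
      rintro ⟨y, g, hg⟩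
      exact ⟨g, hg⟩
    choose r hr using h1
    apply mk_le_of_injective (f := fun y => f (j (r y)))
    intro y y' h
    have h2 := hs2 _ (hf _ _ h)
    rw [← map_sub, ← map_nsmul, smul_sub, hr, hr] at h2
    have h3 := (map_eq_zero_iff j hinj).mp h2
    exact Subtype.ext (sub_eq_zero.mp h3)
  by_cases hcount : Countable s
  · -- countable case
    by_cases hb : ∃ m : ℕ, m ≠ 0 ∧ ∀ g : G, m • g = 0
    · exact Or.inl hb
    right
    have hadm : Adm (sInf s) := Adm.sInf hcount hs1
    let M : ℕ → AddSubgroup K := fun k => (sInf s).comap (nsmulAddMonoidHom k.factorial)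
    have hM : ∀ k x, x ∈ M k ↔ k.factorial • x ∈ sInf s := fun k x => Iff.rfl
    have hMmono : Monotone M := by
      intro a b hab x hx
      rw [hM] at hx ⊢
      obtain ⟨c, hc⟩ := Nat.factorial_dvd_factorial hab
      rw [hc, mul_comm, mul_smul]
      exact nsmul_mem hx c
    have hMcl : ∀ k, IsClosed (M k : Set K) := by
      intro k
      have hc : Continuous (fun y : K => k.factorial • y) := by fun_prop
      exact hadm.isClosed.preimage hc
    have hint : ∀ k, interior (M k : Set K) = ∅ := by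
      intro k
      by_contra hne
      rw [← ne_eq, ← nonempty_iff_ne_empty] at hne
      obtain ⟨m', hm', hmM⟩ := exists_nsmul_mem_of_interior (M k) hne
      apply hb
      refine ⟨m * (k.factorial * m'), mul_ne_zero hm (mul_ne_zero (Nat.factorial_ne_zero k) hm'),
        fun g => hinj ?_⟩
      rw [map_zero, map_nsmul, mul_smul, mul_smul]
      exact hs2 _ ((hM k _).mp (hmM (j g)))
    obtain ⟨f', hf'⟩ := exists_cantor M hMmono hMcl hint
    choose r hr using fun a => hj (sInf s) hadm (f' a)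
    have hrinj : Function.Injective
        (fun a => (QuotientAddGroup.mk (r a) : G ⧸ rad (⊥ : AddSubgroup G))) := by
      intro a b hab
      by_contra hne
      rw [QuotientAddGroup.eq] at hab
      obtain ⟨k, hk, hab⟩ := hab
      rw [AddSubgroup.mem_bot] at hab
      refine hf' a b hne k ?_
      rw [hM]
      have h1 : k.factorial • (r a - r b) = 0 := by
        obtain ⟨c, hc⟩ := Nat.dvd_factorial (Nat.pos_of_ne_zero hk) le_rfl
        have h2 : k • (r a - r b) = 0 := by
          rw [← neg_eq_zero, ← smul_neg]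
          rw [← hab]
          congr 1
          abel
        rw [hc, mul_comm, mul_smul, h2, smul_zero]
      have h3 : k.factorial • (f' a - f' b) = k.factorial • (j (r b) - f' b)
          - k.factorial • (j (r a) - f' a) + j (k.factorial • (r a - r b)) := by
        rw [map_nsmul, map_sub, smul_sub, smul_sub, smul_sub, smul_sub]
        abel
      rw [h3, h1, map_zero, add_zero]
      exact sub_mem (nsmul_mem (hr b) _) (nsmul_mem (hr a) _)
    refine ⟨m, hm, ULift.{u} ℕ, inferInstance, fun g ξ => Function.invFun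
      (fun a => (QuotientAddGroup.mk (r a) : G ⧸ rad (⊥ : AddSubgroup G)))
        (QuotientAddGroup.mk g) ξ.down, ?_, ?_, ?_⟩
    · intro g g' h
      have h1 : (QuotientAddGroup.mk g : G ⧸ rad (⊥ : AddSubgroup G)) = QuotientAddGroup.mk g' := by
        rw [QuotientAddGroup.eq]
        have := neg_mem h
        rwa [neg_sub, sub_eq_neg_add] at this
      beta_reduce
      rw [h1]
    · intro A _ h
      refine ⟨r (fun n => h ⟨n⟩), fun ξ _ => ?_⟩
      beta_reduce
      rw [Function.leftInverse_invFun hrinj (fun n => h ⟨n⟩)]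
    · exact (hle.trans mk_code_le').trans continuum_le_mk_set_seq
  · right
    have hsinf : Infinite s := by
      by_contra hfin
      rw [not_infinite_iff_finite] at hfin
      exact hcount inferInstance
    have hΛinf : Infinite Λ := by
      rw [infinite_iff, hN1]
      exact aleph0_le_mk s
    obtain ⟨F, hF1, hF2⟩ := hj.exists_family N rad le_rad hN2 hN3
    refine ⟨m, hm, Λ, hΛinf, F, ?_, hF2, ?_⟩
    · rintro g g' ⟨k, hk, hgg'⟩
      funext ξ
      apply hF1
      refine ⟨k, hk, ?_⟩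
      rw [AddSubgroup.mem_bot] at hgg'
      rw [← map_nsmul, hgg', map_zero]
      exact zero_mem _
    · calc #((nsmulAddMonoidHom m : G →+ G).range) ≤ #(s → ℕ → ℕ) := hle
        _ ≤ #(Set s) := mk_code_le
        _ = #(Set Λ) := by rw [mk_set, mk_set, hN1]
        _ ≤ _ := mk_set_le_mk_set_seq

end

end Pool.Agent.Lib.MP_dbf3d5_gt
end
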