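import Mathlib

/-!
# Strongly `p`-pseudocompact spaces
-/

open Filter Topology

universe u

namespace Pool.Agent.Lib.MP_dbf3d5_gt

/-- `p` is a free ultrafilter on `ℕ`: it contains no singleton. -/
def Free (p : Ultrafilter ℕ) : Prop := ∀ n : ℕ, {n} ∉ p

/-- The point `a` is a `p`-limit of the sequence `x`. -/
def IsPLimit {X : Type u} [TopologicalSpace X] (p : Ultrafilter ℕ) (x : ℕ → X) (a : X) : Prop :=
  ∀ V ∈ 𝓝 a, {n | x n ∈ V} ∈ p

/-- `X` is strongly `p`-pseudocompact: for every sequence of nonempty open sets one can choose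
points in them so that the resulting sequence has a `p`-limit in `X`. -/
def StronglyPseudocompactAt (p : Ultrafilter ℕ) (X : Type u) [TopologicalSpace X] : Prop :=
  ∀ U : ℕ → Set X, (∀ n, IsOpen (U n)) → (∀ n, (U n).Nonempty) →
    ∃ x : ℕ → X, (∀ n, x n ∈ U n) ∧ ∃ a, IsPLimit p x a

/-- `X` contains a nontrivial convergent sequence: a sequence of pairwise distinct points
converging to a point of `X`. -/
def HasNontrivialConvergentSequence (X : Type u) [TopologicalSpace X] : Prop :=
  ∃ (x : ℕ → X) (a : X), Function.Injective x ∧ Tendsto x atTop (𝓝 a)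

end Pool.Agent.Lib.MP_dbf3d5_gt
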