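import Pool.Agent.Lib.MP_dbf3d5_gt.Rich
import Pool.Agent.Lib.MP_dbf3d5_gt.Defs
import Pool.Agent.Lib.MP_dbf3d5_gt.Cases

section

/-!
# Choosing a member of the ultrafilter
-/

open Set Filter Topology

universe u v w

namespace Pool.Agent.Lib.MP_dbf3d5_gt


lemma Free.compl_mem {q : Ultrafilter ℕ} (hq : Free q) {s : Set ℕ} (hs : s.Finite) : sᶜ ∈ q := by
  rw [Ultrafilter.compl_mem_iff_notMem]
  intro h
  obtain ⟨n, _, hn⟩ := (Ultrafilter.finite_biUnion_mem_iff (f := q) hs
    (s := fun n => ({n} : Set ℕ))).mp (by simpa using h)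
  exact hq n hn

lemma exists_infinite_subset_notMem (q : Ultrafilter ℕ) {W : Set ℕ} (hW : W.Infinite) :
    ∃ Z ⊆ W, Z.Infinite ∧ Z ∉ q := by
  have f := hW.natEmbedding
  set Z : ℕ → Set ℕ := fun i => range (fun k : ℕ => (f (2 * k + i) : ℕ)) with hZ
  have hinj : ∀ i, Function.Injective (fun k : ℕ => (f (2 * k + i) : ℕ)) := by
    intro i k l hkl
    have := f.injective (Subtype.ext hkl)
    omega
  have hsub : ∀ i, Z i ⊆ W := by
    rintro i _ ⟨k, rfl⟩
    exact (f (2 * k + i)).2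
  have hinf : ∀ i, (Z i).Infinite := fun i => infinite_range_of_injective (hinj i)
  by_cases h0 : Z 0 ∈ q
  · refine ⟨Z 1, hsub 1, hinf 1, fun h1 => ?_⟩
    have h2 : Z 0 ∩ Z 1 ∈ q := inter_mem h0 h1
    have h3 : Z 0 ∩ Z 1 = ∅ := by
      rw [Set.eq_empty_iff_forall_notMem]
      rintro _ ⟨⟨k, rfl⟩, ⟨l, hl⟩⟩
      have := f.injective (Subtype.ext hl)
      omega
    rw [h3] at h2
    exact Ultrafilter.empty_notMem h2
  · exact ⟨Z 0, hsub 0, hinf 0, h0⟩

section rho

variable {J : Type u} {R : Type v} [AddCommGroup R]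

open Classical in
/-- the retraction of the index set -/
noncomputable def rr (P : Set ℕ) (x : J × Option ℕ) : J × Option ℕ :=
  if ∃ k ∈ P, x.2 = some k then (x.1, none) else x

lemma rr_none (P : Set ℕ) (j : J) : rr P (j, none) = (j, none) := by
  unfold rr
  split_ifs <;> rfl

lemma rr_mem {P : Set ℕ} {k : ℕ} (hk : k ∈ P) (j : J) : rr P (j, some k) = (j, none) := by
  unfold rr
  rw [if_pos ⟨k, hk, rfl⟩]

lemma rr_notMem {P : Set ℕ} {k : ℕ} (hk : k ∉ P) (j : J) : rr P (j, some k) = (j, some k) := by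
  unfold rr
  rw [if_neg]
  rintro ⟨k', hk', h⟩
  simp only [Option.some.injEq] at h
  exact hk (h ▸ hk')

lemma rr_eq_some {P : Set ℕ} {k : ℕ} {j : J} {x : J × Option ℕ} (h : rr P x = (j, some k)) :
    x = (j, some k) := by
  unfold rr at h
  split_ifs at h with h'
  · simp at h
  · exact h

lemma mapDomain_rr {P : Set ℕ} {k : ℕ} (hk : k ∉ P) (j : J) (v : (J × Option ℕ) →₀ R) :
    Finsupp.mapDomain (rr P) v (j, some k) = v (j, some k) := by
  classical
  induction v using Finsupp.induction_linear with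
  | zero => simp
  | add f g hf hg => rw [Finsupp.mapDomain_add, Finsupp.add_apply, Finsupp.add_apply, hf, hg]
  | single x r =>
    rw [Finsupp.mapDomain_single, Finsupp.single_apply, Finsupp.single_apply]
    by_cases hx : x = (j, some k)
    · rw [hx, rr_notMem hk]
    · rw [if_neg hx, if_neg (fun h => hx (rr_eq_some h))]

theorem exists_good_set {q : Ultrafilter ℕ} (hq : Free q) (a : ℕ → ((J × Option ℕ) →₀ R))
    (ha : Function.Injective a) :
    ∃ P ∈ q, NEC (fun m => Finsupp.mapDomain (rr P) (a m)) := by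
  classical
  set K : ℕ → Set ℕ := fun m => {k | ∃ j, a m (j, some k) ≠ 0} with hK
  have hKfin : ∀ m, (K m).Finite := by
    intro m
    have h1 : K m ⊆ (fun x : J × Option ℕ => x.2.getD 0) '' ((a m).support : Set (J × Option ℕ)) := by
      rintro k ⟨j, hj⟩
      exact ⟨(j, some k), by simpa using hj, rfl⟩
    exact ((a m).support.finite_toSet.image _).subset h1
  set W : Set ℕ := ⋃ m, K m with hW
  by_cases hWf : W.Finite
  · refine ⟨Wᶜ, hq.compl_mem hWf, ?_⟩
    have h1 : ∀ m, Finsupp.mapDomain (rr Wᶜ) (a m) = a m := by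
      intro m
      have h2 : Finsupp.mapDomain (rr Wᶜ) (a m) = Finsupp.mapDomain id (a m) := by
        apply Finsupp.mapDomain_congr
        rintro ⟨j, k⟩ hx
        cases k with
        | none => exact rr_none _ _
        | some k =>
          apply rr_notMem
          rw [notMem_compl_iff, hW, mem_iUnion]
          exact ⟨m, j, by simpa using hx⟩
      rw [h2, Finsupp.mapDomain_id]
    rintro ⟨N, hN⟩
    have h3 := hN (N + 1) (by omega)
    simp only [h1] at h3
    have := ha h3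
    omega
  · obtain ⟨Z, hZW, hZi, hZq⟩ := exists_infinite_subset_notMem q hWf
    refine ⟨Zᶜ, Ultrafilter.compl_mem_iff_notMem.mpr hZq, ?_⟩
    rintro ⟨N, hN⟩
    have hfin : (⋃ l ∈ Finset.range (N + 1), K l).Finite :=
      Set.Finite.biUnion (Finset.finite_toSet _) (fun l _ => hKfin l)
    obtain ⟨k, hkZ, hk⟩ := (hZi.sdiff hfin).nonempty
    obtain ⟨m, j, hj⟩ := mem_iUnion.mp (hZW hkZ)
    have hkN : ∀ l ≤ N, k ∉ K l := by
      intro l hl hkl
      apply hk
      rw [mem_iUnion₂]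
      exact ⟨l, Finset.mem_range.mpr (by omega), hkl⟩
    have hmN : N ≤ m := by
      by_contra h
      exact hkN m (by omega) ⟨j, hj⟩
    have h4 := DFunLike.congr_fun (hN m hmN) (j, some k)
    beta_reduce at h4
    rw [mapDomain_rr (by rwa [notMem_compl_iff]), mapDomain_rr (by rwa [notMem_compl_iff])] at h4
    apply hj
    rw [h4]
    by_contra h5
    exact hkN N le_rfl ⟨j, h5⟩

/-- For a single nonzero element. -/
theorem exists_good_set' {q : Ultrafilter ℕ} (hq : Free q) (a : (J × Option ℕ) →₀ R) :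
    ∃ P ∈ q, Finsupp.mapDomain (rr P) a = a := by
  classical
  set K : Set ℕ := {k | ∃ j, a (j, some k) ≠ 0} with hK
  have hKfin : K.Finite := by
    have h1 : K ⊆ (fun x : J × Option ℕ => x.2.getD 0) '' (a.support : Set (J × Option ℕ)) := by
      rintro k ⟨j, hj⟩
      exact ⟨(j, some k), by simpa using hj, rfl⟩
    exact (a.support.finite_toSet.image _).subset h1
  refine ⟨Kᶜ, hq.compl_mem hKfin, ?_⟩
  have h2 : Finsupp.mapDomain (rr Kᶜ) a = Finsupp.mapDomain id a := by
    apply Finsupp.mapDomain_congr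
    rintro ⟨j, k⟩ hx
    cases k with
    | none => exact rr_none _ _
    | some k =>
      apply rr_notMem
      rw [notMem_compl_iff]
      exact ⟨j, by simpa using hx⟩
  rw [h2, Finsupp.mapDomain_id]

end rho

end Pool.Agent.Lib.MP_dbf3d5_gt
end

section

/-!
# Group topologies given by families of homomorphisms into the circle
-/

open Set Filter Topology Cardinal

universe u v w

namespace Pool.Agent.Lib.MP_dbf3d5_gt

/-- `G` has a Hausdorff group topology which is strongly `q`-pseudocompact and has no nontrivial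
convergent sequences. -/
def Good (q : Ultrafilter ℕ) (G : Type u) [AddCommGroup G] : Prop :=
  ∃ t : TopologicalSpace G, IsTopologicalAddGroup G ∧ T2Space G ∧ StronglyPseudocompactAt q G ∧
    ¬ HasNontrivialConvergentSequence G

theorem good_of_family {q : Ultrafilter ℕ} {G : Type u} [AddCommGroup G] {Ξ : Type v}
    (φ : Ξ → (G →+ T)) (hsep : ∀ g, g ≠ 0 → ∃ c, φ c g ≠ 0)
    (hnc : ∀ y : ℕ → G, Function.Injective y → ∃ c, ¬ Conv (fun m => φ c (y m)))
    (hpsc : ∀ C : Set Ξ, C.Countable → ∀ g : ℕ → G, ∃ (x : ℕ → G) (a : G),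
      (∀ c ∈ C, ∀ m, φ c (x m) = φ c (g m)) ∧
      ∀ c, Tendsto (fun m => φ c (x m)) q (𝓝 (φ c a))) : Good q G := by
  set Φ : G →+ (Ξ → T) := AddMonoidHom.pi φ with hΦ
  have hΦa : ∀ g c, Φ g c = φ c g := fun g c => rfl
  set t : TopologicalSpace G := TopologicalSpace.induced Φ inferInstance with ht
  have hind : IsInducing Φ := ⟨rfl⟩
  have hinj : Function.Injective Φ := by
    rw [injective_iff_map_eq_zero]
    intro g hg
    by_contra hne
    obtain ⟨c, hc⟩ := hsep g hne
    exact hc (by rw [← hΦa, hg]; rfl)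
  have hgrp : IsTopologicalAddGroup G := topologicalAddGroup_induced Φ
  have ht2 : T2Space G := (IsEmbedding.mk hind hinj).t2Space
  have htend : ∀ (l : Filter ℕ) (x : ℕ → G) (a : G),
      Tendsto x l (𝓝 a) ↔ ∀ c, Tendsto (fun m => φ c (x m)) l (𝓝 (φ c a)) := by
    intro l x a
    rw [hind.tendsto_nhds_iff, tendsto_pi_nhds]
    rfl
  refine ⟨t, hgrp, ht2, ?_, ?_⟩
  · intro U hU hne
    choose g hg using hne
    have h1 : ∀ m, ∃ C : Finset Ξ, ∀ z, (∀ c ∈ C, φ c z = φ c (g m)) → z ∈ U m := by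
      intro m
      obtain ⟨O, hO, hOU⟩ := isOpen_induced_iff.mp (hU m)
      have h2 : Φ (g m) ∈ O := by
        have := hg m
        rw [← hOU] at this
        exact this
      obtain ⟨C, u, hu, hsub⟩ := isOpen_pi_iff.mp hO _ h2
      refine ⟨C, fun z hz => ?_⟩
      rw [← hOU]
      apply hsub
      intro c hc
      change φ c z ∈ u c
      rw [hz c hc]
      exact (hu c hc).2
    choose C hC using h1
    obtain ⟨x, a, hx, ha⟩ := hpsc (⋃ m, (C m : Set Ξ))
      (countable_iUnion (fun m => (C m).countable_toSet)) g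
    refine ⟨x, fun m => hC m _ (fun c hc => hx c (mem_iUnion.mpr ⟨m, hc⟩) m), a, ?_⟩
    have h3 : Tendsto x q (𝓝 a) := (htend q x a).mpr ha
    intro V hV
    exact h3 hV
  · rintro ⟨x, a, hx, ha⟩
    obtain ⟨c, hc⟩ := hnc x hx
    exact hc ⟨_, (htend atTop x a).mp ha c⟩

end Pool.Agent.Lib.MP_dbf3d5_gt
end

section

/-!
# Independent families
-/

open Set Filter Topology Cardinal

universe u v w

namespace Pool.Agent.Lib.MP_dbf3d5_gt

theorem exists_indep {G : Type u} [AddCommGroup G] {S : Type u} [Infinite S] (F : G → S → Bool)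
    (hF1 : ∀ g g', g - g' ∈ rad (⊥ : AddSubgroup G) → F g = F g')
    (hF2 : ∀ A : Set S, A.Countable → ∀ h : S → Bool, ∃ g, ∀ ξ ∈ A, F g ξ = h ξ) :
    ∃ (I : Type u) (ℓ : (I →₀ ℤ) →+ G), Function.Injective ℓ ∧ OD I S Bool := by
  classical
  obtain ⟨I, hI, hmax⟩ := exists_maximal_linearIndepOn ℤ (id : G → G)
  have h1 : ∀ g : G, ∃ (a : ℤ) (v : I →₀ ℤ), a ≠ 0 ∧
      a • g = Finsupp.linearCombination ℤ (fun i : I => (i : G)) v := by
    intro g
    by_cases hg : g ∈ I
    · exact ⟨1, Finsupp.single ⟨g, hg⟩ 1, one_ne_zero, by simp⟩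
    · obtain ⟨a, ha, hag⟩ := hmax g hg
      rw [id, image_id, Finsupp.mem_span_iff_linearCombination] at hag
      obtain ⟨v, hv⟩ := hag
      exact ⟨a, v, ha, hv.symm⟩
  choose a v ha hav using h1
  have hOD : OD (ℤ × (I →₀ ℤ)) S Bool := by
    refine ⟨fun c => if h : ∃ g, (a g, v g) = c then F h.choose else fun _ => false,
      fun A hA h => ?_⟩
    obtain ⟨g, hg⟩ := hF2 A hA h
    refine ⟨(a g, v g), fun ξ hξ => ?_⟩
    have h2 : ∃ g', (a g', v g') = (a g, v g) := ⟨g, rfl⟩
    beta_reduce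
    rw [dif_pos h2, ← hg ξ hξ]
    have h3 := h2.choose_spec
    rw [Prod.mk.injEq] at h3
    have h4 : F h2.choose = F g := by
      apply hF1
      generalize h2.choose = g' at h3
      obtain ⟨h3a, h3v⟩ := h3
      refine ⟨(a g).natAbs, Int.natAbs_ne_zero.mpr (ha g), ?_⟩
      rw [AddSubgroup.mem_bot]
      have h5 : (a g) • (g' - g) = 0 := by
        have h6 := hav g'
        rw [h3a, h3v] at h6
        rw [smul_sub, hav g, h6, sub_self]
      rw [← natCast_zsmul, ← Int.abs_eq_natAbs]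
      rcases abs_choice (a g) with h6 | h6
      · rw [h6, h5]
      · rw [h6, neg_smul, h5, neg_zero]
    rw [h4]
  have hc := hOD.continuum_le
  have hIinf : Infinite I := by
    by_contra hfin
    rw [not_infinite_iff_finite] at hfin
    have h2 : Countable (ℤ × (I →₀ ℤ)) := inferInstance
    have h3 : #(ℤ × (I →₀ ℤ)) ≤ ℵ₀ := mk_le_aleph0
    exact absurd (hc.trans h3) (not_le.mpr aleph0_lt_continuum)
  refine ⟨I, (Finsupp.linearCombination ℤ (fun i : I => (i : G))).toAddMonoidHom, ?_, ?_⟩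
  · have := hI.linearIndependent
    exact this
  · apply hOD.mono_left
    have h2 : #(I →₀ ℤ) = #I := by
      rw [mk_finsupp_lift_of_infinite]
      simp
    rw [lift_id, lift_id, mk_prod, h2]
    simp

end Pool.Agent.Lib.MP_dbf3d5_gt
end

section

/-!
# The main construction
-/

open Set Filter Topology Cardinal

universe u v w

namespace Pool.Agent.Lib.MP_dbf3d5_gt

/-- the `n`-torsion of the circle -/
abbrev Tn (n : ℕ) : Type := {t : T // n • t = 0}

lemma exists_qlim (q : Ultrafilter ℕ) {n : ℕ} (x : ℕ → Tn n) :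
    ∃ t : Tn n, Tendsto (fun k => (x k : T)) q (𝓝 (t : T)) := by
  obtain ⟨t, _, ht⟩ := isCompact_univ.ultrafilter_le_nhds (q.map (fun k => (x k : T)))
    (by simp)
  have h1 : Tendsto (fun k => (x k : T)) q (𝓝 t) := ht
  have h2 : IsClosed {t : T | n • t = 0} := isClosed_eq (continuous_nsmul n) continuous_const
  exact ⟨⟨t, h2.mem_of_tendsto h1 (Eventually.of_forall (fun k => (x k).2))⟩, h1⟩

/-- the `q`-limit -/
noncomputable def qlim (q : Ultrafilter ℕ) {n : ℕ} (x : ℕ → Tn n) : Tn n :=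
  (exists_qlim q x).choose

lemma qlim_spec (q : Ultrafilter ℕ) {n : ℕ} (x : ℕ → Tn n) :
    Tendsto (fun k => (x k : T)) q (𝓝 (qlim q x : T)) := (exists_qlim q x).choose_spec

lemma qlim_eq {q : Ultrafilter ℕ} {n : ℕ} {x : ℕ → Tn n} {t : T} {P : Set ℕ} (hP : P ∈ q)
    (h : ∀ k ∈ P, (x k : T) = t) : (qlim q x : T) = t := by
  refine tendsto_nhds_unique (qlim_spec q x) ?_
  refine tendsto_const_nhds.congr' ?_
  filter_upwards [hP] with k hk
  exact (h k hk).symm

section endo

variable {n : ℕ} {θ : T} (hθ : addOrderOf θ = n)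

open Classical in
/-- an endomorphism of the circle with prescribed value at `θ` -/
noncomputable def endo (t : Tn n) : T →+ T :=
  if (t : T) = 0 then 0 else (exists_endo hθ t.1 t.2).choose

lemma endo_theta (t : Tn n) : endo hθ t θ = t := by
  unfold endo
  split_ifs with h
  · rw [h]; rfl
  · exact (exists_endo hθ t.1 t.2).choose_spec

lemma endo_zero {t : Tn n} (h : (t : T) = 0) : endo hθ t = 0 := if_pos h

end endo

section mat

variable {n : ℕ} {J : Type v} {L : Type} [LinearOrder L] {S : Type w}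
  (q : Ultrafilter ℕ) (lev : J → L) (M1 : J → (S × S × L) → (ℕ → Tn n)) (M2 : S → (J × ℕ) → Tn n)

open Classical in
/-- the rows of the matrix -/
noncomputable def Mk (j : J) (c : S × S × L) : ℕ → Tn n :=
  fun k => if c.2.2 < lev j then M1 j c k else M2 c.2.1 (j, k)

/-- the matrix -/
noncomputable def Mat (x : J × Option ℕ) (c : S × S × L) : Tn n :=
  match x.2 with
  | some k => Mk lev M1 M2 x.1 c k
  | none => qlim q (Mk lev M1 M2 x.1 c)

lemma Mat_some (j : J) (k : ℕ) (c : S × S × L) :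
    Mat q lev M1 M2 (j, some k) c = Mk lev M1 M2 j c k := rfl

lemma Mat_none (j : J) (c : S × S × L) :
    Mat q lev M1 M2 (j, none) c = qlim q (Mk lev M1 M2 j c) := rfl

lemma Mk_lt {j : J} {c : S × S × L} (h : c.2.2 < lev j) : Mk lev M1 M2 j c = M1 j c := by
  funext k
  exact if_pos h

lemma Mk_ge {j : J} {c : S × S × L} (h : ¬ c.2.2 < lev j) (k : ℕ) :
    Mk lev M1 M2 j c k = M2 c.2.1 (j, k) := if_neg h

variable {θ : T} (hθ : addOrderOf θ = n)

/-- the homomorphism on finitely supported functions -/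
noncomputable def UU (c : S × S × L) : ((J × Option ℕ) →₀ T) →+ T :=
  Finsupp.liftAddHom (fun x => endo hθ (Mat q lev M1 M2 x c))

lemma UU_kap {c : S × S × L} {h : ((J × Option ℕ) →₀ ZMod n) →+ T}
    {v : (J × Option ℕ) →₀ ZMod n}
    (hv : ∀ x ∈ v.support, (Mat q lev M1 M2 x c : T) = h (Finsupp.single x 1)) :
    UU q lev M1 M2 hθ c (kap _ hθ v) = h v := by
  unfold UU kap
  rw [Finsupp.mapRange.addMonoidHom_apply, Finsupp.liftAddHom_apply, Finsupp.sum_mapRange_index]
  · conv_rhs => rw [← Finsupp.sum_single v, map_finsuppSum]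
    apply Finsupp.sum_congr
    intro x hx
    have h1 : (endo hθ (Mat q lev M1 M2 x c)).comp
        (zm n θ (by rw [← hθ]; exact addOrderOf_nsmul_eq_zero θ)) =
        h.comp (Finsupp.singleAddHom x) := by
      apply zmod_hom_ext
      rw [AddMonoidHom.comp_apply, AddMonoidHom.comp_apply, zm_one, endo_theta, hv x hx]
      rfl
    exact DFunLike.congr_fun h1 (v x)
  · intro x
    rw [map_zero]

lemma UU_zero {c : S × S × L} {v : (J × Option ℕ) →₀ T}
    (hv : ∀ x ∈ v.support, (Mat q lev M1 M2 x c : T) = 0) :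
    UU q lev M1 M2 hθ c v = 0 := by
  unfold UU
  rw [Finsupp.liftAddHom_apply]
  apply Finset.sum_eq_zero
  intro x hx
  beta_reduce
  rw [endo_zero hθ (hv x hx)]
  rfl

end mat

theorem good_core {q : Ultrafilter ℕ} (hq : Free q) {n : ℕ} {G : Type u} [AddCommGroup G]
    (hG : ∀ g : G, n • g = 0) {J : Type v} {L : Type} [LinearOrder L] {S : Type w}
    (ℓ : ((J × Option ℕ) →₀ ZMod n) →+ G) (hℓ : Function.Injective ℓ) (lev : J → L)
    (hL : ∀ A : Set L, A.Countable → ∃ i, ∀ a ∈ A, a < i)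
    (χ : S → ((G ⧸ ℓ.range) →+ T)) (hχ1 : ∀ a, a ≠ 0 → ∃ s, χ s a ≠ 0) (hχ0 : ∃ s, χ s = 0)
    (hχ2 : ∀ z : ℕ → G ⧸ ℓ.range, NEC z → ∃ s, ¬ Conv (fun m => χ s (z m)))
    (M1 : J → (S × S × L) → (ℕ → Tn n))
    (hM1 : ∀ C : Set (S × S × L), C.Countable → ∀ g : (S × S × L) → (ℕ → Tn n),
      ∃ j, (∀ c ∈ C, c.2.2 < lev j) ∧ ∀ c ∈ C, M1 j c = g c)
    (M2 : S → (J × ℕ) → Tn n)
    (hM2 : ∀ B : Set (J × ℕ), B.Countable → ∀ g : (J × ℕ) → Tn n, ∃ s, ∀ b ∈ B, M2 s b = g b) :
    Good q G := by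
  classical
  obtain ⟨θ, hθ⟩ := exists_theta n
  obtain ⟨ψ, hψ⟩ := extend_finsupp ℓ hℓ (kap (J × Option ℕ) hθ)
  set φ : S × S × L → (G →+ T) := fun c =>
    (χ c.1).comp (QuotientAddGroup.mk' ℓ.range) + (UU q lev M1 M2 hθ c).comp ψ with hφ
  have hφa : ∀ c g, φ c g = χ c.1 (QuotientAddGroup.mk' ℓ.range g) +
    UU q lev M1 M2 hθ c (ψ g) := fun c g => rfl
  have hmk : ∀ v, QuotientAddGroup.mk' ℓ.range (ℓ v) = 0 := fun v =>
    (QuotientAddGroup.eq_zero_iff _).mpr ⟨v, rfl⟩
  have hφℓ : ∀ c v, φ c (ℓ v) = UU q lev M1 M2 hθ c (kap (J × Option ℕ) hθ v) := by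
    intro c v
    rw [hφa, hmk, map_zero, zero_add, hψ]
  have hφx : ∀ c x, φ c (ℓ (Finsupp.single x 1)) = Mat q lev M1 M2 x c := by
    intro c x
    rw [hφℓ, kap_single, UU, Finsupp.liftAddHom_apply_single, endo_theta]
  have hφn : ∀ c g, n • φ c g = 0 := fun c g => by rw [← map_nsmul, hG, map_zero]
  -- first realization lemma
  have hR1 : ∀ (y : ℕ → G) (s : S), ∃ c : S × S × L, c.1 = s ∧
      ∀ m, φ c (y m) = χ s (QuotientAddGroup.mk' ℓ.range (y m)) := by
    intro y s
    set J₀ : Set J := ⋃ m, (fun x : J × Option ℕ => x.1) '' ((ψ (y m)).support : Set _) with hJ₀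
    have hJ₀c : J₀.Countable := countable_iUnion (fun m => ((ψ (y m)).support.countable_toSet).image _)
    obtain ⟨i, hi⟩ := hL (lev '' J₀) (hJ₀c.image _)
    obtain ⟨s2, hs2⟩ := hM2 (J₀ ×ˢ (univ : Set ℕ)) (hJ₀c.prod countable_univ) (fun _ => ⟨0, by simp⟩)
    refine ⟨(s, s2, i), rfl, fun m => ?_⟩
    rw [hφa, UU_zero, add_zero]
    rintro ⟨j, o⟩ hx
    have hj : j ∈ J₀ := mem_iUnion.mpr ⟨m, (j, o), hx, rfl⟩
    have hlt : ¬ (((s, s2, i) : S × S × L).2.2 < lev j) := not_lt.mpr (hi _ ⟨j, hj, rfl⟩).le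
    have hMk : ∀ k, (Mk lev M1 M2 j (s, s2, i) k : T) = 0 := by
      intro k
      rw [Mk_ge lev M1 M2 hlt]
      exact congrArg Subtype.val (hs2 (j, k) ⟨hj, mem_univ _⟩)
    cases o with
    | some k => rw [Mat_some]; exact hMk k
    | none =>
      rw [Mat_none]
      exact qlim_eq (P := univ) univ_mem (fun k _ => hMk k)
  -- second realization lemma
  have hR2 : ∀ (h : ((J × Option ℕ) →₀ ZMod n) →+ T) (P : Set ℕ), P ∈ q →
      (∀ j, ∀ k ∈ P, h (Finsupp.single (j, some k) 1) = h (Finsupp.single (j, none) 1)) →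
      ∀ v : ℕ → ((J × Option ℕ) →₀ ZMod n), ∃ c, ∀ m, φ c (ℓ (v m)) = h (v m) := by
    intro h P hP hh v
    have hhn : ∀ w, n • h w = 0 := by
      intro w
      rw [← map_nsmul]
      have : n • w = 0 := by
        ext x
        rw [Finsupp.smul_apply, nsmul_eq_mul, ZMod.natCast_self, zero_mul]
        rfl
      rw [this, map_zero]
    set J₀ : Set J := ⋃ m, (fun x : J × Option ℕ => x.1) '' ((v m).support : Set _) with hJ₀
    have hJ₀c : J₀.Countable := countable_iUnion (fun m => ((v m).support.countable_toSet).image _)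
    obtain ⟨i, hi⟩ := hL (lev '' J₀) (hJ₀c.image _)
    obtain ⟨s1, _⟩ := hχ0
    obtain ⟨s2, hs2⟩ := hM2 (J₀ ×ˢ (univ : Set ℕ)) (hJ₀c.prod countable_univ)
      (fun b => ⟨h (Finsupp.single (b.1, some b.2) 1), hhn _⟩)
    refine ⟨(s1, s2, i), fun m => ?_⟩
    rw [hφℓ]
    apply UU_kap
    rintro ⟨j, o⟩ hx
    have hj : j ∈ J₀ := mem_iUnion.mpr ⟨m, (j, o), hx, rfl⟩
    have hlt : ¬ (((s1, s2, i) : S × S × L).2.2 < lev j) := not_lt.mpr (hi _ ⟨j, hj, rfl⟩).le
    have hMk : ∀ k, (Mk lev M1 M2 j (s1, s2, i) k : T) = h (Finsupp.single (j, some k) 1) := by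
      intro k
      rw [Mk_ge lev M1 M2 hlt]
      exact congrArg Subtype.val (hs2 (j, k) ⟨hj, mem_univ _⟩)
    cases o with
    | some k => rw [Mat_some]; exact hMk k
    | none =>
      rw [Mat_none]
      exact qlim_eq hP (fun k hk => (hMk k).trans (hh j k hk))
  -- homomorphisms factoring through the retraction
  have hfac : ∀ (h₀ : ((J × Option ℕ) →₀ ZMod n) →+ T) (P : Set ℕ), P ∈ q →
      ∀ v : ℕ → ((J × Option ℕ) →₀ ZMod n),
        ∃ c, ∀ m, φ c (ℓ (v m)) = h₀ (Finsupp.mapDomain (rr P) (v m)) := by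
    intro h₀ P hP v
    obtain ⟨c, hc⟩ := hR2 (h₀.comp (Finsupp.mapDomain.addMonoidHom (rr P))) P hP (by
      intro j k hk
      simp only [AddMonoidHom.comp_apply, Finsupp.mapDomain.addMonoidHom_apply,
        Finsupp.mapDomain_single, rr_mem hk, rr_none]) v
    exact ⟨c, hc⟩
  refine good_of_family φ ?_ ?_ ?_
  · -- separation
    intro g hg
    by_cases h0 : QuotientAddGroup.mk' ℓ.range g = 0
    · obtain ⟨v, rfl⟩ := (QuotientAddGroup.eq_zero_iff g).mp h0
      have hv : v ≠ 0 := by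
        rintro rfl
        exact hg (map_zero ℓ)
      obtain ⟨P, hP, hPv⟩ := exists_good_set' hq v
      obtain ⟨h₀, hh₀⟩ := exists_char_ne hv
      obtain ⟨c, hc⟩ := hfac h₀ P hP (fun _ => v)
      refine ⟨c, ?_⟩
      rw [hc 0, hPv]
      exact hh₀
    · obtain ⟨s, hs⟩ := hχ1 _ h0
      obtain ⟨c, _, hc⟩ := hR1 (fun _ => g) s
      refine ⟨c, ?_⟩
      rw [hc 0]
      exact hs
  · -- no convergent sequences
    intro y hy
    by_cases hnec : NEC (fun m => QuotientAddGroup.mk' ℓ.range (y m))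
    · obtain ⟨s, hs⟩ := hχ2 _ hnec
      obtain ⟨c, _, hc⟩ := hR1 y s
      refine ⟨c, ?_⟩
      simp only [hc]
      exact hs
    · unfold NEC at hnec
      rw [not_not] at hnec
      obtain ⟨N, hN⟩ := hnec
      have h1 : ∀ m, ∃ v, ℓ v = y (N + m) - y N := by
        intro m
        have : QuotientAddGroup.mk' ℓ.range (y (N + m)) = QuotientAddGroup.mk' ℓ.range (y N) :=
          hN (N + m) (by omega)
        have h2 : QuotientAddGroup.mk' ℓ.range (y (N + m) - y N) = 0 := by
          rw [map_sub, this, sub_self]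
        exact (QuotientAddGroup.eq_zero_iff _).mp h2
      choose v hv using h1
      have hvinj : Function.Injective v := by
        intro a b hab
        have h3 := hv a
        rw [hab, hv b] at h3
        have h4 := hy (sub_left_injective h3)
        omega
      obtain ⟨P, hP, hPv⟩ := exists_good_set hq v hvinj
      obtain ⟨h₀, hh₀⟩ := exists_not_tendsto _ hPv
      obtain ⟨c, hc⟩ := hfac h₀ P hP v
      refine ⟨c, ?_⟩
      rintro ⟨t, ht⟩
      apply hh₀
      refine ⟨t - φ c (y N), ?_⟩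
      have h5 : Tendsto (fun m => φ c (y (N + m))) atTop (𝓝 t) :=
        ht.comp (tendsto_add_atTop_nat N |>.congr (fun m => by omega))
      refine (h5.sub_const (φ c (y N))).congr (fun m => ?_)
      rw [← map_sub, ← hv m, hc m]
  · -- strong pseudocompactness
    intro C hC g
    obtain ⟨j, hj1, hj2⟩ := hM1 C hC (fun c k => ⟨φ c (g k), hφn _ _⟩)
    refine ⟨fun k => ℓ (Finsupp.single (j, some k) 1), ℓ (Finsupp.single (j, none) 1), ?_, ?_⟩
    · intro c hc k
      rw [hφx, Mat_some, Mk_lt lev M1 M2 (hj1 c hc), hj2 c hc]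
    · intro c
      simp only [hφx, Mat_some, Mat_none]
      exact qlim_spec q _

end Pool.Agent.Lib.MP_dbf3d5_gt
end

section

/-!
# Closure properties of good groups
-/

open Set Filter Topology

universe u v w

namespace Pool.Agent.Lib.MP_dbf3d5_gt

lemma evConst_of_tendsto {X : Type u} [TopologicalSpace X] [T1Space X]
    (hX : ¬ HasNontrivialConvergentSequence X) {y : ℕ → X} {a : X}
    (hy : Tendsto y atTop (𝓝 a)) : ∀ᶠ m in atTop, y m = a := by
  by_contra hcon
  have h1 : ∃ᶠ m in atTop, y m ≠ a := not_eventually.mp hcon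
  set S : Set X := y '' {m | y m ≠ a} with hS
  have haS : a ∉ S := by
    rintro ⟨m, hm, h⟩
    exact hm h
  have hinf : S.Infinite := by
    intro hfin
    have h2 : Sᶜ ∈ 𝓝 a := hfin.isClosed.isOpen_compl.mem_nhds haS
    obtain ⟨m, hm1, hm2⟩ := (h1.and_eventually (hy h2)).exists
    exact hm2 ⟨m, hm1, rfl⟩
  have g := hinf.natEmbedding
  have h3 : ∀ k, ∃ m, y m = g k := fun k => by
    obtain ⟨m, _, hm⟩ := (g k).2
    exact ⟨m, hm⟩
  choose m hm using h3
  have hminj : Function.Injective m := by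
    intro k l hkl
    apply g.injective
    apply Subtype.ext
    rw [← hm k, ← hm l, hkl]
  apply hX
  refine ⟨fun k => y (m k), a, ?_, hy.comp hminj.nat_tendsto_atTop⟩
  intro k l hkl
  apply g.injective
  apply Subtype.ext
  rw [← hm k, ← hm l]
  exact hkl

lemma Good.of_equiv {q : Ultrafilter ℕ} {G : Type u} {H : Type v} [AddCommGroup G]
    [AddCommGroup H] (e : H ≃+ G) (h : Good q G) : Good q H := by
  obtain ⟨t, hg, ht, hp, hc⟩ := h
  let t' : TopologicalSpace H := TopologicalSpace.induced e t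
  have hind : IsInducing e := ⟨rfl⟩
  have hemb : IsEmbedding e := ⟨hind, e.injective⟩
  let eh : H ≃ₜ G := e.toEquiv.toHomeomorphOfIsInducing hind
  refine ⟨t', topologicalAddGroup_induced e, hemb.t2Space, ?_, ?_⟩
  · intro U hU hne
    obtain ⟨x, hx, a, ha⟩ := hp (fun n => e '' (U n)) (fun n => eh.isOpenMap _ (hU n))
      (fun n => (hne n).image _)
    refine ⟨fun n => e.symm (x n), fun n => ?_, e.symm a, ?_⟩
    · obtain ⟨u, hu, hux⟩ := hx n
      beta_reduce
      rw [← hux, AddEquiv.symm_apply_apply]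
      exact hu
    · intro V hV
      have h1 : Tendsto x q (𝓝 a) := ha
      have h2 : Tendsto (fun n => eh.symm (x n)) q (𝓝 (eh.symm a)) :=
        (eh.symm.continuous.tendsto a).comp h1
      exact h2 hV
  · rintro ⟨x, a, hx, ha⟩
    exact hc ⟨fun n => e (x n), e a, e.injective.comp hx, (hind.continuous.tendsto a).comp ha⟩

lemma Good.prod {q : Ultrafilter ℕ} {G : Type u} {H : Type v} [AddCommGroup G]
    [AddCommGroup H] (h : Good q G) (h' : Good q H) : Good q (G × H) := by
  obtain ⟨t, hg, ht, hp, hc⟩ := h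
  obtain ⟨t', hg', ht', hp', hc'⟩ := h'
  refine ⟨inferInstance, inferInstance, inferInstance, ?_, ?_⟩
  · intro U hU hne
    choose z hz using hne
    have h1 : ∀ n, ∃ (V : Set G) (W : Set H), IsOpen V ∧ IsOpen W ∧ (z n).1 ∈ V ∧ (z n).2 ∈ W ∧
        V ×ˢ W ⊆ U n := fun n => isOpen_prod_iff.mp (hU n) (z n).1 (z n).2 (hz n)
    choose V W hV hW hzV hzW hVW using h1
    obtain ⟨x, hx, a, ha⟩ := hp V hV (fun n => ⟨_, hzV n⟩)
    obtain ⟨y, hy, b, hb⟩ := hp' W hW (fun n => ⟨_, hzW n⟩)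
    refine ⟨fun n => (x n, y n), fun n => hVW n ⟨hx n, hy n⟩, (a, b), ?_⟩
    have h2 : Tendsto x q (𝓝 a) := ha
    have h3 : Tendsto y q (𝓝 b) := hb
    have h4 : Tendsto (fun n => (x n, y n)) q (𝓝 (a, b)) := h2.prodMk_nhds h3
    exact fun S hS => h4 hS
  · rintro ⟨x, a, hx, ha⟩
    have h1 := evConst_of_tendsto hc ((continuous_fst.tendsto a).comp ha)
    have h2 := evConst_of_tendsto hc' ((continuous_snd.tendsto a).comp ha)
    obtain ⟨N, hN⟩ := eventually_atTop.mp (h1.and h2)
    have h3 : x N = x (N + 1) := by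
      have e1 := hN N le_rfl
      have e2 := hN (N + 1) (by omega)
      exact Prod.ext (e1.1.trans e2.1.symm) (e1.2.trans e2.2.symm)
    have := hx h3
    omega

lemma Good.of_finite {q : Ultrafilter ℕ} {G : Type u} [AddCommGroup G] [Finite G] :
    Good q G := by
  let t : TopologicalSpace G := ⊥
  have hd : DiscreteTopology G := ⟨rfl⟩
  refine ⟨t, inferInstance, inferInstance, ?_, ?_⟩
  · intro U hU hne
    choose x hx using hne
    refine ⟨x, hx, ?_⟩
    obtain ⟨a, ha⟩ : ∃ a : G, {n | x n = a} ∈ q := by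
      have h1 : (⋃ a ∈ (univ : Set G), {n | x n = a}) ∈ q := by
        have h2 : (⋃ a ∈ (univ : Set G), {n | x n = a}) = univ := by
          ext n
          simp
        rw [h2]
        exact univ_mem
      obtain ⟨a, _, ha⟩ := (Ultrafilter.finite_biUnion_mem_iff finite_univ).mp h1
      exact ⟨a, ha⟩
    refine ⟨a, fun V hV => ?_⟩
    filter_upwards [ha] with n hn
    have : x n = a := hn
    rw [this]
    exact mem_of_mem_nhds hV
  · rintro ⟨x, a, hx, _⟩
    exact not_injective_infinite_finite x hx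

lemma Good.of_finite' {q : Ultrafilter ℕ} {G : Type u} [AddCommGroup G] (h : Finite G) :
    Good q G := Good.of_finite

end Pool.Agent.Lib.MP_dbf3d5_gt
end

section

/-!
# The cardinality criterion for good topologies
-/

open Set Filter Topology Cardinal
open scoped Ordinal

universe u v w

namespace Pool.Agent.Lib.MP_dbf3d5_gt

lemma exists_L : ∃ (L : Type) (_ : LinearOrder L), #L ≤ 𝔠 ∧
    ∀ A : Set L, A.Countable → ∃ i, ∀ a ∈ A, a < i := by
  refine ⟨(ω₁ : Ordinal.{0}).ToType, inferInstance, ?_, ?_⟩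
  · rw [Cardinal.mk_toType, Ordinal.card_omega]
    exact aleph_one_le_continuum
  · intro A hA
    have : Countable A := hA
    set f : A → Ordinal.{0} := fun a => (a : (ω₁ : Ordinal.{0}).ToType).toOrd.1 with hf
    have hlt : ∀ a, f a < ω₁ := fun a => (a : (ω₁ : Ordinal.{0}).ToType).toOrd.2
    have hsup := Ordinal.iSup_lt_omega_one hlt
    have hs2 : Order.succ (⨆ a, f a) < ω₁ := (Cardinal.isSuccLimit_omega 1).succ_lt hsup
    refine ⟨Ordinal.ToType.mk ⟨Order.succ (⨆ a, f a), hs2⟩, fun a ha => ?_⟩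
    have h1 : f ⟨a, ha⟩ ≤ ⨆ a, f a := Ordinal.le_iSup f ⟨a, ha⟩
    have h2 : Ordinal.ToType.mk (a.toOrd) < Ordinal.ToType.mk ⟨Order.succ (⨆ a, f a), hs2⟩ := by
      rw [OrderIso.lt_iff_lt]
      exact Order.lt_succ_of_le h1
    simpa using h2

lemma mk_Tn_le (n : ℕ) : #(Tn n) ≤ 𝔠 := (mk_subtype_le _).trans mk_T_le

instance (n : ℕ) : Nonempty (Tn n) := ⟨⟨0, by simp⟩⟩

theorem good_of_card {q : Ultrafilter ℕ} (hq : Free q) {n : ℕ} (hn : n ≠ 1) {G : Type u}
    [AddCommGroup G] (hG : ∀ g : G, n • g = 0) {I : Type u} {S : Type u} [Infinite S]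
    (hOD : OD I S Bool) (ℓ : (I →₀ ZMod n) →+ G) (hℓ : Function.Injective ℓ)
    (hcard : #G ≤ #(Set (ℕ → S))) : Good q G := by
  classical
  obtain ⟨L, hLo, hLc, hL⟩ := exists_L
  have hS0 : ℵ₀ ≤ #S := aleph0_le_mk S
  set S' : Type u := ℕ → S with hS'
  have hmkS' : #S' = #S ^ ℵ₀ := by
    rw [hS', mk_pi, prod_const, mk_nat, lift_uzero, lift_aleph0]
  have hpow : #S' ^ ℵ₀ = #S' := by
    rw [hmkS', ← power_mul, aleph0_mul_aleph0]
  have hinfS' : Infinite S' := Pi.infinite_of_right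
  have hcS' : 𝔠 ≤ #S' := continuum_le_of_pow hpow
  have h0S' : ℵ₀ ≤ #S' := aleph0_le_mk S'
  have hOD' : OD I S' Bool := hOD.seq
  have hcI : 𝔠 ≤ #I := hOD.continuum_le
  have h0I : ℵ₀ ≤ #I := aleph0_le_continuum.trans hcI
  have hliftL : lift.{u} #L ≤ 𝔠 := by
    calc lift.{u} #L ≤ lift.{u} 𝔠 := lift_le.mpr hLc
      _ = 𝔠 := lift_continuum
  -- the column index set
  have hΞ : #(S' × S' × L) ≤ #S' := by
    rw [mk_prod, mk_prod, lift_id, lift_umax, lift_uzero]
    simp only [lift_id]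
    calc #S' * (#S' * lift.{u} #L) ≤ #S' * (#S' * #S') := by
          gcongr
          exact hliftL.trans hcS'
      _ = #S' := by rw [mul_eq_self h0S', mul_eq_self h0S']
  have hOD1 : OD I (S' × S' × L) (ℕ → Tn n) := by
    have h1 : OD I S' (ℕ → Tn n) :=
      hOD'.val_le_continuum (ℕ → Tn n) (mk_seq_le_continuum (mk_Tn_le n))
    apply h1.mono_right
    rw [lift_id, lift_id]
    exact hΞ
  obtain ⟨F1, hF1⟩ := hOD1
  -- the row index set
  have hX : #((I × L) × Option ℕ) ≤ #I := by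
    have h1 : #(Option ℕ) = ℵ₀ := by simp
    rw [mk_prod, mk_prod, h1, lift_aleph0, lift_uzero]
    simp only [lift_uzero]
    calc #I * lift.{u} #L * ℵ₀ ≤ #I * #I * #I := by
          gcongr
          exact hliftL.trans hcI
      _ = #I := by rw [mul_eq_self h0I, mul_eq_self h0I]
  obtain ⟨e⟩ := hX
  set ℓ' : (((I × L) × Option ℕ) →₀ ZMod n) →+ G :=
    ℓ.comp (Finsupp.mapDomain.addMonoidHom e) with hℓ'
  have hℓ'inj : Function.Injective ℓ' := hℓ.comp (Finsupp.mapDomain_injective e.injective)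
  have hIG : #I ≤ #G := by
    have hne : (1 : ZMod n) ≠ 0 := by
      have : Fact (n ≠ 1) := ⟨hn⟩
      have : Nontrivial (ZMod n) := ZMod.nontrivial_iff.mpr hn
      exact one_ne_zero
    refine mk_le_of_injective (f := fun i => ℓ (Finsupp.single i 1)) ?_
    intro i j hij
    exact Finsupp.single_left_injective hne (hℓ hij)
  have hOD2 : OD S' ((I × L) × ℕ) (Tn n) := by
    have h1 : OD S' (Set S') (Tn n) := (OD_powerset S' hpow).val_le_continuum (Tn n) (mk_Tn_le n)
    apply h1.mono_right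
    have h2 : #((I × L) × ℕ) ≤ #I := by
      rw [mk_prod, mk_prod, mk_nat, lift_aleph0, lift_uzero]
      simp only [lift_uzero]
      calc #I * lift.{u} #L * ℵ₀ ≤ #I * #I * #I := by
            gcongr
            exact hliftL.trans hcI
        _ = #I := by rw [mul_eq_self h0I, mul_eq_self h0I]
    rw [lift_id, lift_id]
    exact h2.trans (hIG.trans hcard)
  obtain ⟨M2, hM2⟩ := hOD2
  have hcardQ : lift.{u} #(G ⧸ ℓ'.range) ≤ lift.{u} #(Set S') := by
    rw [lift_id, lift_id]
    exact (mk_le_of_surjective QuotientAddGroup.mk_surjective).trans hcard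
  obtain ⟨χ, hχ1, hχ0, hχ2⟩ := exists_rich (G ⧸ ℓ'.range) S' hpow hcardQ
  refine good_core hq hG ℓ' hℓ'inj (fun j => j.2) hL χ hχ1 hχ0 hχ2 (fun j c => F1 j.1 c) ?_ M2 hM2
  intro C hC g
  obtain ⟨i, hi⟩ := hL ((fun c : S' × S' × L => c.2.2) '' C) (hC.image _)
  obtain ⟨α, hα⟩ := hF1 C hC g
  exact ⟨(α, i), fun c hc => hi _ ⟨c, hc, rfl⟩, hα⟩

end Pool.Agent.Lib.MP_dbf3d5_gt
end

section

/-!
# The compact completion of a strongly `p`-pseudocompact group
-/

open Set Filter Topology Pointwise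

universe u v w

namespace Pool.Agent.Lib.MP_dbf3d5_gt

section

variable {G : Type u} [AddCommGroup G] [TopologicalSpace G] {p : Ultrafilter ℕ}

/-- Strong `p`-pseudocompactness gives meeting of cosets of admissible subgroups. -/
theorem admDense_of_dense (hp : Free p) (hG : StronglyPseudocompactAt p G) {K : Type v}
    [AddCommGroup K] [TopologicalSpace K] [IsTopologicalAddGroup K] (j : G →+ K)
    (hc : Continuous j) (hd : DenseRange j) :
    ∀ N : AddSubgroup K, Adm N → ∀ x : K, ∃ g : G, j g - x ∈ N := by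
  intro N hN x
  obtain ⟨U, hU, hsub, hNU⟩ := hN
  have hmem : ∀ n, {y : K | y - x ∈ U n} ∈ 𝓝 x := by
    intro n
    have h2 : Tendsto (fun y : K => y - x) (𝓝 x) (𝓝 0) := by
      exact (continuous_id.sub continuous_const).tendsto' x 0 (sub_self x)
    exact h2 (hU n)
  obtain ⟨g, hg, a, ha⟩ := hG (fun n => j ⁻¹' interior {y : K | y - x ∈ U n})
    (fun n => isOpen_interior.preimage hc) (fun n => by
      obtain ⟨y, hy⟩ := hd.exists_mem_open isOpen_interior
        ⟨x, mem_interior_iff_mem_nhds.mpr (hmem n)⟩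
      exact ⟨y, hy⟩)
  refine ⟨a, ?_⟩
  rw [← SetLike.mem_coe, hNU, mem_iInter]
  intro k
  have hdec : ∀ m, U (k + 1 + m) ⊆ U (k + 1) := by
    intro m
    induction m with
    | zero => exact Subset.rfl
    | succ m ih =>
      refine Subset.trans ?_ ih
      intro y hy
      have := hsub (k + 1 + m) y hy 0 (mem_of_mem_nhds (hU _))
      rwa [sub_zero] at this
  have h1 : {n | g n ∈ j ⁻¹' {y : K | y - j a ∈ U (k + 1)}} ∈ p := by
    apply ha
    apply hc.continuousAt
    have h2 : Tendsto (fun y : K => y - j a) (𝓝 (j a)) (𝓝 0) := by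
      exact (continuous_id.sub continuous_const).tendsto' (j a) 0 (sub_self _)
    exact h2 (hU (k + 1))
  have h2 : {n | n < k + 1}ᶜ ∈ p := hp.compl_mem (finite_lt_nat (k + 1))
  obtain ⟨n, hn1, hn2⟩ := p.nonempty_of_mem (inter_mem h1 h2)
  have hn3 : k + 1 ≤ n := by
    by_contra hcon
    exact hn2 (not_le.mp hcon)
  obtain ⟨m, rfl⟩ := Nat.exists_eq_add_of_le hn3
  have h3' : j (g (k + 1 + m)) ∈ {y : K | y - x ∈ U (k + 1 + m)} :=
    interior_subset (hg (k + 1 + m))
  have h3 : j (g (k + 1 + m)) - x ∈ U (k + 1) := hdec m h3'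
  have h4 := hsub k _ h3 _ hn1
  rwa [sub_sub_sub_cancel_left] at h4

variable [IsTopologicalAddGroup G]

/-- Strongly `p`-pseudocompact groups are precompact. -/
theorem exists_finite_cover (hp : Free p) (hG : StronglyPseudocompactAt p G) (U : Set G)
    (hU : U ∈ 𝓝 (0 : G)) : ∃ t : Set G, t.Finite ∧ univ ⊆ ⋃ y ∈ t, y +ᵥ U := by
  by_contra hcon
  push Not at hcon
  -- a small neighbourhood
  obtain ⟨V, hV, hVU⟩ : ∃ V ∈ 𝓝 (0 : G), ∀ a ∈ V, ∀ b ∈ V, ∀ c ∈ V, ∀ d ∈ V,
      (a - b) + (c - d) ∈ U := by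
    have h1 : Tendsto (fun q : (G × G) × (G × G) => (q.1.1 - q.1.2) + (q.2.1 - q.2.2))
        (𝓝 ((0, 0), (0, 0))) (𝓝 0) := by
      have hcont : Continuous (fun q : (G × G) × (G × G) => (q.1.1 - q.1.2) + (q.2.1 - q.2.2)) := by
        fun_prop
      exact hcont.tendsto' _ _ (by simp)
    have h2 := h1 hU
    rw [nhds_prod_eq, nhds_prod_eq, Filter.mem_map, Filter.mem_prod_iff] at h2
    obtain ⟨A, hA, B, hB, hAB⟩ := h2
    rw [Filter.mem_prod_iff] at hA hB
    obtain ⟨A1, hA1, A2, hA2, hA12⟩ := hA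
    obtain ⟨B1, hB1, B2, hB2, hB12⟩ := hB
    refine ⟨(A1 ∩ A2) ∩ (B1 ∩ B2), inter_mem (inter_mem hA1 hA2) (inter_mem hB1 hB2),
      fun a ha b hb c hc d hd => ?_⟩
    exact hAB (mk_mem_prod (hA12 (mk_mem_prod ha.1.1 hb.1.2)) (hB12 (mk_mem_prod hc.2.1 hd.2.2)))
  -- a sequence
  have hstep : ∀ t : Finset G, ∃ x : G, ∀ y ∈ t, x - y ∉ U := by
    intro t
    have h1 := hcon (t : Set G) t.finite_toSet
    rw [not_subset] at h1
    obtain ⟨x, _, hx⟩ := h1
    refine ⟨x, fun y hy hxy => hx ?_⟩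
    rw [mem_iUnion₂]
    refine ⟨y, hy, ?_⟩
    rw [mem_vadd_set_iff_neg_vadd_mem, vadd_eq_add]
    rwa [sub_eq_neg_add] at hxy
  choose nx hnx using hstep
  obtain ⟨x, hx⟩ : ∃ x : ℕ → G, ∀ m n, m < n → x n - x m ∉ U := by
    classical
    let T : ℕ → Finset G := fun n => Nat.rec ∅ (fun _ t => insert (nx t) t) n
    have hT : ∀ n, T (n + 1) = insert (nx (T n)) (T n) := fun n => rfl
    have hmono : ∀ m k, T m ⊆ T (m + k) := by
      intro m k
      induction k with
      | zero => exact Finset.Subset.refl _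
      | succ k ih =>
        refine ih.trans ?_
        rw [← add_assoc, hT]
        exact Finset.subset_insert _ _
    refine ⟨fun n => nx (T n), fun m n hmn => ?_⟩
    apply hnx
    obtain ⟨k, rfl⟩ := Nat.exists_eq_add_of_lt hmn
    have h1 : nx (T m) ∈ T (m + 1) := by
      rw [hT]
      exact Finset.mem_insert_self _ _
    have h2 := hmono (m + 1) k h1
    rwa [show m + 1 + k = m + k + 1 by omega] at h2
  have h0V : (0 : G) ∈ interior V := mem_interior_iff_mem_nhds.mpr hV
  obtain ⟨y, hy, a, ha⟩ := hG (fun n => (fun z => z - x n) ⁻¹' interior V)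
    (fun n => isOpen_interior.preimage (by fun_prop)) (fun n => ⟨x n, by simpa using h0V⟩)
  have h1 : {n | y n ∈ (fun z => z - a) ⁻¹' V} ∈ p := by
    apply ha
    have h2 : Tendsto (fun z : G => z - a) (𝓝 a) (𝓝 0) := by
      exact (continuous_id.sub continuous_const).tendsto' a 0 (sub_self a)
    exact h2 hV
  obtain ⟨m, hm⟩ := p.nonempty_of_mem h1
  have h2 : {n | n < m + 1}ᶜ ∈ p := hp.compl_mem (finite_lt_nat (m + 1))
  obtain ⟨n, hn1, hn2⟩ := p.nonempty_of_mem (inter_mem h1 h2)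
  have hn3 : m < n := by
    by_contra hcon
    exact hn2 (by simp only [mem_ofPred_eq]; omega)
  refine hx m n hn3 ?_
  have h3 := hVU (y n - a) hn1 (y n - x n) (interior_subset (hy n)) (y m - x m)
    (interior_subset (hy m)) (y m - a) hm
  convert h3 using 1
  abel

theorem exists_compactification [T2Space G] (hp : Free p) (hG : StronglyPseudocompactAt p G) :
    ∃ (K : Type u) (_ : AddCommGroup K) (_ : TopologicalSpace K) (_ : IsTopologicalAddGroup K)
      (_ : CompactSpace K) (_ : T2Space K) (j : G →+ K), Function.Injective j ∧ AdmDense j := by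
  let _ : UniformSpace G := IsTopologicalAddGroup.rightUniformSpace G
  have : IsUniformAddGroup G := isUniformAddGroup_of_addCommGroup
  have htb : TotallyBounded (univ : Set G) := by
    rw [totallyBounded_iff_subset_finite_iUnion_nhds_zero]
    intro U hU
    exact exists_finite_cover hp hG U hU
  have hcomp : CompactSpace (UniformSpace.Completion G) := by
    rw [← isCompact_univ_iff]
    have h1 : TotallyBounded (closure (range ((↑) : G → UniformSpace.Completion G))) := by
      apply TotallyBounded.closure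
      rw [← image_univ]
      exact htb.image (UniformSpace.Completion.uniformContinuous_coe G)
    rw [UniformSpace.Completion.denseRange_coe.closure_range] at h1
    exact h1.isCompact_of_isClosed isClosed_univ
  refine ⟨UniformSpace.Completion G, inferInstance, inferInstance, inferInstance, hcomp,
    inferInstance, UniformSpace.Completion.toCompl, UniformSpace.Completion.coe_injective G, ?_⟩
  exact admDense_of_dense hp hG _ UniformSpace.Completion.continuous_toCompl
    UniformSpace.Completion.denseRange_coe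

/-- Continuous images. -/
lemma StronglyPseudocompactAt.image {X Y : Type u} [TopologicalSpace X] [TopologicalSpace Y]
    (hX : StronglyPseudocompactAt p X) (f : X → Y) (hf : Continuous f)
    (hs : Function.Surjective f) : StronglyPseudocompactAt p Y := by
  intro U hU hne
  obtain ⟨x, hx, a, ha⟩ := hX (fun n => f ⁻¹' U n) (fun n => (hU n).preimage hf)
    (fun n => (hne n).preimage hs)
  exact ⟨fun n => f (x n), hx, f a, fun V hV => ha _ (hf.continuousAt hV)⟩

end

end Pool.Agent.Lib.MP_dbf3d5_gt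
end

section

/-!
# Assembly
-/

open Set Filter Topology Cardinal

universe u v w

namespace Pool.Agent.Lib.MP_dbf3d5_gt

lemma Good.pi {q : Ultrafilter ℕ} {ι : Type v} [Finite ι] {A : ι → Type u}
    [∀ i, AddCommGroup (A i)] (h : ∀ i, Good q (A i)) : Good q (∀ i, A i) := by
  choose t hg ht hp hc using h
  refine ⟨inferInstance, inferInstance, inferInstance, ?_, ?_⟩
  · intro U hU hne
    choose z hz using hne
    have h1 : ∀ n, ∃ V : ∀ i, Set (A i), (∀ i, IsOpen (V i) ∧ z n i ∈ V i) ∧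
        Set.univ.pi V ⊆ U n := fun n => isOpen_pi_iff'.mp (hU n) (z n) (hz n)
    choose V hV hVU using h1
    have h2 : ∀ i, ∃ x : ℕ → A i, (∀ n, x n ∈ V n i) ∧ ∃ a, IsPLimit q x a := fun i =>
      hp i (fun n => V n i) (fun n => (hV n i).1) (fun n => ⟨_, (hV n i).2⟩)
    choose x hx a ha using h2
    refine ⟨fun n i => x i n, fun n => hVU n (fun i _ => hx i n), a, ?_⟩
    have h3 : Tendsto (fun n i => x i n) q (𝓝 a) := by
      rw [tendsto_pi_nhds]
      exact fun i => ha i
    exact fun S hS => h3 hS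
  · rintro ⟨x, a, hx, ha⟩
    rw [tendsto_pi_nhds] at ha
    have h1 : ∀ᶠ n in atTop, ∀ i, x n i = a i := by
      rw [eventually_all]
      intro i
      exact evConst_of_tendsto (hc i) (ha i)
    obtain ⟨N, hN⟩ := eventually_atTop.mp h1
    have h3 : x N = x (N + 1) := by
      funext i
      rw [hN N le_rfl i, hN (N + 1) (by omega) i]
    have := hx h3
    omega

section data

variable {G : Type u} [AddCommGroup G] [TopologicalSpace G] [IsTopologicalAddGroup G] [T2Space G]
  {p : Ultrafilter ℕ}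

theorem dataA [Infinite G] (hp : Free p) (hG : StronglyPseudocompactAt p G) :
    ∃ (S : Type u) (_ : Infinite S), OD G S Bool ∧ #G ≤ #(Set (ℕ → S)) := by
  obtain ⟨K, _, _, _, _, _, j, hj1, hj2⟩ := exists_compactification hp hG
  exact caseA hj1 hj2

theorem dataA' (hp : Free p) (hG : StronglyPseudocompactAt p G) (d : ℕ)
    (hinf : Infinite (nsmulAddMonoidHom d : G →+ G).range) :
    ∃ (S : Type u) (_ : Infinite S), OD (nsmulAddMonoidHom d : G →+ G).range S Bool ∧
      #((nsmulAddMonoidHom d : G →+ G).range) ≤ #(Set (ℕ → S)) := by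
  apply dataA hp
  apply hG.image (nsmulAddMonoidHom d : G →+ G).rangeRestrict
  · apply Continuous.subtype_mk
    exact continuous_nsmul d
  · exact AddMonoidHom.rangeRestrict_surjective _

theorem dataB (hp : Free p) (hG : StronglyPseudocompactAt p G) :
    (∃ m : ℕ, m ≠ 0 ∧ ∀ g : G, m • g = 0) ∨
    (∃ m : ℕ, m ≠ 0 ∧ ∃ (S : Type u) (_ : Infinite S) (I : Type u) (ℓ : (I →₀ ℤ) →+ G),
      Function.Injective ℓ ∧ OD I S Bool ∧
      #((nsmulAddMonoidHom m : G →+ G).range) ≤ #(Set (ℕ → S))) := by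
  obtain ⟨K, _, _, _, _, _, j, hj1, hj2⟩ := exists_compactification hp hG
  rcases caseB hj1 hj2 with h | ⟨m, hm, S, hS, F, hF1, hF2, hc⟩
  · exact Or.inl h
  · right
    obtain ⟨I, ℓ, hℓ, hOD⟩ := exists_indep F hF1 hF2
    exact ⟨m, hm, S, hS, I, ℓ, hℓ, hOD, hc⟩

end data

end Pool.Agent.Lib.MP_dbf3d5_gt
end

section

/-!
# Dominant blocks
-/

open Set Filter Topology Cardinal

universe u v w

namespace Pool.Agent.Lib.MP_dbf3d5_gt

/-- the divisor that kills all smaller blocks -/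
lemma exists_d {s : ℕ} {r k : Fin s → ℕ} (hr : ∀ i, (r i).Prime) (hk : ∀ i, 1 ≤ k i) {m : ℕ}
    (hm : m ≠ 0) (hdvd : ∀ i, r i ^ k i ∣ m) (j : Fin s) :
    ∃ d : ℕ, (∀ i, ¬ (r i = r j ∧ k j ≤ k i) → r i ^ k i ∣ d) ∧ ¬ r j ^ k j ∣ d := by
  obtain ⟨v, m', hm', hmm'⟩ := Nat.exists_eq_pow_mul_and_not_dvd hm (r j) (hr j).ne_one
  refine ⟨m' * r j ^ (k j - 1), fun i hi => ?_, ?_⟩
  · by_cases h1 : r i = r j
    · have h2 : k i < k j := by
        by_contra hcon
        exact hi ⟨h1, not_lt.mp hcon⟩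
      rw [h1]
      exact Dvd.dvd.mul_left (pow_dvd_pow _ (by omega)) _
    · have h2 : Nat.Coprime (r i ^ k i) (r j ^ v) :=
        Nat.Coprime.pow _ _ ((Nat.coprime_primes (hr i) (hr j)).mpr h1)
      have h3 := hdvd i
      rw [hmm'] at h3
      exact Dvd.dvd.mul_right (h2.dvd_of_dvd_mul_left h3) _
  · intro hcon
    have h1 : r j ^ k j = r j * r j ^ (k j - 1) := by
      rw [← pow_succ']
      congr 1
      have := hk j
      omega
    rw [h1] at hcon
    exact hm' (Nat.dvd_of_mul_dvd_mul_right (pow_pos (hr j).pos _) hcon)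

theorem block {G : Type u} [AddCommGroup G] [TopologicalSpace G] [IsTopologicalAddGroup G]
    [T2Space G] {p : Ultrafilter ℕ} (hp : Free p) (hG : StronglyPseudocompactAt p G)
    {m : ℕ} (hm : m ≠ 0) {H : Type u} [AddCommGroup H] {s : ℕ} {r k : Fin s → ℕ}
    {Y : Fin s → Type u} (hr : ∀ i, (r i).Prime) (hk : ∀ i, 1 ≤ k i) (hdvd : ∀ i, r i ^ k i ∣ m)
    (e : G ≃+ H × ((i : Fin s) → (Y i →₀ ZMod (r i ^ k i)))) (j : Fin s)
    (hdom : ∀ i, r i = r j → k j ≤ k i →
      #(Y i →₀ ZMod (r i ^ k i)) ≤ #(Y j →₀ ZMod (r j ^ k j)))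
    (hH : #H ≤ #(Y j →₀ ZMod (r j ^ k j))) (hinf : ℵ₀ ≤ #(Y j →₀ ZMod (r j ^ k j))) :
    ∃ (S : Type u) (_ : Infinite S), OD (Y j) S Bool ∧
      #(Y j →₀ ZMod (r j ^ k j)) ≤ #(Set (ℕ → S)) := by
  classical
  have hne : ∀ i, NeZero (r i ^ k i) := fun i => ⟨(pow_pos (hr i).pos _).ne'⟩
  have hfinZ : ∀ i, Finite (ZMod (r i ^ k i)) := fun i => inferInstance
  have hYinf : Infinite (Y j) := by
    by_contra hfin
    rw [not_infinite_iff_finite] at hfin
    have : Finite (Y j →₀ ZMod (r j ^ k j)) :=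
      Finite.of_injective (fun f : Y j →₀ ZMod (r j ^ k j) => (f : Y j → ZMod (r j ^ k j)))
        DFunLike.coe_injective
    exact absurd hinf (not_le.mpr (lt_aleph0_of_finite _))
  have hFY : #(Y j →₀ ZMod (r j ^ k j)) = #(Y j) := by
    have hnt : Nontrivial (ZMod (r j ^ k j)) :=
      ZMod.nontrivial_iff.mpr (Nat.one_lt_pow (by have := hk j; omega) (hr j).one_lt).ne'
    rw [mk_finsupp_lift_of_infinite, lift_uzero]
    apply max_eq_left
    refine le_trans ?_ (aleph0_le_mk (Y j))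
    rw [lift_le_aleph0]
    exact mk_le_aleph0
  obtain ⟨d, hd1, hd2⟩ := exists_d hr hk hm hdvd j
  -- upper bound
  have hup : #((nsmulAddMonoidHom d : G →+ G).range) ≤ #(Y j) := by
    have h1 : ∀ y : (nsmulAddMonoidHom d : G →+ G).range, ∃ g : G, d • g = y := by
      rintro ⟨y, g, hg⟩
      exact ⟨g, hg⟩
    choose t ht using h1
    have h2 : ∀ i, ∃ f : (Y i →₀ ZMod (r i ^ k i)) → (Y j →₀ ZMod (r j ^ k j)),
        ∀ a b, f a = f b → d • a = d • b := by
      intro i
      by_cases hi : r i = r j ∧ k j ≤ k i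
      · obtain ⟨f⟩ := (le_def _ _).mp (hdom i hi.1 hi.2)
        exact ⟨f, fun a b hab => by rw [f.injective hab]⟩
      · refine ⟨fun _ => 0, fun a b _ => ?_⟩
        have h3 : ∀ a : (Y i →₀ ZMod (r i ^ k i)), d • a = 0 := by
          intro a
          ext y
          rw [Finsupp.smul_apply, Finsupp.zero_apply, nsmul_eq_mul,
            (ZMod.natCast_eq_zero_iff d _).mpr (hd1 i hi), zero_mul]
        rw [h3, h3]
    choose f hf using h2
    obtain ⟨f0⟩ := (le_def _ _).mp hH
    have h4 : #((nsmulAddMonoidHom d : G →+ G).range) ≤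
        #((Y j →₀ ZMod (r j ^ k j)) × (Fin s → (Y j →₀ ZMod (r j ^ k j)))) := by
      apply mk_le_of_injective (f := fun y => (f0 (e (t y)).1, fun i => f i ((e (t y)).2 i)))
      intro y y' h
      rw [Prod.mk.injEq] at h
      have h5 : d • e (t y) = d • e (t y') := by
        apply Prod.ext
        · rw [Prod.smul_fst, Prod.smul_fst, f0.injective h.1]
        · rw [Prod.smul_snd, Prod.smul_snd]
          funext i
          exact hf i _ _ (congrFun h.2 i)
      rw [← map_nsmul, ← map_nsmul, ht, ht] at h5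
      exact Subtype.ext (e.injective h5)
    refine h4.trans ?_
    rw [mk_prod, lift_id, lift_id, ← hFY, mk_pi, prod_const, lift_uzero]
    have h6 : #(Y j →₀ ZMod (r j ^ k j)) ^ lift.{u} #(Fin s) ≤ #(Y j →₀ ZMod (r j ^ k j)) := by
      rw [mk_fin, lift_natCast]
      exact power_nat_le hinf
    exact (mul_le_max_of_aleph0_le_left hinf).trans (max_le le_rfl h6)
  -- lower bound
  have hlow : #(Y j) ≤ #((nsmulAddMonoidHom d : G →+ G).range) := by
    apply mk_le_of_injective (f := fun y => ⟨d • e.symm (0, Pi.single j (Finsupp.single y 1)),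
      e.symm (0, Pi.single j (Finsupp.single y 1)), rfl⟩)
    intro y y' h
    have h0 : d • e.symm (0, Pi.single j (Finsupp.single y 1)) =
        d • e.symm (0, Pi.single j (Finsupp.single y' 1)) := congrArg Subtype.val h
    rw [← map_nsmul, ← map_nsmul] at h0
    have h1 := e.symm.injective h0
    rw [Prod.ext_iff, Prod.smul_snd, Prod.smul_snd] at h1
    have h2 := congrFun h1.2 j
    rw [Pi.smul_apply, Pi.smul_apply] at h2
    dsimp only at h2
    rw [Pi.single_eq_same, Pi.single_eq_same, Finsupp.smul_single, Finsupp.smul_single,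
      nsmul_one] at h2
    have h3 : ((d : ℕ) : ZMod (r j ^ k j)) ≠ 0 := by
      rw [Ne, ZMod.natCast_eq_zero_iff]
      exact hd2
    exact (Finsupp.single_left_inj h3).mp h2
  have hdinf : Infinite (nsmulAddMonoidHom d : G →+ G).range := by
    rw [infinite_iff]
    exact (aleph0_le_mk (Y j)).trans hlow
  obtain ⟨S, hS, hOD, hcard⟩ := dataA' hp hG d hdinf
  refine ⟨S, hS, ?_, ?_⟩
  · apply hOD.mono_left
    rw [lift_id, lift_id]
    exact hup
  · rw [hFY]
    exact hlow.trans hcard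

end Pool.Agent.Lib.MP_dbf3d5_gt
end

section

/-!
# The main theorem
-/

open Set Filter Topology Cardinal

universe u v w

namespace Pool.Agent.Lib.MP_dbf3d5_gt

/-- grouping the factors of a product along the fibres of a map -/
def piFiber {J : Type v} {F : J → Type u} [∀ i, AddCommGroup (F i)] (φ : J → J) :
    ((i : J) → F i) ≃+ ((j : J) → (i : {i : J // φ i = j}) → F i) where
  toFun f j i := f i
  invFun g i := g (φ i) ⟨i, rfl⟩
  left_inv f := rfl
  right_inv g := by
    funext j ⟨i, hi⟩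
    subst hi
    rfl
  map_add' _ _ := rfl

open Classical in
/-- splitting a product -/
noncomputable def piSplit {J : Type v} {F : J → Type u} [∀ i, AddCommGroup (F i)] (P : J → Prop) :
    ((i : J) → F i) ≃+ ((i : {i // P i}) → F i) × ((i : {i // ¬ P i}) → F i) :=
  { Equiv.piEquivPiSubtypeProd P F with map_add' := fun _ _ => rfl }

/-- choosing dominant indices -/
lemma exists_dominant {s : ℕ} (J : Type) [Finite J] (c : J → Cardinal.{u}) (idx : J → Fin s)
    (hidx : Function.Injective idx) (R : J → J → Prop) (hrefl : ∀ i, R i i)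
    (htrans : ∀ a b c, R a b → R b c → R a c) :
    ∃ φ : J → J, (∀ i, R i (φ i)) ∧ (∀ i, φ (φ i) = φ i) ∧ (∀ i j, R i j → c j ≤ c (φ i)) := by
  classical
  have := Fintype.ofFinite J
  let f : J → Cardinal.{u} ×ₗ Fin s := fun j => toLex (c j, idx j)
  have hfinj : Function.Injective f := by
    intro a b hab
    have h1 : (c a, idx a) = (c b, idx b) := toLex.injective hab
    rw [Prod.mk.injEq] at h1
    exact hidx h1.2
  have h1 : ∀ i, ∃ j, R i j ∧ ∀ j', R i j' → f j' ≤ f j := by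
    intro i
    obtain ⟨j, hj1, hj2⟩ := Finset.exists_max_image (Finset.univ.filter (fun j => R i j)) f
      ⟨i, by simp [hrefl]⟩
    rw [Finset.mem_filter] at hj1
    exact ⟨j, hj1.2, fun j' hj' => hj2 j' (by rw [Finset.mem_filter]; exact ⟨Finset.mem_univ _, hj'⟩)⟩
  choose φ hφ1 hφ2 using h1
  refine ⟨φ, hφ1, fun i => ?_, fun i j hij => ?_⟩
  · apply hfinj
    apply le_antisymm
    · exact hφ2 i _ (htrans _ _ _ (hφ1 i) (hφ1 (φ i)))
    · exact hφ2 (φ i) _ (hrefl _)
  · have h2 := hφ2 i j hij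
    exact Prod.Lex.monotone_fst_ofLex h2

theorem assemble {G : Type u} [AddCommGroup G] [TopologicalSpace G] [IsTopologicalAddGroup G]
    [T2Space G] {p : Ultrafilter ℕ} (hp : Free p) (hG : StronglyPseudocompactAt p G)
    {q : Ultrafilter ℕ} (hq : Free q)
    {m : ℕ} (hm : m ≠ 0) {H : Type u} [AddCommGroup H] {s : ℕ} {r k : Fin s → ℕ}
    {Y : Fin s → Type u} (hr : ∀ i, (r i).Prime) (hk : ∀ i, 1 ≤ k i) (hdvd : ∀ i, r i ^ k i ∣ m)
    (e : G ≃+ H × ((i : Fin s) → (Y i →₀ ZMod (r i ^ k i))))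
    (small : Cardinal.{u} → Prop) (hmono : ∀ a b, a ≤ b → small b → small a)
    (hfin : ∀ a, a < ℵ₀ → small a) (hH : small #H)
    (hgood : Good q (H × ((i : {i // small #(Y i →₀ ZMod (r i ^ k i))}) →
      (Y i →₀ ZMod (r i ^ k i))))) : Good q G := by
  classical
  set P : Fin s → Prop := fun i => small #(Y i →₀ ZMod (r i ^ k i)) with hP
  have hle : ∀ a b, small a → ¬ small b → a ≤ b := by
    intro a b ha hb
    by_contra hcon
    exact hb (hmono _ _ (not_le.mp hcon).le ha)
  have hbig : Good q ((i : {i // ¬ P i}) → (Y i →₀ ZMod (r i ^ k i))) := by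
    obtain ⟨φ, hφ1, hφ2, hφ3⟩ := exists_dominant.{u} {i : Fin s // ¬ P i}
      (fun i => #(Y i →₀ ZMod (r i ^ k i))) (fun i => i.1) Subtype.val_injective
      (fun i j => r j.1 = r i.1 ∧ k i.1 ≤ k j.1) (fun i => ⟨rfl, le_rfl⟩)
      (fun a b c hab hbc => ⟨hbc.1.trans hab.1, hab.2.trans hbc.2⟩)
    apply Good.of_equiv (piFiber φ)
    apply Good.pi
    intro j
    by_cases hj : φ j = j
    · -- dominant block
      obtain ⟨S, hS, hOD, hcard⟩ := block hp hG hm hr hk hdvd e j.1 (by
          intro i hi1 hi2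
          by_cases hPi : P i
          · exact hle _ _ hPi j.2
          · have := hφ3 j ⟨i, hPi⟩ ⟨hi1, hi2⟩
            rw [hj] at this
            exact this) (hle _ _ hH j.2) (by
          by_contra hcon
          exact j.2 (hfin _ (not_le.mp hcon)))
      have hn1 : r j.1 ^ k j.1 ≠ 1 := (Nat.one_lt_pow (by have := hk j.1; omega) (hr j.1).one_lt).ne'
      have hjj : φ j = j := hj
      let ℓ : (Y j.1 →₀ ZMod (r j.1 ^ k j.1)) →+
          ((i : {i : {i // ¬ P i} // φ i = j}) → (Y i.1.1 →₀ ZMod (r i.1.1 ^ k i.1.1))) :=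
        AddMonoidHom.single (fun i : {i : {i // ¬ P i} // φ i = j} =>
          (Y i.1.1 →₀ ZMod (r i.1.1 ^ k i.1.1))) ⟨j, hjj⟩
      refine good_of_card hq hn1 (fun g => ?_) hOD ℓ ?_ ?_
      · funext i
        obtain ⟨i, rfl⟩ := i
        have h1 := hφ1 i
        ext y
        rw [Pi.smul_apply, Finsupp.smul_apply, Pi.zero_apply, Finsupp.zero_apply, nsmul_eq_mul]
        have h2 : ((r (φ i).1 ^ k (φ i).1 : ℕ) : ZMod (r i.1 ^ k i.1)) = 0 := by
          rw [ZMod.natCast_eq_zero_iff, h1.1]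
          exact pow_dvd_pow _ h1.2
        rw [h2, zero_mul]
      · intro a b hab
        have h1 := congrFun hab ⟨j, hjj⟩
        change Pi.single (M := fun i : {i : {i // ¬ P i} // φ i = j} =>
          (Y i.1.1 →₀ ZMod (r i.1.1 ^ k i.1.1))) ⟨j, hjj⟩ a ⟨j, hjj⟩ =
          Pi.single (M := fun i : {i : {i // ¬ P i} // φ i = j} =>
          (Y i.1.1 →₀ ZMod (r i.1.1 ^ k i.1.1))) ⟨j, hjj⟩ b ⟨j, hjj⟩ at h1
        rwa [Pi.single_eq_same, Pi.single_eq_same] at h1
      · have h1 : ∀ i : {i : {i // ¬ P i} // φ i = j},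
            #(Y i.1.1 →₀ ZMod (r i.1.1 ^ k i.1.1)) ≤ #(Y j.1 →₀ ZMod (r j.1 ^ k j.1)) := by
          rintro ⟨i, rfl⟩
          exact hφ3 i i ⟨rfl, le_rfl⟩
        have h2 : ℵ₀ ≤ #(Set (ℕ → S)) := aleph0_le_mk _
        rw [mk_pi]
        calc prod (fun i : {i : {i // ¬ P i} // φ i = j} =>
              #(Y i.1.1 →₀ ZMod (r i.1.1 ^ k i.1.1)))
            ≤ prod (fun i : {i : {i // ¬ P i} // φ i = j} => #(Set (ℕ → S))) :=
              prod_le_prod _ _ (fun i => (h1 i).trans hcard)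
          _ ≤ #(Set (ℕ → S)) := by
              rw [prod_const, lift_uzero]
              obtain ⟨N, hN⟩ := lt_aleph0.mp
                (lt_aleph0_of_finite {i : {i : Fin s // ¬ P i} // φ i = j})
              rw [hN, lift_natCast]
              exact power_nat_le h2
    · -- empty fibre
      apply Good.of_finite'
      have hempty : IsEmpty {i : {i // ¬ P i} // φ i = j} := by
        refine ⟨fun i => hj ?_⟩
        rw [← i.2]
        exact hφ2 i.1
      infer_instance
  have e2 : G ≃+ (H × ((i : {i // P i}) → (Y i →₀ ZMod (r i ^ k i)))) ×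
      ((i : {i // ¬ P i}) → (Y i →₀ ZMod (r i ^ k i))) :=
    e.trans (((AddEquiv.refl H).prodCongr (piSplit P)).trans AddEquiv.prodAssoc.symm)
  exact Good.of_equiv e2 (Good.prod hgood hbig)

lemma nsmul_finsupp_eq_zero {Y : Type u} {n m : ℕ} (h : n ∣ m) (a : Y →₀ ZMod n) : m • a = 0 := by
  ext y
  rw [Finsupp.smul_apply, Finsupp.zero_apply, nsmul_eq_mul, (ZMod.natCast_eq_zero_iff m n).mpr h,
    zero_mul]

/-- **Main theorem.** -/
theorem good_of_psc {G : Type u} [AddCommGroup G] [TopologicalSpace G] [IsTopologicalAddGroup G]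
    [T2Space G] {p : Ultrafilter ℕ} (hp : Free p) (hG : StronglyPseudocompactAt p G)
    {q : Ultrafilter ℕ} (hq : Free q) : Good q G := by
  classical
  rcases dataB hp hG with ⟨m, hm, hmG⟩ | ⟨m, hm, S, hS, I, ℓ, hℓ, hOD, hcard⟩
  · -- bounded case
    obtain ⟨H, _, s, r, k, Y, hr, hk, hdvd, ⟨e⟩, N, hN⟩ := exists_decomp G m hm
    have hH : #H < ℵ₀ := by
      have h1 : #((nsmulAddMonoidHom m : G →+ G).range) ≤ 1 := by
        rw [le_one_iff_subsingleton]
        constructor
        rintro ⟨_, a, rfl⟩ ⟨_, b, rfl⟩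
        apply Subtype.ext
        exact (hmG a).trans (hmG b).symm
      have h2 : #H ≤ 1 := by
        refine hN.trans ?_
        calc #((nsmulAddMonoidHom m : G →+ G).range) ^ N ≤ 1 ^ N := by gcongr
          _ = 1 := one_pow N
      exact h2.trans_lt one_lt_aleph0
    refine assemble hp hG hq hm hr hk hdvd e (fun c => c < ℵ₀) (fun a b hab hb => hab.trans_lt hb)
      (fun a ha => ha) hH ?_
    apply Good.of_finite'
    have h1 : Finite H := lt_aleph0_iff_finite.mp hH
    have h2 : ∀ i : {i // #(Y i →₀ ZMod (r i ^ k i)) < ℵ₀}, Finite (Y i →₀ ZMod (r i ^ k i)) :=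
      fun i => lt_aleph0_iff_finite.mp i.2
    infer_instance
  · -- unbounded case
    obtain ⟨H, _, s, r, k, Y, hr, hk, hdvd, ⟨e⟩, N, hN⟩ := exists_decomp G m hm
    have hκ : ℵ₀ ≤ #(Set (ℕ → S)) := aleph0_le_mk _
    have hH : #H ≤ #(Set (ℕ → S)) := by
      refine hN.trans ?_
      calc #((nsmulAddMonoidHom m : G →+ G).range) ^ N ≤ #(Set (ℕ → S)) ^ N := by gcongr
        _ ≤ #(Set (ℕ → S)) := power_nat_le hκ
    refine assemble hp hG hq hm hr hk hdvd e (fun c => c ≤ #(Set (ℕ → S)))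
      (fun a b hab hb => hab.trans hb) (fun a ha => ha.le.trans hκ) hH ?_
    -- the homomorphism
    let ℓ' : (I →₀ ℤ) →+ H × ((i : {i // #(Y i →₀ ZMod (r i ^ k i)) ≤ #(Set (ℕ → S))}) →
      (Y i →₀ ZMod (r i ^ k i))) :=
      (AddMonoidHom.inl _ _).comp ((AddMonoidHom.fst _ _).comp (e.toAddMonoidHom.comp ℓ))
    have hℓ' : Function.Injective ℓ' := by
      rw [injective_iff_map_eq_zero]
      intro x hx
      have h1 : (e (ℓ x)).1 = 0 := congrArg Prod.fst hx
      have h2 : m • e (ℓ x) = 0 := by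
        apply Prod.ext
        · rw [Prod.smul_fst, h1, smul_zero]
          rfl
        · rw [Prod.smul_snd]
          funext i
          exact nsmul_finsupp_eq_zero (hdvd i) _
      rw [← map_nsmul] at h2
      have h3 : m • ℓ x = 0 := (map_eq_zero_iff e e.injective).mp h2
      rw [← map_nsmul] at h3
      have h4 : m • x = 0 := (map_eq_zero_iff ℓ hℓ).mp h3
      have h5 : ∀ x : I →₀ ℤ, m • x = 0 → x = 0 := by
        intro x hx
        ext i
        have := DFunLike.congr_fun hx i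
        rw [Finsupp.smul_apply, Finsupp.zero_apply, nsmul_eq_mul, mul_eq_zero] at this
        rcases this with h | h
        · exact absurd (by exact_mod_cast h) hm
        · simpa using h
      exact h5 x h4
    let ℓ₀ : (I →₀ ZMod 0) →+ H ×
      ((i : {i // #(Y i →₀ ZMod (r i ^ k i)) ≤ #(Set (ℕ → S))}) →
      (Y i →₀ ZMod (r i ^ k i))) := ℓ'
    have hℓ₀ : Function.Injective ℓ₀ := hℓ'
    refine good_of_card hq (n := 0) (by norm_num) (fun g => zero_nsmul g) hOD ℓ₀ hℓ₀ ?_
    rw [mk_prod, lift_id, lift_id, mk_pi]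
    have h6 : prod (fun i : {i // #(Y i →₀ ZMod (r i ^ k i)) ≤ #(Set (ℕ → S))} =>
        #(Y i →₀ ZMod (r i ^ k i))) ≤ #(Set (ℕ → S)) := by
      calc prod (fun i : {i // #(Y i →₀ ZMod (r i ^ k i)) ≤ #(Set (ℕ → S))} =>
          #(Y i →₀ ZMod (r i ^ k i)))
          ≤ prod (fun i : {i // #(Y i →₀ ZMod (r i ^ k i)) ≤ #(Set (ℕ → S))} =>
            #(Set (ℕ → S))) := prod_le_prod _ _ (fun i => i.2)
        _ ≤ #(Set (ℕ → S)) := by
            rw [prod_const, lift_uzero]
            obtain ⟨N', hN'⟩ := lt_aleph0.mp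
              (lt_aleph0_of_finite {i // #(Y i →₀ ZMod (r i ^ k i)) ≤ #(Set (ℕ → S))})
            rw [hN', lift_natCast]
            exact power_nat_le hκ
    exact (mul_le_mul' hH h6).trans (mul_eq_self hκ).le

end Pool.Agent.Lib.MP_dbf3d5_gt
end
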