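import Mathlib
import Pool.Agent.Lib.MP_dbf3d5_gt.Dense

section

/-!
# Homomorphisms into the circle
-/

open Set Filter Topology MeasureTheory

universe u v w

namespace Pool.Agent.Lib.MP_dbf3d5_gt

/-- the circle `ℝ/ℤ` -/
abbrev T : Type := UnitAddCircle

/-- the homomorphism `ZMod n → G` sending `1` to `e` -/
def zm {G : Type u} [AddCommGroup G] (n : ℕ) (e : G) (h : n • e = 0) : ZMod n →+ G :=
  ZMod.lift n ⟨zmultiplesHom G e, by simpa using h⟩

lemma zm_one {G : Type u} [AddCommGroup G] (n : ℕ) (e : G) (h : n • e = 0) :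
    zm n e h 1 = e := by
  have := ZMod.lift_coe n (⟨zmultiplesHom G e, by simpa using h⟩ :
    {f : ℤ →+ G // f n = 0}) 1
  rw [Int.cast_one] at this
  rw [zm, this]
  simp

lemma zmod_hom_ext {G : Type u} [AddCommGroup G] {n : ℕ} {f g : ZMod n →+ G} (h : f 1 = g 1) :
    f = g := by
  ext x
  obtain ⟨k, rfl⟩ := ZMod.intCast_surjective x
  have : ((k : ℤ) : ZMod n) = k • (1 : ZMod n) := by simp
  rw [this, map_zsmul, map_zsmul, h]

lemma zm_injective {G : Type u} [AddCommGroup G] {n : ℕ} {e : G} (h : n • e = 0)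
    (ho : addOrderOf e = n) : Function.Injective (zm n e h) := by
  rw [zm, ZMod.lift_injective]
  intro m hm
  have h1 : m • e = 0 := by simpa using hm
  rw [← addOrderOf_dvd_iff_zsmul_eq_zero, ho] at h1
  exact (ZMod.intCast_zmod_eq_zero_iff_dvd m n).mpr h1

lemma baer_T : Module.Baer ℤ T := Module.Baer.of_divisible _

lemma extend_T {A : Type u} {B : Type v} [AddCommGroup A] [AddCommGroup B] (f : A →+ B)
    (hf : Function.Injective f) (g : A →+ T) : ∃ h : B →+ T, ∀ a, h (f a) = g a := by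
  obtain ⟨h, hh⟩ := Module.Baer.extension_property_addMonoidHom baer_T f hf g
  exact ⟨h, fun a => DFunLike.congr_fun hh a⟩

/-- `X →₀ T` is divisible -/
@[instance_reducible]
noncomputable def divFinsupp (X : Type w) : DivisibleBy (X →₀ T) ℤ :=
  divisibleByOfSMulRightSurj (X →₀ T) ℤ (by
    intro n hn v
    refine ⟨Finsupp.mapRange (fun t => if t = 0 then 0 else DivisibleBy.div t n) (by simp) v, ?_⟩
    ext x
    simp only [Finsupp.coe_smul, Pi.smul_apply, Finsupp.mapRange_apply]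
    split_ifs with h
    · rw [h, smul_zero]
    · exact DivisibleBy.div_cancel _ hn)

lemma extend_finsupp {A : Type u} {B : Type v} {X : Type w} [AddCommGroup A] [AddCommGroup B]
    (f : A →+ B) (hf : Function.Injective f) (g : A →+ (X →₀ T)) :
    ∃ h : B →+ (X →₀ T), ∀ a, h (f a) = g a := by
  let := divFinsupp X
  have hB : Module.Baer ℤ (X →₀ T) := Module.Baer.of_divisible _
  obtain ⟨h, hh⟩ := Module.Baer.extension_property_addMonoidHom hB f hf g
  exact ⟨h, fun a => DFunLike.congr_fun hh a⟩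

lemma exists_theta (n : ℕ) : ∃ θ : T, addOrderOf θ = n := by
  rcases Nat.eq_zero_or_pos n with rfl | hn
  · refine ⟨((Real.sqrt 2 : ℝ) : T), ?_⟩
    rw [addOrderOf_eq_zero_iff, AddCircle.not_isOfFinAddOrder_iff_forall_rat_ne_div]
    intro q hq
    rw [div_one] at hq
    exact irrational_sqrt_two ⟨q, hq⟩
  · exact ⟨((1 / n : ℝ) : T), AddCircle.addOrderOf_period_div hn⟩

lemma exists_endo {n : ℕ} {θ : T} (hθ : addOrderOf θ = n) (t : T) (ht : n • t = 0) :
    ∃ u : T →+ T, u θ = t := by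
  have hθ0 : n • θ = 0 := by rw [← hθ]; exact addOrderOf_nsmul_eq_zero θ
  obtain ⟨u, hu⟩ := extend_T (zm n θ hθ0) (zm_injective hθ0 hθ) (zm n t ht)
  refine ⟨u, ?_⟩
  have := hu 1
  rwa [zm_one, zm_one] at this

lemma exists_char_ne {B : Type u} [AddCommGroup B] {b : B} (hb : b ≠ 0) :
    ∃ h : B →+ T, h b ≠ 0 := by
  obtain ⟨θ, hθ⟩ := exists_theta (addOrderOf b)
  have hb0 : (addOrderOf b) • b = 0 := addOrderOf_nsmul_eq_zero b
  have hθ0 : (addOrderOf b) • θ = 0 := by rw [← hθ]; exact addOrderOf_nsmul_eq_zero θ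
  obtain ⟨h, hh⟩ := extend_T (zm (addOrderOf b) b hb0) (zm_injective hb0 rfl)
    (zm (addOrderOf b) θ hθ0)
  refine ⟨h, ?_⟩
  have := hh 1
  rw [zm_one, zm_one] at this
  rw [this]
  intro h0
  rw [h0, addOrderOf_zero] at hθ
  exact hb (AddMonoid.addOrderOf_eq_one_iff.mp hθ.symm)

/-! ### Haar measure on the dual of a discrete group -/

section dual

variable (B : Type u) [AddCommGroup B]

/-- the group of all homomorphisms `B → T`, as a closed subgroup of `B → T` -/
def dual : AddSubgroup (B → T) where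
  carrier := {f | ∀ a b, f (a + b) = f a + f b}
  zero_mem' := by intro a b; simp
  add_mem' := by
    intro f g hf hg a b
    simp only [Pi.add_apply, hf a b, hg a b]
    abel
  neg_mem' := by
    intro f hf a b
    simp only [Pi.neg_apply, hf a b]
    abel

lemma isClosed_dual : IsClosed (dual B : Set (B → T)) := by
  have : (dual B : Set (B → T)) = ⋂ a : B, ⋂ b : B, {f | f (a + b) = f a + f b} := by
    ext f
    simp only [mem_iInter]
    rfl
  rw [this]
  exact isClosed_iInter (fun a => isClosed_iInter (fun b =>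
    isClosed_eq (continuous_apply _) ((continuous_apply a).add (continuous_apply b))))

instance : CompactSpace (dual B) := isCompact_iff_compactSpace.mp (isClosed_dual B).isCompact

/-- the homomorphism given by an element of the dual -/
def dual.hom {B : Type u} [AddCommGroup B] (f : dual B) : B →+ T :=
  AddMonoidHom.mk' f.1 f.2

/-- elements of the dual from homomorphisms -/
def dual.of {B : Type u} [AddCommGroup B] (h : B →+ T) : dual B := ⟨h, fun a b => map_add h a b⟩

lemma dual.hom_apply {B : Type u} [AddCommGroup B] (f : dual B) (b : B) :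
    dual.hom f b = f.1 b := rfl

/-- the character given by `b` -/
noncomputable def ch {B : Type u} [AddCommGroup B] (b : B) (f : dual B) : ℂ :=
  (AddCircle.toCircle (f.1 b) : ℂ)

lemma continuous_ch {B : Type u} [AddCommGroup B] (b : B) : Continuous (ch b) := by
  unfold ch
  exact continuous_subtype_val.comp (AddCircle.continuous_toCircle.comp
    ((continuous_apply b).comp continuous_subtype_val))

lemma ch_add {B : Type u} [AddCommGroup B] (b : B) (f g : dual B) :
    ch b (f + g) = ch b f * ch b g := by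
  unfold ch
  rw [← Circle.coe_mul, ← AddCircle.toCircle_add]
  rfl

lemma norm_ch {B : Type u} [AddCommGroup B] (b : B) (f : dual B) : ‖ch b f‖ = 1 :=
  Circle.norm_coe _

lemma exists_ch_ne {B : Type u} [AddCommGroup B] {b : B} (hb : b ≠ 0) : ∃ f : dual B, ch b f ≠ 1 := by
  obtain ⟨h, hh⟩ := exists_char_ne hb
  refine ⟨dual.of h, ?_⟩
  unfold ch
  intro h1
  apply hh
  have h2 : AddCircle.toCircle (h b) = 1 := by
    apply Subtype.ext
    exact h1
  rw [← AddCircle.toCircle_zero] at h2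
  exact AddCircle.injective_toCircle one_ne_zero h2

end dual

/-- **The Bohr topology of a discrete group has no nontrivial convergent sequences.** -/
theorem exists_not_tendsto {B : Type u} [AddCommGroup B] (w : ℕ → B)
    (hw : ¬ ∃ N, ∀ m ≥ N, w m = w N) :
    ∃ h : B →+ T, ¬ ∃ t, Tendsto (fun m => h (w m)) atTop (𝓝 t) := by
  by_contra hcon
  push Not at hcon hw
  choose m hm hne using hw
  let _ : MeasurableSpace (dual B) := borel _
  have _ : BorelSpace (dual B) := ⟨rfl⟩
  set μ : Measure (dual B) := Measure.addHaar with hμ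
  have hint : ∀ b : B, b ≠ 0 → ∫ f, ch b f ∂μ = 0 := by
    intro b hb
    obtain ⟨g, hg⟩ := exists_ch_ne hb
    have h1 : ∫ f, ch b (f + g) ∂μ = ∫ f, ch b f ∂μ := integral_add_right_eq_self (ch b) g
    simp only [ch_add, integral_mul_const] at h1
    have h2 : (∫ f, ch b f ∂μ) * (ch b g - 1) = 0 := by
      rw [mul_sub, mul_one, h1, sub_self]
    rcases mul_eq_zero.mp h2 with h | h
    · exact h
    · exact absurd (sub_eq_zero.mp h) hg
  have hlim : Tendsto (fun N => ∫ f, ch (w (m N) - w N) f ∂μ) atTop (𝓝 (∫ _f, (1 : ℂ) ∂μ)) := by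
    apply tendsto_integral_of_dominated_convergence (fun _ => (1 : ℝ))
    · intro N
      exact (continuous_ch _).aestronglyMeasurable
    · exact integrable_const _
    · intro N
      exact Eventually.of_forall (fun f => (norm_ch _ f).le)
    · refine Eventually.of_forall (fun f => ?_)
      obtain ⟨t, ht⟩ := hcon (dual.hom f)
      have hm' : Tendsto m atTop atTop := tendsto_atTop_mono hm tendsto_id
      have h3 := (ht.comp hm').sub ht
      rw [sub_self] at h3
      have h4 : Tendsto (fun N => ((AddCircle.toCircle (dual.hom f (w (m N)) -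
          dual.hom f (w N)) : Circle) : ℂ)) atTop (𝓝 ((AddCircle.toCircle (0 : T) : Circle) : ℂ)) :=
        (continuous_subtype_val.comp AddCircle.continuous_toCircle).continuousAt.tendsto.comp h3
      rw [AddCircle.toCircle_zero, Circle.coe_one] at h4
      refine h4.congr (fun N => ?_)
      rw [← map_sub]
      rfl
  have h5 : ∀ N, ∫ f, ch (w (m N) - w N) f ∂μ = 0 := fun N =>
    hint _ (sub_ne_zero.mpr (hne N))
  simp only [h5] at hlim
  have h6 := tendsto_nhds_unique hlim tendsto_const_nhds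
  rw [integral_const] at h6
  have h7 : μ.real univ ≠ 0 := by
    rw [measureReal_def, ENNReal.toReal_ne_zero]
    exact ⟨IsOpen.measure_ne_zero μ isOpen_univ univ_nonempty, measure_ne_top μ _⟩
  apply h7
  simpa using h6

end Pool.Agent.Lib.MP_dbf3d5_gt
end

section

/-!
# Decomposition of an abelian group: `G ≃ H × (bounded direct sum of cyclic groups)` with
`|H| ≤ |m G| ^ N`.
-/

set_option autoImplicit false

namespace Pool.Agent.Lib.MP_dbf3d5_gt

universe u

/-- Partial complements: if `p H ≤ A' ≤ H` and `V ≤ H` then there is `A' ≤ A ≤ H` with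
`A ⊓ V ≤ A'` and `A ⊔ V = H`. -/
lemma exists_partial_compl {G : Type u} [AddCommGroup G] {p : ℕ} (hp : p.Prime)
    (A' V H : AddSubgroup G) (h1 : A' ≤ H) (h2 : V ≤ H) (h3 : ∀ h ∈ H, p • h ∈ A') :
    ∃ A : AddSubgroup G, A' ≤ A ∧ A ≤ H ∧ A ⊓ V ≤ A' ∧ A ⊔ V = H := by
  obtain ⟨A, hA'A, hmax⟩ := zorn_le_nonempty₀
    {A : AddSubgroup G | A' ≤ A ∧ A ≤ H ∧ A ⊓ V ≤ A'} (by
      intro c hc hchain y hy
      refine ⟨sSup c, ⟨(hc hy).1.trans (le_sSup hy), sSup_le fun a ha => (hc ha).2.1, ?_⟩,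
        fun z hz => le_sSup hz⟩
      rintro x ⟨hx1, hx2⟩
      obtain ⟨a, ha, hxa⟩ := (AddSubgroup.mem_sSup_of_directedOn ⟨y, hy⟩ hchain.directedOn).mp hx1
      exact (hc ha).2.2 ⟨hxa, hx2⟩) A' ⟨le_rfl, h1, inf_le_left⟩
  obtain ⟨⟨_, hAH, hAV⟩, hmax⟩ := hmax
  refine ⟨A, hA'A, hAH, hAV, le_antisymm (sup_le hAH h2) ?_⟩
  intro h hh
  by_contra hcon
  have hph : p • h ∈ A := hA'A (h3 h hh)
  have key : A ⊔ AddSubgroup.zmultiples h ≤ A := by
    refine hmax ⟨hA'A.trans le_sup_left, sup_le hAH ?_, ?_⟩ le_sup_left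
    · rw [AddSubgroup.zmultiples_le]; exact hh
    · rintro v ⟨hv1, hv2⟩
      obtain ⟨a, ha, b, hb, rfl⟩ := AddSubgroup.mem_sup.mp hv1
      obtain ⟨n, rfl⟩ := AddSubgroup.mem_zmultiples_iff.mp hb
      by_cases hn : (p : ℤ) ∣ n
      · obtain ⟨t, rfl⟩ := hn
        have : (p * t : ℤ) • h ∈ A := by
          rw [mul_comm, mul_smul, natCast_zsmul]
          exact A.zsmul_mem hph t
        exact hAV ⟨A.add_mem ha this, hv2⟩
      · exfalso
        apply hcon
        have hcop : IsCoprime (p : ℤ) n :=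
          (Prime.coprime_iff_not_dvd (Nat.prime_iff_prime_int.mp hp)).mpr hn
        obtain ⟨s, t, hst⟩ := hcop
        have h5 : n • h ∈ A ⊔ V := by
          have : n • h = -a + (a + n • h) := by abel
          rw [this]
          exact AddSubgroup.add_mem_sup (A.neg_mem ha) hv2
        have h6 : (p : ℤ) • h ∈ A ⊔ V := by
          rw [natCast_zsmul]
          exact (le_sup_left : A ≤ A ⊔ V) hph
        have h7 : h = s • ((p : ℤ) • h) + t • (n • h) := by
          rw [← mul_smul, ← mul_smul, ← add_smul, hst, one_smul]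
        rw [h7]
        exact AddSubgroup.add_mem _ (AddSubgroup.zsmul_mem _ h6 s) (AddSubgroup.zsmul_mem _ h5 t)
  apply hcon
  exact (le_sup_left : A ≤ A ⊔ V) (key ((le_sup_right : _ ≤ A ⊔ AddSubgroup.zmultiples h)
    (AddSubgroup.mem_zmultiples h)))

/-- Multiplication by `n` as an endomorphism. -/
abbrev mulN (G : Type u) [AddCommGroup G] (n : ℕ) : G →+ G := nsmulAddMonoidHom n

/-- The lifting lemma, internal form. -/
lemma lift_internal {G : Type u} [AddCommGroup G] {p : ℕ} (hp : p.Prime)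
    (A' B' : AddSubgroup G) (hsup : A' ⊔ B' = (mulN G p).range) (hinf : A' ⊓ B' = ⊥) :
    ∃ A B : AddSubgroup G, IsCompl A B ∧ A.map (mulN G p) = A' ∧ B.map (mulN G p) = B' ∧
      (∀ x ∈ A, p • x = 0 → x ∈ A') := by
  have hA'r : A' ≤ (mulN G p).range := hsup ▸ le_sup_left
  have hB'r : B' ≤ (mulN G p).range := hsup ▸ le_sup_right
  set V : AddSubgroup G := (mulN G p).ker with hV
  have memV : ∀ x, x ∈ V ↔ p • x = 0 := fun x => by
    rw [hV, AddMonoidHom.mem_ker]; rfl
  set H1 : AddSubgroup G := A'.comap (mulN G p) with hH1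
  have memH1 : ∀ x, x ∈ H1 ↔ p • x ∈ A' := fun x => by
    rw [hH1, AddSubgroup.mem_comap]; rfl
  set H2 : AddSubgroup G := B'.comap (mulN G p) with hH2
  have memH2 : ∀ x, x ∈ H2 ↔ p • x ∈ B' := fun x => by
    rw [hH2, AddSubgroup.mem_comap]; rfl
  obtain ⟨A, hA1, hA2, hA3, hA4⟩ := exists_partial_compl hp A' V H1
    (fun x hx => (memH1 x).mpr (A'.nsmul_mem hx p))
    (fun x hx => (memH1 x).mpr (by rw [(memV x).mp hx]; exact A'.zero_mem))
    (fun x hx => (memH1 x).mp hx)
  obtain ⟨B0, hB1, hB2, hB3, hB4⟩ := exists_partial_compl hp B' V H2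
    (fun x hx => (memH2 x).mpr (B'.nsmul_mem hx p))
    (fun x hx => (memH2 x).mpr (by rw [(memV x).mp hx]; exact B'.zero_mem))
    (fun x hx => (memH2 x).mp hx)
  obtain ⟨E, -, hE2, hE3, hE4⟩ := exists_partial_compl hp ⊥ ((A' ⊓ V) ⊔ (B' ⊓ V)) V bot_le
    (sup_le inf_le_right inf_le_right)
    (fun x hx => by rw [(memV x).mp hx]; exact AddSubgroup.zero_mem _)
  have hmapA : A.map (mulN G p) = A' := by
    apply le_antisymm
    · rintro _ ⟨a, ha, rfl⟩
      exact (memH1 a).mp (hA2 ha)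
    · intro y hy
      obtain ⟨g, rfl⟩ := hA'r hy
      have hg : g ∈ H1 := (memH1 g).mpr hy
      rw [← hA4] at hg
      obtain ⟨a, ha, v, hv, rfl⟩ := AddSubgroup.mem_sup.mp hg
      refine ⟨a, ha, ?_⟩
      rw [map_add]
      have : (mulN G p) v = 0 := (memV v).mp hv
      rw [this, add_zero]
  have hmapB0 : B0.map (mulN G p) = B' := by
    apply le_antisymm
    · rintro _ ⟨a, ha, rfl⟩
      exact (memH2 a).mp (hB2 ha)
    · intro y hy
      obtain ⟨g, rfl⟩ := hB'r hy
      have hg : g ∈ H2 := (memH2 g).mpr hy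
      rw [← hB4] at hg
      obtain ⟨a, ha, v, hv, rfl⟩ := AddSubgroup.mem_sup.mp hg
      refine ⟨a, ha, ?_⟩
      rw [map_add]
      have : (mulN G p) v = 0 := (memV v).mp hv
      rw [this, add_zero]
  refine ⟨A, B0 ⊔ E, ?_, hmapA, ?_, ?_⟩
  · constructor
    · rw [AddSubgroup.disjoint_def]
      intro x hxA hxB
      obtain ⟨b, hb, e, he, rfl⟩ := AddSubgroup.mem_sup.mp hxB
      have hpe : p • e = 0 := (memV e).mp (hE2 he)
      have h1 : p • (b + e) ∈ A' := (memH1 _).mp (hA2 hxA)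
      have h2 : p • (b + e) ∈ B' := by
        rw [smul_add, hpe, add_zero]
        exact (memH2 b).mp (hB2 hb)
      have h3 : p • (b + e) = 0 := by
        have : p • (b + e) ∈ A' ⊓ B' := ⟨h1, h2⟩
        rwa [hinf, AddSubgroup.mem_bot] at this
      have h4 : b + e ∈ A' := hA3 ⟨hxA, (memV _).mpr h3⟩
      have h5 : p • b = 0 := by
        rwa [smul_add, hpe, add_zero] at h3
      have h6 : b ∈ B' := hB3 ⟨hb, (memV _).mpr h5⟩
      have h7 : e ∈ (⊥ : AddSubgroup G) := by
        apply hE3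
        refine ⟨he, ?_⟩
        have : e = (b + e) + (-b) := by abel
        rw [this]
        exact AddSubgroup.add_mem_sup ⟨h4, (memV _).mpr h3⟩
          ⟨B'.neg_mem h6, V.neg_mem ((memV _).mpr h5)⟩
      have h8 : e = 0 := AddSubgroup.mem_bot.mp h7
      subst h8
      rw [add_zero] at h4 ⊢
      have : b ∈ A' ⊓ B' := ⟨h4, h6⟩
      rwa [hinf, AddSubgroup.mem_bot] at this
    · rw [codisjoint_iff, eq_top_iff]
      intro g _
      have hg : (mulN G p) g ∈ A' ⊔ B' := by rw [hsup]; exact ⟨g, rfl⟩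
      obtain ⟨a', ha', b', hb', hab⟩ := AddSubgroup.mem_sup.mp hg
      rw [← hmapA] at ha'
      rw [← hmapB0] at hb'
      obtain ⟨a, ha, rfl⟩ := ha'
      obtain ⟨b, hb, rfl⟩ := hb'
      have hv : g - a - b ∈ V := by
        rw [hV, AddMonoidHom.mem_ker, map_sub, map_sub, ← hab]
        abel
      rw [← hE4] at hv
      obtain ⟨e, he, w, hw, hew⟩ := AddSubgroup.mem_sup.mp hv
      obtain ⟨w1, hw1, w2, hw2, rfl⟩ := AddSubgroup.mem_sup.mp hw
      have : g = (a + w1) + ((b + w2) + e) := by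
        have h9 : g = a + b + (g - a - b) := by abel
        rw [h9, ← hew]; abel
      rw [this]
      refine AddSubgroup.add_mem_sup (A.add_mem ha (hA1 hw1.1)) ?_
      exact AddSubgroup.add_mem_sup (B0.add_mem hb (hB1 hw2.1)) he
  · rw [AddSubgroup.map_sup, hmapB0]
    have : E.map (mulN G p) = ⊥ := by
      rw [eq_bot_iff]
      rintro _ ⟨e, he, rfl⟩
      exact AddSubgroup.mem_bot.mpr ((memV e).mp (hE2 he))
    rw [this, sup_bot_eq]
  · intro x hx hpx
    exact hA3 ⟨hx, (memV x).mpr hpx⟩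

/-- For an internal summand `A` with `A.map (p •) = A'`, the range of `p •` on `A` is `A'`. -/
lemma range_equiv {G : Type u} [AddCommGroup G] {p : ℕ} (A A' : AddSubgroup G)
    (h : A.map (mulN G p) = A') : Nonempty ((mulN A p).range ≃+ A') := by
  have h1 : (mulN A p).range.map A.subtype = A' := by
    rw [← h]
    ext x
    constructor
    · rintro ⟨_, ⟨a, rfl⟩, rfl⟩
      exact ⟨a, a.2, by simp⟩
    · rintro ⟨a, ha, rfl⟩
      exact ⟨p • (⟨a, ha⟩ : A), ⟨⟨a, ha⟩, rfl⟩, by simp⟩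
  have h2 := AddSubgroup.equivMapOfInjective (mulN A p).range A.subtype A.subtype_injective
  rw [h1] at h2
  exact ⟨h2⟩

/-- The lifting lemma, external form. -/
lemma lift_prod {G : Type u} [AddCommGroup G] {p : ℕ} (hp : p.Prime) {X Z : Type u}
    [AddCommGroup X] [AddCommGroup Z] (f : (mulN G p).range ≃+ X × Z) :
    ∃ (A B : Type u) (_ : AddCommGroup A) (_ : AddCommGroup B),
      Nonempty (G ≃+ A × B) ∧ Nonempty ((mulN A p).range ≃+ X) ∧
      Nonempty ((mulN B p).range ≃+ Z) ∧ ∀ a : A, p • a = 0 → a ∈ (mulN A p).range := by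
  set ιX : X →+ G := (mulN G p).range.subtype.comp
    (f.symm.toAddMonoidHom.comp (AddMonoidHom.inl X Z)) with hιX
  set ιZ : Z →+ G := (mulN G p).range.subtype.comp
    (f.symm.toAddMonoidHom.comp (AddMonoidHom.inr X Z)) with hιZ
  have eX : ∀ x, ιX x = (f.symm (x, 0) : (mulN G p).range) := fun x => rfl
  have eZ : ∀ z, ιZ z = (f.symm (0, z) : (mulN G p).range) := fun z => rfl
  have injX : Function.Injective ιX := by
    intro x y hxy
    rw [eX, eX, Subtype.coe_inj] at hxy
    simpa using f.symm.injective hxy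
  have injZ : Function.Injective ιZ := by
    intro x y hxy
    rw [eZ, eZ, Subtype.coe_inj] at hxy
    simpa using f.symm.injective hxy
  obtain ⟨A, B, hAB, hA, hB, htor⟩ := lift_internal hp ιX.range ιZ.range (by
      apply le_antisymm
      · apply sup_le
        · rintro _ ⟨x, rfl⟩
          rw [eX]; exact Subtype.coe_prop _
        · rintro _ ⟨x, rfl⟩
          rw [eZ]; exact Subtype.coe_prop _
      · intro g hg
        have h1 : g = ιX (f ⟨g, hg⟩).1 + ιZ (f ⟨g, hg⟩).2 := by
          rw [eX, eZ, ← AddSubgroup.coe_add, ← map_add]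
          simp
        rw [h1]
        exact AddSubgroup.add_mem_sup ⟨_, rfl⟩ ⟨_, rfl⟩)
    (by
      rw [eq_bot_iff]
      rintro _ ⟨⟨x, rfl⟩, ⟨z, hz⟩⟩
      rw [eX, eZ, Subtype.coe_inj] at hz
      have h2 := f.symm.injective hz
      rw [Prod.mk.injEq] at h2
      rw [AddSubgroup.mem_bot, ← h2.1, map_zero])
  refine ⟨A, B, inferInstance, inferInstance, ?_, ?_, ?_, ?_⟩
  · refine ⟨(AddEquiv.ofBijective (A.subtype.coprod B.subtype) ⟨?_, ?_⟩).symm⟩
    · rw [injective_iff_map_eq_zero]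
      rintro ⟨a, b⟩ hab
      simp only [AddMonoidHom.coprod_apply, AddSubgroup.subtype_apply] at hab
      have h1 : (a : G) ∈ B := by
        have : (a : G) = -(b : G) := by
          rw [eq_neg_iff_add_eq_zero]; exact hab
        rw [this]; exact B.neg_mem b.2
      have h2 : (a : G) = 0 := AddSubgroup.disjoint_def.mp hAB.disjoint a.2 h1
      rw [h2, zero_add] at hab
      exact Prod.ext (Subtype.ext h2) (Subtype.ext hab)
    · intro g
      have hg : g ∈ A ⊔ B := by rw [hAB.sup_eq_top]; trivial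
      obtain ⟨a, ha, b, hb, rfl⟩ := AddSubgroup.mem_sup.mp hg
      exact ⟨(⟨a, ha⟩, ⟨b, hb⟩), rfl⟩
  · obtain ⟨e⟩ := range_equiv A _ hA
    exact ⟨e.trans (AddMonoidHom.ofInjective injX).symm⟩
  · obtain ⟨e⟩ := range_equiv B _ hB
    exact ⟨e.trans (AddMonoidHom.ofInjective injZ).symm⟩
  · intro a ha
    have h1 : (a : G) ∈ ιX.range := by
      apply htor a a.2
      rw [← AddSubgroup.coe_nsmul, ha, AddSubgroup.coe_zero]
    rw [← hA] at h1
    obtain ⟨b, hb, hba⟩ := h1
    exact ⟨⟨b, hb⟩, Subtype.ext hba⟩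

/-- If `p A` is a direct sum of copies of `ZMod (p ^ j)` (`j ≥ 1`) and `A[p] ≤ p A`, then `A` is a
direct sum of copies of `ZMod (p ^ (j + 1))`. -/
lemma lift_cyclic {A : Type u} [AddCommGroup A] {p : ℕ} (hp : p.Prime) {j : ℕ} (hj : 1 ≤ j)
    {Y : Type u} (e : (mulN A p).range ≃+ (Y →₀ ZMod (p ^ j)))
    (htor : ∀ a : A, p • a = 0 → a ∈ (mulN A p).range) :
    Nonempty (A ≃+ (Y →₀ ZMod (p ^ (j + 1)))) := by
  classical
  have hdvd : p ^ j ∣ p ^ (j + 1) := pow_dvd_pow _ (Nat.le_succ j)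
  -- `p ^ (j+1) • a = 0`
  have hkill' : ∀ y : (mulN A p).range, p ^ j • y = 0 := by
    intro y
    apply e.injective
    rw [map_nsmul, map_zero]
    ext t
    simp
  have hkill : ∀ a : A, p ^ (j + 1) • a = 0 := by
    intro a
    have h1 := hkill' ⟨p • a, ⟨a, rfl⟩⟩
    have h2 := congrArg Subtype.val h1
    simp only [AddSubgroup.coe_nsmul, AddSubgroup.coe_zero] at h2
    rw [pow_succ, mul_smul]
    exact h2
  have hne : NeZero (p ^ (j + 1)) := ⟨pow_ne_zero _ hp.ne_zero⟩
  have hch : ∀ y : Y, ∃ a : A, p • a = (e.symm (Finsupp.single y 1) : (mulN A p).range) := by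
    intro y
    obtain ⟨a, ha⟩ := (e.symm (Finsupp.single y 1)).2
    exact ⟨a, ha⟩
  choose g hg using hch
  set L : (Y →₀ ZMod (p ^ (j + 1))) →+ A := Finsupp.liftAddHom (fun y =>
    ZMod.lift (p ^ (j + 1)) ⟨zmultiplesHom A (g y), by
      simp only [zmultiplesHom_apply, natCast_zsmul]; exact hkill _⟩) with hL
  set ρ : (Y →₀ ZMod (p ^ (j + 1))) →+ (Y →₀ ZMod (p ^ j)) :=
    Finsupp.mapRange.addMonoidHom (ZMod.castHom hdvd (ZMod (p ^ j))).toAddMonoidHom with hρ
  have key : ∀ x, p • L x = (e.symm (ρ x) : (mulN A p).range) := by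
    intro x
    induction x using Finsupp.induction_linear with
    | zero => simp
    | add x y hx hy => rw [map_add, smul_add, hx, hy, map_add, map_add, AddSubgroup.coe_add]
    | single y c =>
      obtain ⟨n, rfl⟩ := ZMod.natCast_zmod_surjective c
      have h1 : L (Finsupp.single y (n : ZMod (p ^ (j + 1)))) = n • g y := by
        rw [hL, Finsupp.liftAddHom_apply_single,
          show ((n : ℕ) : ZMod (p ^ (j + 1))) = ((n : ℤ) : ZMod (p ^ (j + 1))) by simp,
          ZMod.lift_coe]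
        simp
      have h2 : ρ (Finsupp.single y (n : ZMod (p ^ (j + 1)))) = n • Finsupp.single y 1 := by
        rw [hρ]
        simp
      rw [h1, h2, map_nsmul, AddSubgroup.coe_nsmul, smul_comm, hg]
  have hρsurj : Function.Surjective ρ := by
    rw [hρ]
    exact Finsupp.mapRange_surjective _ (map_zero _) (ZMod.castHom_surjective hdvd)
  have hinj : Function.Injective L := by
    rw [injective_iff_map_eq_zero]
    intro x hx
    have h1 : ρ x = 0 := by
      have := key x
      rw [hx, smul_zero] at this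
      have h2 : e.symm (ρ x) = 0 := Subtype.ext this.symm
      simpa using h2
    -- write `x = p ^ j • x'`
    obtain ⟨x', hx'⟩ : ∃ x' : Y →₀ ZMod (p ^ (j + 1)), x = p ^ j • x' := by
      have hc : ∀ c : ZMod (p ^ (j + 1)), ZMod.castHom hdvd (ZMod (p ^ j)) c = 0 →
          ∃ d : ZMod (p ^ (j + 1)), c = p ^ j • d := by
        intro c hc
        obtain ⟨n, rfl⟩ := ZMod.natCast_zmod_surjective c
        rw [map_natCast, ZMod.natCast_eq_zero_iff] at hc
        obtain ⟨d, rfl⟩ := hc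
        exact ⟨d, by rw [nsmul_eq_mul]; push_cast; ring⟩
      choose! d hd using hc
      refine ⟨Finsupp.mapRange (fun c => if c = 0 then 0 else d c) (by simp) x, ?_⟩
      ext y
      rw [Finsupp.smul_apply, Finsupp.mapRange_apply]
      have h3 : ZMod.castHom hdvd (ZMod (p ^ j)) (x y) = 0 := by
        have := DFunLike.congr_fun h1 y
        simpa [hρ] using this
      by_cases h4 : x y = 0
      · simp [h4]
      · rw [if_neg h4]
        exact hd _ h3
    subst hx'
    -- `p ^ (j - 1) • ρ x' = 0`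
    obtain ⟨i, rfl⟩ : ∃ i, j = i + 1 := ⟨j - 1, by omega⟩
    have h2 : p ^ i • ρ x' = 0 := by
      rw [map_nsmul, pow_succ, mul_smul, key, ← AddSubgroup.coe_nsmul, ← map_nsmul] at hx
      have h3 : e.symm (p ^ i • ρ x') = 0 := Subtype.ext hx
      exact (map_eq_zero_iff e.symm e.symm.injective).mp h3
    ext y
    have h3 := DFunLike.congr_fun h2 y
    rw [Finsupp.smul_apply, Finsupp.coe_zero, Pi.zero_apply] at h3
    rw [Finsupp.smul_apply, Finsupp.coe_zero, Pi.zero_apply]
    have h4 : ρ x' y = ZMod.castHom hdvd (ZMod (p ^ (i + 1))) (x' y) := by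
      rw [hρ]; rfl
    rw [h4] at h3
    obtain ⟨n, hn⟩ := ZMod.natCast_zmod_surjective (x' y)
    rw [← hn] at h3 ⊢
    rw [map_natCast, nsmul_eq_mul, ← Nat.cast_mul, ZMod.natCast_eq_zero_iff] at h3
    rw [nsmul_eq_mul, ← Nat.cast_mul, ZMod.natCast_eq_zero_iff]
    obtain ⟨t, ht⟩ := h3
    refine ⟨t, ?_⟩
    calc p ^ (i + 1) * n = p * (p ^ i * n) := by ring
      _ = p * (p ^ (i + 1) * t) := by rw [ht]
      _ = p ^ (i + 1 + 1) * t := by ring
  have hrange : ∀ y : (mulN A p).range, ∃ x, L x = y := by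
    intro y
    obtain ⟨x, hx⟩ := hρsurj (e y)
    refine ⟨p • x, ?_⟩
    rw [map_nsmul, key, hx, AddEquiv.symm_apply_apply]
  have hsurj : Function.Surjective L := by
    intro a
    obtain ⟨x, hx⟩ := hρsurj (e ⟨p • a, ⟨a, rfl⟩⟩)
    have h1 : p • (a - L x) = 0 := by
      rw [smul_sub, key, hx, AddEquiv.symm_apply_apply, sub_self]
    obtain ⟨x2, hx2⟩ := hrange ⟨a - L x, htor _ h1⟩
    exact ⟨x2 + x, by rw [map_add, hx2]; simp⟩
  exact ⟨(AddEquiv.ofBijective L ⟨hinj, hsurj⟩).symm⟩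

/-- If `p A` is a direct sum of copies of `ZMod n` with `n` coprime to `p` and `A[p] ≤ p A`, then
`A` is a direct sum of copies of `ZMod n`. -/
lemma lift_coprime {A : Type u} [AddCommGroup A] {p n : ℕ} (hpn : p.Coprime n)
    {Y : Type u} (e : (mulN A p).range ≃+ (Y →₀ ZMod n))
    (htor : ∀ a : A, p • a = 0 → a ∈ (mulN A p).range) :
    Nonempty (A ≃+ (Y →₀ ZMod n)) := by
  have hkill : ∀ y : (mulN A p).range, n • y = 0 := by
    intro y
    apply e.injective
    rw [map_nsmul, map_zero]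
    ext t
    simp
  have hinj : Function.Injective (mulN A p) := by
    rw [injective_iff_map_eq_zero]
    intro a ha
    have ha' : p • a = 0 := ha
    have h1 : n • a = 0 := congrArg Subtype.val (hkill ⟨a, htor a ha'⟩)
    have h2 : (p : ℤ) • a = 0 := by rw [natCast_zsmul]; exact ha'
    have h3 : (n : ℤ) • a = 0 := by rw [natCast_zsmul]; exact h1
    obtain ⟨s, t, hst⟩ := (Nat.isCoprime_iff_coprime.mpr hpn)
    have h4 : a = s • ((p : ℤ) • a) + t • ((n : ℤ) • a) := by
      rw [← mul_smul, ← mul_smul, ← add_smul, hst, one_smul]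
    rw [h4, h2, h3, smul_zero, smul_zero, add_zero]
  exact ⟨(AddMonoidHom.ofInjective hinj).trans e⟩

/-- If `p A = 0` then `A` is a direct sum of copies of `ZMod p`. -/
lemma lift_zero {A : Type u} [AddCommGroup A] {p : ℕ} (hp : p.Prime)
    (h : ∀ a : A, p • a = 0) : ∃ Y : Type u, Nonempty (A ≃+ (Y →₀ ZMod (p ^ 1))) := by
  have : Fact p.Prime := ⟨hp⟩
  let _ : Module (ZMod p) A := AddCommGroup.zmodModule h
  let b := Module.Basis.ofVectorSpace (ZMod p) A
  refine ⟨Module.Basis.ofVectorSpaceIndex (ZMod p) A, ?_⟩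
  rw [pow_one]
  exact ⟨b.repr.toAddEquiv⟩

/-- `B` is a finite product of groups `Y →₀ ZMod (p ^ k)` with `p` prime, `k ≥ 1`, `p ^ k ∣ m`. -/
def IsDS (m : ℕ) (B : Type u) [AddCommGroup B] : Prop :=
  ∃ (s : ℕ) (p k : Fin s → ℕ) (Y : Fin s → Type u),
      (∀ i, (p i).Prime) ∧ (∀ i, 1 ≤ k i) ∧ (∀ i, p i ^ k i ∣ m) ∧
      Nonempty (B ≃+ ((i : Fin s) → (Y i →₀ ZMod (p i ^ k i))))

lemma IsDS.cons {m : ℕ} {B C : Type u} [AddCommGroup B] [AddCommGroup C] (hB : IsDS m B)
    {p k : ℕ} (hp : p.Prime) (hk : 1 ≤ k) (hm : p ^ k ∣ m) {Y : Type u}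
    (e : C ≃+ (Y →₀ ZMod (p ^ k)) × B) : IsDS m C := by
  obtain ⟨s, p', k', Y', h1, h2, h3, ⟨f⟩⟩ := hB
  refine ⟨s + 1, Fin.cons p p', Fin.cons k k', Fin.cons Y Y', ?_, ?_, ?_, ?_⟩
  · intro i
    refine Fin.cases ?_ (fun j => ?_) i
    · exact hp
    · exact h1 j
  · intro i
    refine Fin.cases ?_ (fun j => ?_) i
    · exact hk
    · exact h2 j
  · intro i
    refine Fin.cases ?_ (fun j => ?_) i
    · exact hm
    · exact h3 j
  · exact ⟨(e.trans ((AddEquiv.refl _).prodCongr f)).trans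
      (Fin.consLinearEquiv ℕ (fun i : Fin (s + 1) =>
        (Fin.cons (α := fun _ => Type u) Y Y' i →₀
          ZMod (Fin.cons (α := fun _ => ℕ) p p' i ^ Fin.cons (α := fun _ => ℕ) k k' i)))).toAddEquiv⟩

/-- If `p B` is a finite product of bounded homogeneous groups, so is `B`. -/
lemma isDS_of_range {p m : ℕ} (hp : p.Prime) : ∀ (s : ℕ) (q k : Fin s → ℕ) (Y : Fin s → Type u)
    (B : Type u) [AddCommGroup B],
      (∀ i, (q i).Prime) → (∀ i, 1 ≤ k i) → (∀ i, q i ^ k i ∣ m) →
      ((mulN B p).range ≃+ ((i : Fin s) → (Y i →₀ ZMod (q i ^ k i)))) → IsDS (p * m) B := by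
  intro s
  induction s with
  | zero =>
    intro q k Y B _ h1 h2 h3 e
    have hz : ∀ a : B, p • a = 0 := by
      intro a
      have : (⟨p • a, ⟨a, rfl⟩⟩ : (mulN B p).range) = 0 := by
        apply e.injective
        exact Subsingleton.elim _ _
      exact congrArg Subtype.val this
    obtain ⟨Y0, ⟨f⟩⟩ := lift_zero hp hz
    refine IsDS.cons (B := PUnit.{u+1}) ⟨0, Fin.elim0, Fin.elim0, Fin.elim0, fun i => i.elim0,
      fun i => i.elim0, fun i => i.elim0, ⟨?_⟩⟩ hp le_rfl (by rw [pow_one]; exact dvd_mul_right _ _)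
      (f.trans (AddEquiv.prodUnique).symm)
    exact { toFun := fun _ i => i.elim0
            invFun := fun _ => PUnit.unit
            left_inv := fun _ => rfl
            right_inv := fun _ => Subsingleton.elim _ _
            map_add' := fun _ _ => Subsingleton.elim _ _ }
  | succ s ih =>
    intro q k Y B _ h1 h2 h3 e
    have e' := e.trans (Fin.consLinearEquiv ℕ (fun i : Fin (s + 1) =>
      (Y i →₀ ZMod (q i ^ k i)))).symm.toAddEquiv
    obtain ⟨A0, B1, _, _, ⟨g⟩, ⟨eA⟩, ⟨eB⟩, htor⟩ := lift_prod hp e'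
    have hB1 := ih (fun i => q i.succ) (fun i => k i.succ) (fun i => Y i.succ) B1
      (fun i => h1 _) (fun i => h2 _) (fun i => h3 _) eB
    by_cases hq : q 0 = p
    · rw [hq] at eA
      obtain ⟨f⟩ := lift_cyclic hp (h2 0) eA htor
      refine IsDS.cons hB1 hp (by omega) ?_ (g.trans (f.prodCongr (AddEquiv.refl _)))
      rw [pow_succ, mul_comm]
      have := h3 0
      rw [hq] at this
      exact Nat.mul_dvd_mul_left p this
    · obtain ⟨f⟩ := lift_coprime (Nat.Coprime.pow_right _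
        ((Nat.coprime_primes hp (h1 0)).mpr (Ne.symm hq))) eA htor
      exact IsDS.cons hB1 (h1 0) (h2 0) ((h3 0).mul_left p)
        (g.trans (f.prodCongr (AddEquiv.refl _)))

/-- If `A[p] ≤ p A` then `|A| ≤ |p A| ^ 2`. -/
lemma card_le {A : Type u} [AddCommGroup A] {p : ℕ}
    (htor : ∀ a : A, p • a = 0 → a ∈ (mulN A p).range) :
    Cardinal.mk A ≤ Cardinal.mk (mulN A p).range ^ 2 := by
  have hch : ∀ y : (mulN A p).range, ∃ a : A, p • a = y := fun y => y.2
  choose r hr using hch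
  rw [sq, Cardinal.mul_def]
  refine Cardinal.mk_le_of_injective (f := fun a : A =>
    ((⟨p • a, ⟨a, rfl⟩⟩, ⟨a - r ⟨p • a, ⟨a, rfl⟩⟩, htor _ (by
      rw [smul_sub, hr, sub_self])⟩) : (mulN A p).range × (mulN A p).range)) ?_
  intro a b hab
  rw [Prod.mk.injEq] at hab
  have h1 := congrArg Subtype.val hab.2
  simp only at h1
  rw [hab.1] at h1
  exact sub_left_injective h1

lemma exists_decomp_aux (m : ℕ) : m ≠ 0 → ∀ (G : Type u) [AddCommGroup G],
    ∃ (H B : Type u) (_ : AddCommGroup H) (_ : AddCommGroup B), IsDS m B ∧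
      Nonempty (G ≃+ H × B) ∧
      ∃ N : ℕ, Cardinal.mk H ≤ Cardinal.mk ((nsmulAddMonoidHom m : G →+ G).range) ^ N := by
  induction m using Nat.strong_induction_on with
  | _ m ih =>
  intro hm G _
  by_cases h1 : m = 1
  · subst h1
    refine ⟨G, PUnit, inferInstance, inferInstance, ⟨0, Fin.elim0, Fin.elim0, Fin.elim0,
      fun i => i.elim0, fun i => i.elim0, fun i => i.elim0, ⟨?_⟩⟩, ⟨AddEquiv.prodUnique.symm⟩, 1, ?_⟩
    · exact { toFun := fun _ i => i.elim0
              invFun := fun _ => PUnit.unit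
              left_inv := fun _ => rfl
              right_inv := fun _ => Subsingleton.elim _ _
              map_add' := fun _ _ => Subsingleton.elim _ _ }
    · rw [pow_one]
      refine Cardinal.mk_le_of_injective (f := fun g : G => ⟨g, ⟨g, by simp⟩⟩) ?_
      intro a b hab
      exact congrArg Subtype.val hab
  · have hp := Nat.minFac_prime h1
    obtain ⟨m', hm'⟩ := Nat.minFac_dvd m
    set p := m.minFac with hpdef
    have hm'0 : m' ≠ 0 := by
      rintro rfl
      rw [mul_zero] at hm'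
      exact hm hm'
    have hlt : m' < m := by
      rw [hm']
      exact lt_mul_of_one_lt_left (Nat.pos_of_ne_zero hm'0) hp.one_lt
    obtain ⟨H', B', _, _, hB', ⟨f⟩, N, hN⟩ := ih m' hlt hm'0 (mulN G p).range
    obtain ⟨A, B, iA, iB, hg, ⟨eA⟩, ⟨eB⟩, htor⟩ := lift_prod hp f
    obtain ⟨s, q, k, Y, h3, h4, h5, ⟨e⟩⟩ := hB'
    have hB := isDS_of_range hp s q k Y B h3 h4 h5 (eB.trans e)
    rw [← hm'] at hB
    refine ⟨A, B, iA, iB, hB, hg, N * 2, ?_⟩
    have h6 : Cardinal.mk (nsmulAddMonoidHom m' : (mulN G p).range →+ (mulN G p).range).range ≤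
        Cardinal.mk (nsmulAddMonoidHom m : G →+ G).range := by
      refine Cardinal.mk_le_of_injective (f := fun x => ⟨(x.1 : G), ?_⟩) ?_
      · obtain ⟨⟨_, ⟨g, rfl⟩⟩, hy⟩ := x.2
        refine ⟨g, ?_⟩
        rw [← hy]
        simp only [nsmulAddMonoidHom_apply, AddSubgroup.coe_nsmul]
        rw [hm', mul_comm, mul_smul]
      · intro a b hab
        have h7 : (a.1 : G) = (b.1 : G) := by
          have := congrArg Subtype.val hab
          exact this
        exact Subtype.ext (Subtype.ext h7)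
    calc Cardinal.mk A ≤ Cardinal.mk (mulN A p).range ^ 2 := card_le htor
      _ = Cardinal.mk H' ^ 2 := by rw [Cardinal.mk_congr eA.toEquiv]
      _ ≤ (Cardinal.mk (nsmulAddMonoidHom m : G →+ G).range ^ N) ^ 2 :=
          pow_le_pow_left' (hN.trans (pow_le_pow_left' h6 N)) 2
      _ = Cardinal.mk (nsmulAddMonoidHom m : G →+ G).range ^ (N * 2) := by rw [pow_mul]

/-- Every abelian group is the direct sum of a group `H` with `|H| ≤ |m G| ^ N` and of finitely
many homogeneous direct sums of cyclic groups of prime power orders dividing `m`. -/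
theorem exists_decomp (G : Type u) [AddCommGroup G] (m : ℕ) (hm : m ≠ 0) :
    ∃ (H : Type u) (_ : AddCommGroup H) (s : ℕ) (p k : Fin s → ℕ) (Y : Fin s → Type u),
      (∀ i, (p i).Prime) ∧ (∀ i, 1 ≤ k i) ∧ (∀ i, p i ^ k i ∣ m) ∧
      Nonempty (G ≃+ H × ((i : Fin s) → (Y i →₀ ZMod (p i ^ k i)))) ∧
      ∃ N : ℕ, Cardinal.mk H ≤ Cardinal.mk ((nsmulAddMonoidHom m : G →+ G).range) ^ N := by
  obtain ⟨H, B, iH, iB, ⟨s, p, k, Y, h1, h2, h3, ⟨e⟩⟩, ⟨f⟩, N, hN⟩ := exists_decomp_aux m hm G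
  exact ⟨H, iH, s, p, k, Y, h1, h2, h3, ⟨f.trans ((AddEquiv.refl _).prodCongr e)⟩, N, hN⟩

end Pool.Agent.Lib.MP_dbf3d5_gt
end

section

/-!
# Separating families of homomorphisms into the circle
-/

open Set Filter Topology Cardinal

universe u v w

namespace Pool.Agent.Lib.MP_dbf3d5_gt

section finsuppSep

variable {B : Type u} {S : Type v}

open Classical in
/-- The sum of the values at those `b` whose trace on `E` is `t`. -/
noncomputable def lam (e : B → Set S) (E t : Finset S) : (B →₀ T) →+ T :=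
  Finsupp.liftAddHom (fun b => if (∀ s ∈ E, s ∈ e b ↔ s ∈ t) then AddMonoidHom.id T else 0)

lemma exists_lam_ne {e : B → Set S} (he : Function.Injective e) {v : B →₀ T} (hv : v ≠ 0) :
    ∃ E t : Finset S, lam e E t v ≠ 0 := by
  classical
  obtain ⟨b₁, hb₁⟩ := Finsupp.ne_iff.mp hv
  rw [Finsupp.zero_apply] at hb₁
  have h1 : ∀ b : B, ∃ s : Option S, b ≠ b₁ → ∃ s', s = some s' ∧ ¬ (s' ∈ e b ↔ s' ∈ e b₁) := by
    intro b
    by_cases hb : b = b₁
    · exact ⟨none, fun h => absurd hb h⟩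
    · have h2 : e b ≠ e b₁ := fun h => hb (he h)
      by_contra hcon
      push Not at hcon
      apply h2
      ext s
      exact (hcon (some s)).2 s rfl
  choose f hf using h1
  set E : Finset S := v.support.biUnion (fun b => (f b).toFinset) with hE
  refine ⟨E, E.filter (fun s => s ∈ e b₁), ?_⟩
  have h3 : lam e E (E.filter (fun s => s ∈ e b₁)) v = v b₁ := by
    unfold lam
    rw [Finsupp.liftAddHom_apply, Finsupp.sum]
    rw [Finset.sum_eq_single b₁]
    · rw [if_pos]
      · rfl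
      · intro s hs
        simp [hs]
    · intro b hb hne
      rw [if_neg]
      · rfl
      · intro hcon
        obtain ⟨s', hs', hne'⟩ := hf b hne
        have hsE : s' ∈ E := by
          rw [hE, Finset.mem_biUnion]
          exact ⟨b, hb, by rw [hs']; simp⟩
        have := hcon s' hsE
        rw [Finset.mem_filter] at this
        apply hne'
        rw [this]
        simp [hsE]
    · intro hb
      rw [Finsupp.notMem_support_iff] at hb
      rw [hb, map_zero]
  rw [h3]
  exact hb₁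

end finsuppSep

/-- the homomorphism `single b 1 ↦ single b θ` -/
noncomputable def kap (B : Type u) {n : ℕ} {θ : T} (h : addOrderOf θ = n) :
    (B →₀ ZMod n) →+ (B →₀ T) :=
  Finsupp.mapRange.addMonoidHom (zm n θ (by rw [← h]; exact addOrderOf_nsmul_eq_zero θ))

lemma kap_injective (B : Type u) {n : ℕ} {θ : T} (h : addOrderOf θ = n) :
    Function.Injective (kap B h) := by
  have h1 : Function.Injective (zm n θ (by rw [← h]; exact addOrderOf_nsmul_eq_zero θ)) :=
    zm_injective _ h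
  exact Finsupp.mapRange_injective _ (map_zero _) h1

lemma kap_single (B : Type u) {n : ℕ} {θ : T} (h : addOrderOf θ = n) (b : B) :
    kap B h (Finsupp.single b 1) = Finsupp.single b θ := by
  unfold kap
  rw [Finsupp.mapRange.addMonoidHom_apply, Finsupp.mapRange_single, zm_one]

/-- the homomorphism induced on finitely supported functions -/
noncomputable def kapZ (B : Type u) {θ : T} (_h : addOrderOf θ = 0) :
    (B →₀ ℤ) →+ (B →₀ T) :=
  Finsupp.mapRange.addMonoidHom (zmultiplesHom T θ)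

lemma kapZ_injective (B : Type u) {θ : T} (h : addOrderOf θ = 0) :
    Function.Injective (kapZ B h) := by
  have h1 : Function.Injective (zmultiplesHom T θ) := by
    rw [injective_iff_map_eq_zero]
    intro k hk
    have h2 : (addOrderOf θ : ℤ) ∣ k := addOrderOf_dvd_iff_zsmul_eq_zero.mpr (by simpa using hk)
    rw [h] at h2
    simpa using h2
  exact Finsupp.mapRange_injective _ (map_zero _) h1

lemma exists_repr (p : ℕ) [Fact p.Prime] (V : Type u) [AddCommGroup V] [Module (ZMod p) V] :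
    ∃ (I : Set V) (r : V →+ (I →₀ ZMod p)), Function.Injective r :=
  ⟨_, (Module.Basis.ofVectorSpace (ZMod p) V).repr.toLinearMap.toAddMonoidHom,
    (Module.Basis.ofVectorSpace (ZMod p) V).repr.injective⟩

section

variable (A : Type u) [AddCommGroup A]

lemma exists_psi_zero : ∃ (B : Set A) (ψ : A →+ (B →₀ T)),
    ∀ a : A, addOrderOf a = 0 → ψ a ≠ 0 := by
  obtain ⟨B, hB, hmax⟩ := exists_maximal_linearIndepOn ℤ (id : A → A)
  obtain ⟨θ, hθ⟩ := exists_theta 0
  have hinj : Function.Injective (Finsupp.linearCombination ℤ (fun b : B => (b : A))) := hB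
  obtain ⟨ψ, hψ⟩ := extend_finsupp
    (Finsupp.linearCombination ℤ (fun b : B => (b : A))).toAddMonoidHom hinj (kapZ B hθ)
  refine ⟨B, ψ, fun a ha h0 => ?_⟩
  obtain ⟨k, hk, hka⟩ : ∃ k : ℤ, k ≠ 0 ∧ k • a ∈ Submodule.span ℤ B := by
    by_cases haB : a ∈ B
    · exact ⟨1, one_ne_zero, by rw [one_smul]; exact Submodule.subset_span haB⟩
    · obtain ⟨k, hk, h⟩ := hmax a haB
      exact ⟨k, hk, by simpa using h⟩
  rw [← Subtype.range_coe (s := B), ← Finsupp.range_linearCombination] at hka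
  obtain ⟨v, hv⟩ := hka
  have h1 := hψ v
  have h2 : ψ (k • a) = kapZ B hθ v := by rw [← h1]; exact congrArg ψ hv.symm
  rw [map_zsmul, h0, smul_zero] at h2
  have h3 : v = 0 := kapZ_injective B hθ (by rw [← h2, map_zero])
  rw [h3, map_zero] at hv
  have h4 : (addOrderOf a : ℤ) ∣ k := addOrderOf_dvd_iff_zsmul_eq_zero.mpr hv.symm
  rw [ha] at h4
  exact hk (by simpa using h4)

lemma exists_psi_prime (p : ℕ) [hp : Fact p.Prime] : ∃ (B : Set A) (ψ : A →+ (B →₀ T)),
    ∀ a : A, p • a = 0 → a ≠ 0 → ψ a ≠ 0 := by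
  set V : AddSubgroup A := (nsmulAddMonoidHom p : A →+ A).ker with hV
  have hVp : ∀ v : V, p • v = 0 := by
    rintro ⟨v, hv⟩
    apply Subtype.ext
    exact hv
  let _ : Module (ZMod p) V := AddCommGroup.zmodModule hVp
  obtain ⟨I, r, hr⟩ := exists_repr p V
  obtain ⟨θ, hθ⟩ := exists_theta p
  obtain ⟨ψ, hψ⟩ := extend_finsupp V.subtype V.subtype_injective ((kap I hθ).comp r)
  set e : I → (Subtype.val '' (I : Set V) : Set A) :=
    fun i => ⟨((i : V) : A), ⟨i, i.2, rfl⟩⟩ with he
  have hei : Function.Injective e := by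
    intro i j hij
    have h1 : (e i : A) = (e j : A) := congrArg Subtype.val hij
    have h2 : ((i : V) : A) = ((j : V) : A) := h1
    exact Subtype.ext (Subtype.ext h2)
  refine ⟨Subtype.val '' (I : Set V), (Finsupp.mapDomain.addMonoidHom e).comp ψ,
    fun a ha hne h0 => hne ?_⟩
  have h1 : ψ a = 0 := Finsupp.mapDomain_injective hei (by
    rw [Finsupp.mapDomain_zero]; exact h0)
  have haV : a ∈ V := ha
  have h2 : ψ a = kap I hθ (r ⟨a, haV⟩) := hψ ⟨a, haV⟩
  rw [h1] at h2
  have h4 : r ⟨a, haV⟩ = 0 := kap_injective I hθ (by rw [← h2, map_zero])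
  have h5 : (⟨a, haV⟩ : V) = 0 := hr (by rw [h4, map_zero])
  exact congrArg Subtype.val h5

lemma exists_psi (t : ℕ) : ∃ (B : Set A) (ψ : A →+ (B →₀ T)),
    (t = 0 → ∀ a : A, addOrderOf a = 0 → ψ a ≠ 0) ∧
    (t.Prime → ∀ a : A, t • a = 0 → a ≠ 0 → ψ a ≠ 0) := by
  by_cases h0 : t = 0
  · obtain ⟨B, ψ, h⟩ := exists_psi_zero A
    exact ⟨B, ψ, fun _ => h, fun hp => absurd h0 hp.ne_zero⟩
  · by_cases hp : t.Prime
    · have : Fact t.Prime := ⟨hp⟩
      obtain ⟨B, ψ, h⟩ := exists_psi_prime A t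
      exact ⟨B, ψ, fun h' => absurd h' h0, fun _ => h⟩
    · exact ⟨∅, 0, fun h' => absurd h' h0, fun h' => absurd h' hp⟩

theorem exists_separating (S : Type v) [Infinite S] (hA : lift.{v} #A ≤ lift.{u} #(Set S)) :
    ∃ θ : S → (A →+ T), ∀ a, a ≠ 0 → ∃ s, θ s a ≠ 0 := by
  obtain ⟨emb⟩ := lift_mk_le'.mp hA
  choose B ψ h0 hp using exists_psi A
  set Θ : ℕ × Finset S × Finset S → (A →+ T) := fun i =>
    (lam (fun b : B i.1 => emb b) i.2.1 i.2.2).comp (ψ i.1) with hΘ
  have hsep : ∀ a, a ≠ 0 → ∃ i, Θ i a ≠ 0 := by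
    intro a ha
    obtain ⟨t, ht⟩ : ∃ t, ψ t a ≠ 0 := by
      by_cases ho : addOrderOf a = 0
      · exact ⟨0, h0 0 rfl a ho⟩
      · have h1 : addOrderOf a ≠ 1 := fun h => ha (AddMonoid.addOrderOf_eq_one_iff.mp h)
        obtain ⟨p, hpp, k, hk⟩ := Nat.exists_prime_and_dvd h1
        refine ⟨p, fun hcon => ?_⟩
        have h2 : k • a ≠ 0 := by
          intro h
          have h3 := addOrderOf_dvd_iff_nsmul_eq_zero.mpr h
          have hk0 : 0 < k := by
            rcases Nat.eq_zero_or_pos k with rfl | h'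
            · rw [mul_zero] at hk; exact absurd hk ho
            · exact h'
          have h4 := Nat.le_of_dvd hk0 h3
          rw [hk] at h4
          have := hpp.two_le
          nlinarith
        apply hp p hpp (k • a) _ h2
        · rw [map_nsmul, hcon, smul_zero]
        · rw [← mul_smul, ← hk, addOrderOf_nsmul_eq_zero]
    have hinj : Function.Injective (fun b : B t => emb b) := by
      intro b b' h
      exact Subtype.ext (emb.injective h)
    obtain ⟨E, t', h⟩ := exists_lam_ne hinj ht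
    exact ⟨(t, E, t'), h⟩
  have hcard : #(ℕ × Finset S × Finset S) ≤ #S := by
    have h1 : ℵ₀ ≤ #S := aleph0_le_mk S
    rw [mk_prod, mk_prod, mk_finset_of_infinite, mk_nat]
    simp only [lift_id, lift_aleph0, lift_uzero]
    rw [mul_eq_self h1, aleph0_mul_eq h1]
  obtain ⟨f⟩ := hcard
  refine ⟨fun s => Θ (Function.invFun f s), fun a ha => ?_⟩
  obtain ⟨i, hi⟩ := hsep a ha
  refine ⟨f i, ?_⟩
  beta_reduce
  rw [Function.leftInverse_invFun f.injective i]
  exact hi

end

end Pool.Agent.Lib.MP_dbf3d5_gt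
end

section

/-!
# Rich families of homomorphisms into the circle
-/

open Set Filter Topology Cardinal

universe u v w

namespace Pool.Agent.Lib.MP_dbf3d5_gt

lemma mk_T_le : #T ≤ 𝔠 := by
  have h : Function.Surjective (fun x : ℝ => (x : T)) := QuotientAddGroup.mk_surjective
  have := mk_le_of_surjective h
  rwa [mk_real] at this

lemma continuum_le_of_pow {S : Type v} [Infinite S] (hS : #S ^ ℵ₀ = #S) : 𝔠 ≤ #S := by
  rw [← two_power_aleph0, ← hS]
  exact power_le_power_right (le_trans (natCast_le_aleph0 (n := 2)) (aleph0_le_mk S))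

lemma mk_seq {S : Type v} (hS : #S ^ ℵ₀ = #S) : #(ℕ → S) = #S := by
  rw [mk_pi, prod_const, mk_nat, lift_uzero, lift_aleph0, hS]

lemma mk_seq_le_continuum {Y : Type v} (hY : #Y ≤ 𝔠) : #(ℕ → Y) ≤ 𝔠 := by
  rw [mk_pi, prod_const, mk_nat, lift_uzero, lift_aleph0]
  exact (power_le_power_right hY).trans continuum_power_aleph0.le

/-- not eventually constant -/
def NEC {A : Type u} (z : ℕ → A) : Prop := ¬ ∃ N, ∀ m ≥ N, z m = z N

/-- convergent -/
def Conv (x : ℕ → T) : Prop := ∃ t, Tendsto x atTop (𝓝 t)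

theorem exists_rich (A : Type u) [AddCommGroup A] (S : Type v) [Infinite S] (hS : #S ^ ℵ₀ = #S)
    (hA : lift.{v} #A ≤ lift.{u} #(Set S)) :
    ∃ χ : S → (A →+ T), (∀ a, a ≠ 0 → ∃ s, χ s a ≠ 0) ∧ (∃ s, χ s = 0) ∧
      ∀ z : ℕ → A, NEC z → ∃ s, ¬ Conv (fun m => χ s (z m)) := by
  classical
  obtain ⟨θ, hθ⟩ := exists_separating A S hA
  set θc : (ℕ → S) → (A →+ (ℕ → T)) := fun c => AddMonoidHom.pi (fun l => θ (c l)) with hθc
  have hw : ∀ w : ℕ → (ℕ → T), ∃ h : (ℕ → T) →+ T, NEC w → ¬ Conv (fun m => h (w m)) := by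
    intro w
    by_cases hw : NEC w
    · obtain ⟨h, hh⟩ := exists_not_tendsto w hw
      exact ⟨h, fun _ => hh⟩
    · exact ⟨0, fun h => absurd h hw⟩
  choose hom hhom using hw
  set X : Option (S ⊕ ((ℕ → S) × (ℕ → (ℕ → T)))) → (A →+ T) := fun i =>
    match i with
    | none => 0
    | some (Sum.inl s) => θ s
    | some (Sum.inr q) => (hom q.2).comp (θc q.1) with hX
  have hcard : #(Option (S ⊕ ((ℕ → S) × (ℕ → (ℕ → T))))) ≤ #S := by
    have h1 : ℵ₀ ≤ #S := aleph0_le_mk S
    have h2 : #(ℕ → (ℕ → T)) ≤ 𝔠 := mk_seq_le_continuum (mk_seq_le_continuum mk_T_le)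
    have h3 : #((ℕ → S) × (ℕ → (ℕ → T))) ≤ #S := by
      rw [mk_prod, mk_seq hS, lift_uzero]
      refine (mul_le_max_of_aleph0_le_left h1).trans (max_le le_rfl ?_)
      calc lift.{v} #(ℕ → (ℕ → T)) ≤ lift.{v} 𝔠 := lift_le.mpr h2
        _ = 𝔠 := lift_continuum
        _ ≤ #S := continuum_le_of_pow hS
    rw [mk_option, mk_sum, lift_id, lift_id]
    refine add_le_of_le h1 (add_le_of_le h1 le_rfl h3) (one_le_aleph0.trans h1)
  obtain ⟨f⟩ := hcard
  have hinv : ∀ i, X (Function.invFun f (f i)) = X i := fun i => by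
    rw [Function.leftInverse_invFun f.injective i]
  refine ⟨fun s => X (Function.invFun f s), fun a ha => ?_, ⟨f none, hinv none⟩, fun z hz => ?_⟩
  · obtain ⟨s, hs⟩ := hθ a ha
    exact ⟨f (some (Sum.inl s)), by beta_reduce; rw [hinv]; exact hs⟩
  · have h1 : ∀ q : ℕ × ℕ, ∃ s : S, z q.1 ≠ z q.2 → θ s (z q.1 - z q.2) ≠ 0 := by
      intro q
      by_cases hq : z q.1 = z q.2
      · exact ⟨Classical.arbitrary S, fun h => absurd hq h⟩
      · obtain ⟨s, hs⟩ := hθ (z q.1 - z q.2) (sub_ne_zero.mpr hq)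
        exact ⟨s, fun _ => hs⟩
    choose s hs using h1
    set c : ℕ → S := fun l => s (Nat.unpair l) with hc
    set w : ℕ → (ℕ → T) := fun m => θc c (z m) with hwdef
    have h2 : NEC w := by
      rintro ⟨N, hN⟩
      apply hz
      refine ⟨N, fun m hm => ?_⟩
      by_contra hne
      apply hs (m, N) hne
      have h3 := congrFun (hN m hm) (Nat.pair m N)
      have h4 : θ (s (m, N)) (z m) = θ (s (m, N)) (z N) := by
        have h5 : θ (s (Nat.unpair (Nat.pair m N))) (z m) =
          θ (s (Nat.unpair (Nat.pair m N))) (z N) := h3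
        rwa [Nat.unpair_pair] at h5
      change θ (s (m, N)) (z m - z N) = 0
      rw [map_sub, h4, sub_self]
    refine ⟨f (some (Sum.inr (c, w))), ?_⟩
    beta_reduce
    rw [hinv]
    exact hhom w h2

end Pool.Agent.Lib.MP_dbf3d5_gt
end
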